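import Mathlib

/-!
Row T7: the arithmetic conditions with real exponents.
-/

namespace Pool.Agent.LibHF75

private theorem t7_one_lt {r : ℕ → ℝ} (hr : Monotone r) (h1 : 1 < r 0) (n : ℕ) : 1 < r n :=
  lt_of_lt_of_le h1 (hr (Nat.zero_le n))

private theorem t7_pow_mono {r : ℕ → ℝ} (hr : Monotone r) {n a b : ℕ} (hn : 1 ≤ n) (hab : a ≤ b) :
    r (n ^ a) ≤ r (n ^ b) :=
  hr (Nat.pow_le_pow_right hn hab)

/-- PLAN for the four lemmas: `r ≤ 2 * max 8 ⌊r⌋₊`, `max 8 ⌊r⌋₊ ≤ 8 * r`, `r ≤ max 8 ⌈r⌉₊ ≤ 8 * r` as `1 < r`; change the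
constant `C` to a larger one (`n ^ C ≤ n ^ C'` and `r` is monotone). -/
theorem cond_floor {r : ℕ → ℝ} (hr : Monotone r) (h1 : 1 < r 0) (f : ℕ → ℝ) :
    (∃ C : ℕ, ∀ n ≥ C, f n ≤ C * (r (n ^ C) + Nat.log 2 (n + 1))) →
      ∃ C : ℕ, ∀ n ≥ C, f n ≤ C * (((max 8 ⌊r (n ^ C)⌋₊ : ℕ) : ℝ) + Nat.log 2 (n + 1)) := by
  rintro ⟨C, hC⟩
  refine ⟨2 * C + 1, fun n hn => ?_⟩
  have hn1 : 1 ≤ n := by omega
  have hnC : n ≥ C := by omega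
  have h := hC n hnC
  have hm := t7_pow_mono hr hn1 (show C ≤ 2 * C + 1 by omega)
  set R : ℝ := r (n ^ (2 * C + 1)) with hR
  set L : ℝ := ((Nat.log 2 (n + 1) : ℕ) : ℝ) with hL
  have hL0 : 0 ≤ L := Nat.cast_nonneg _
  set M : ℝ := ((max 8 ⌊R⌋₊ : ℕ) : ℝ) with hM
  have hM8 : (8 : ℝ) ≤ M := by
    rw [hM]
    exact_mod_cast le_max_left 8 ⌊R⌋₊
  have hMf : ((⌊R⌋₊ : ℕ) : ℝ) ≤ M := by
    rw [hM]
    exact_mod_cast le_max_right 8 ⌊R⌋₊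
  have hlt : R < (⌊R⌋₊ : ℝ) + 1 := Nat.lt_floor_add_one R
  have hR2 : R ≤ 2 * M := by linarith
  have hC0 : (0 : ℝ) ≤ (C : ℝ) := Nat.cast_nonneg _
  have hstep : (C : ℝ) * (r (n ^ C) + L) ≤ (C : ℝ) * (2 * M + L) := by
    apply mul_le_mul_of_nonneg_left _ hC0
    linarith
  have hcast : ((2 * C + 1 : ℕ) : ℝ) = 2 * (C : ℝ) + 1 := by push_cast; ring
  rw [hcast]
  nlinarith [mul_nonneg hC0 hL0]

theorem cond_ceil {r : ℕ → ℝ} (hr : Monotone r) (h1 : 1 < r 0) (f : ℕ → ℝ) :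
    (∃ C : ℕ, ∀ n ≥ C, f n ≤ C * (((max 8 ⌈r (n ^ C)⌉₊ : ℕ) : ℝ) + Nat.log 2 (n + 1))) →
      ∃ C : ℕ, ∀ n ≥ C, f n ≤ C * (r (n ^ C) + Nat.log 2 (n + 1)) := by
  rintro ⟨C, hC⟩
  refine ⟨8 * C + 1, fun n hn => ?_⟩
  have hn1 : 1 ≤ n := by omega
  have hnC : n ≥ C := by omega
  have h := hC n hnC
  have hm := t7_pow_mono hr hn1 (show C ≤ 8 * C + 1 by omega)
  have h1R := t7_one_lt hr h1 (n ^ C)
  set R : ℝ := r (n ^ C) with hR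
  set R' : ℝ := r (n ^ (8 * C + 1)) with hR'
  set L : ℝ := ((Nat.log 2 (n + 1) : ℕ) : ℝ) with hL
  have hL0 : 0 ≤ L := Nat.cast_nonneg _
  set M : ℝ := ((max 8 ⌈R⌉₊ : ℕ) : ℝ) with hM
  have hMle : M ≤ 8 * R := by
    rw [hM]
    rcases le_total 8 ⌈R⌉₊ with h8 | h8
    · rw [max_eq_right h8]
      have := Nat.ceil_lt_add_one (show (0 : ℝ) ≤ R by linarith)
      linarith
    · rw [max_eq_left h8]
      push_cast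
      linarith
  have hC0 : (0 : ℝ) ≤ (C : ℝ) := Nat.cast_nonneg _
  have hstep : (C : ℝ) * (M + L) ≤ (C : ℝ) * (8 * R' + L) := by
    apply mul_le_mul_of_nonneg_left _ hC0
    linarith
  have hcast : ((8 * C + 1 : ℕ) : ℝ) = 8 * (C : ℝ) + 1 := by push_cast; ring
  rw [hcast]
  nlinarith [mul_nonneg hC0 hL0]

/-- PLAN. `n ≤ r (n ^ C)` gives `n ≤ max 8 ⌊r (n ^ C)⌋₊` as `n` is an integer. -/
theorem worst_floor {r : ℕ → ℝ} (hr : Monotone r) (h1 : 1 < r 0) :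
    (∃ C : ℕ, ∀ n ≥ C, (n : ℝ) ≤ r (n ^ C)) → ∃ C : ℕ, ∀ n ≥ C, n ≤ max 8 ⌊r (n ^ C)⌋₊ := by
  rintro ⟨C, hC⟩
  exact ⟨C, fun n hn => le_max_of_le_right (Nat.le_floor (hC n hn))⟩

/-- PLAN. For `n ≥ 9`, `n + 1 ≤ ⌈r ((n + 1) ^ C)⌉₊` gives `n < r ((n + 1) ^ C) ≤ r (n ^ (2 * C))`. -/
theorem worst_ceil {r : ℕ → ℝ} (hr : Monotone r) (h1 : 1 < r 0) :
    (∃ C : ℕ, ∀ n ≥ C, n ≤ max 8 ⌈r (n ^ C)⌉₊) → ∃ C : ℕ, ∀ n ≥ C, (n : ℝ) ≤ r (n ^ C) := by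
  rintro ⟨C, hC⟩
  refine ⟨2 * C + 9, fun n hn => ?_⟩
  have h := hC (n + 1) (by omega)
  have h' : n + 1 ≤ ⌈r ((n + 1) ^ C)⌉₊ := by
    rcases le_max_iff.1 h with h | h
    · omega
    · exact h
  have hlt : (n : ℝ) < r ((n + 1) ^ C) := Nat.lt_ceil.1 (by omega)
  have hsq : n + 1 ≤ n ^ 2 := by nlinarith
  have hp : (n + 1) ^ C ≤ n ^ (2 * C + 9) :=
    calc (n + 1) ^ C ≤ (n ^ 2) ^ C := Nat.pow_le_pow_left hsq C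
      _ = n ^ (2 * C) := by rw [pow_mul]
      _ ≤ n ^ (2 * C + 9) := Nat.pow_le_pow_right (by omega) (by omega)
  exact le_of_lt (lt_of_lt_of_le hlt (hr hp))

end Pool.Agent.LibHF75
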