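import Pool.Agent.LibHF75.T6
import Pool.Agent.LibHF75.T7
import Pool.Agent.LibAV75.Main2

/-!
Row T8: the theorems with real exponents.
-/

namespace Pool.Agent.LibHF75

open Filter Function Pool.Agent.LibNexp Pool.Agent.LibBHN Pool.Agent.LibAV75
open Pool.Agent.LibSpec30 (Enough)

theorem T8_floor_mono {r : ℕ → ℝ} (hr : Monotone r) : Monotone fun n => max 8 ⌊r n⌋₊ :=
  fun _ _ h => max_le_max le_rfl (Nat.floor_mono (hr h))

theorem T8_ceil_mono {r : ℕ → ℝ} (hr : Monotone r) : Monotone fun n => max 8 ⌈r n⌉₊ :=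
  fun _ _ h => max_le_max le_rfl (Nat.ceil_mono (hr h))

theorem T8_neg {r : ℕ → ℝ} {O : List Bool → Bool} {b : Prop} (h : Ap O b fun n => max 8 ⌈r n⌉₊) :
    ApR O b r := by
  refine apR_mono (apR_cast.2 h) (Eventually.of_forall fun n => ?_)
  have h1 : r n ≤ (⌈r n⌉₊ : ℝ) := Nat.le_ceil _
  refine h1.trans ?_
  exact_mod_cast le_max_right _ _

theorem T8_drop {r : ℕ → ℝ} {O : List Bool → Bool} (h : ApR O True r) : ApR O False r := by
  intro L hL
  obtain ⟨N, hN, -, h1⟩ := h L hL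
  exact ⟨N, hN, fun h => h.elim, h1⟩

/-- PLAN for the four theorems. Positive parts: `ap_of_apR` and the implications of `main1`, `main2`, `main3`,
`main5` (LibAV75) for `r₀ n = max 8 ⌊r n⌋₊` (monotone, at least 8), with `cond_floor`, `worst_floor`. Negative parts:
`Ap O b r₁ → ApR O b r` for `r₁ n = max 8 ⌈r n⌉₊` (`apR_cast`, `apR_mono`), so a hypothesis for `ApR O b r` gives
one for `Ap O b r₁`; then the implications for `r₁`, with `cond_ceil`, `worst_ceil`. `ApR ... s` is `Ap ... s` by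
`apR_cast`. The conditions must be cast from `ℕ` to `ℝ` (`exact_mod_cast`). -/
theorem main1R {r : ℕ → ℝ} {s : ℕ → ℕ} (hr : Monotone r) (h1 : 1 < r 0) : List.TFAE [
    ∀ O, ApR O False r → ApR O False (fun n => (s n : ℝ)),
    ∀ O, ApR O True r → ApR O True (fun n => (s n : ℝ)),
    ∀ O, ApR O True r → ApR O False (fun n => (s n : ℝ)),
    ∃ C : ℕ, ∀ n ≥ C, ((min (s n) (n + 1) : ℕ) : ℝ) ≤ C * (r (n ^ C) + Nat.log 2 (n + 1))] := by
  have key0 := main1 (s := s) (T8_floor_mono hr) (fun n => le_max_left 8 ⌊r n⌋₊)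
  have key1 := main1 (s := s) (T8_ceil_mono hr) (fun n => le_max_left 8 ⌈r n⌉₊)
  have hfl : (∃ C : ℕ, ∀ n ≥ C, ((min (s n) (n + 1) : ℕ) : ℝ) ≤ C * (r (n ^ C) + Nat.log 2 (n + 1))) →
      ∃ C : ℕ, ∀ n ≥ C, min (s n) (n + 1) ≤ C * (max 8 ⌊r (n ^ C)⌋₊ + Nat.log 2 (n + 1)) := by
    intro h
    obtain ⟨C, hC⟩ := cond_floor hr h1 _ h
    refine ⟨C, fun n hn => ?_⟩
    have := hC n hn
    exact_mod_cast this
  tfae_have 4 → 1 := by
    intro h O h2
    have h3 : ∀ O, H O (fun n => max 8 ⌊r n⌋₊) → H O s := (key0.out 0 3).2 (hfl h)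
    exact apR_cast.2 (h_iff.1 (h3 O (h_iff.2 (ap_of_apR hr h1 h2))))
  tfae_have 4 → 2 := by
    intro h O h2
    have h3 : ∀ O, Inner O (fun n => max 8 ⌊r n⌋₊) → Inner O s := (key0.out 1 3).2 (hfl h)
    exact apR_cast.2 (inner_iff.1 (h3 O (inner_iff.2 (ap_of_apR hr h1 h2))))
  tfae_have 1 → 3 := fun h O h2 => h O (T8_drop h2)
  tfae_have 2 → 3 := fun h O h2 => T8_drop (h O h2)
  tfae_have 3 → 4 := by
    intro h
    have h3 : ∀ O, Inner O (fun n => max 8 ⌈r n⌉₊) → H O s := fun O h4 =>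
      h_iff.2 (apR_cast.1 (h O (T8_neg (inner_iff.1 h4))))
    obtain ⟨C, hC⟩ := (key1.out 2 3).1 h3
    apply cond_ceil hr h1
    refine ⟨C, fun n hn => ?_⟩
    have := hC n hn
    exact_mod_cast this
  tfae_finish

theorem main2R {r : ℕ → ℝ} (hr : Monotone r) (h1 : 1 < r 0) : List.TFAE [
    ∀ O, ApR O False r → ∀ L ∈ NEXPLang O, Lᶜ ∈ NEXPLang O,
    ∀ O, ApR O True r → ∀ L ∈ NEXPLang O, Lᶜ ∈ NEXPLang O,
    ∃ C : ℕ, ∀ n ≥ C, (n : ℝ) ≤ r (n ^ C)] := by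
  have key0 := main2 (T8_floor_mono hr) (fun n => le_max_left 8 ⌊r n⌋₊)
  have key1 := main2 (T8_ceil_mono hr) (fun n => le_max_left 8 ⌈r n⌉₊)
  tfae_have 3 → 1 := by
    intro h O h2
    have h3 : ∀ O, H O (fun n => max 8 ⌊r n⌋₊) → ∀ L ∈ NEXPLang O, Lᶜ ∈ NEXPLang O :=
      (key0.out 0 2).2 (worst_floor hr h1 h)
    exact h3 O (h_iff.2 (ap_of_apR hr h1 h2))
  tfae_have 1 → 2 := fun h O h2 => h O (T8_drop h2)
  tfae_have 2 → 3 := by
    intro h
    have h3 : ∀ O, Inner O (fun n => max 8 ⌈r n⌉₊) → ∀ L ∈ NEXPLang O, Lᶜ ∈ NEXPLang O := fun O h4 =>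
      h O (T8_neg (inner_iff.1 h4))
    exact worst_ceil hr h1 ((key1.out 1 2).1 h3)
  tfae_finish

theorem main3R {r : ℕ → ℝ} {a : ℕ → ℕ} (hr : Monotone r) (h1 : 1 < r 0) : List.TFAE [
    ∀ O, ApR O False r → Enough O a,
    ∀ O, ApR O True r → Enough O a,
    ∃ C : ℕ, ∀ n ≥ C, (n : ℝ) ≤ a n + C * (r (n ^ C) + Nat.log 2 (n + 1))] := by
  have key0 := main3 (a := a) (T8_floor_mono hr) (fun n => le_max_left 8 ⌊r n⌋₊)
  have key1 := main3 (a := a) (T8_ceil_mono hr) (fun n => le_max_left 8 ⌈r n⌉₊)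
  tfae_have 3 → 1 := by
    rintro ⟨C, hC⟩ O h2
    have hx : ∃ C : ℕ, ∀ n ≥ C, (fun n : ℕ => (n : ℝ) - a n) n ≤ C * (r (n ^ C) + Nat.log 2 (n + 1)) :=
      ⟨C, fun n hn => by
        have := hC n hn
        show (n : ℝ) - a n ≤ _
        linarith⟩
    obtain ⟨D, hD⟩ := cond_floor hr h1 (fun n : ℕ => (n : ℝ) - a n) hx
    have hy : ∃ C : ℕ, ∀ n ≥ C, n ≤ a n + C * (max 8 ⌊r (n ^ C)⌋₊ + Nat.log 2 (n + 1)) := by
      refine ⟨D, fun n hn => ?_⟩
      have h4 := hD n hn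
      have h5 : (n : ℝ) ≤ a n + D * (((max 8 ⌊r (n ^ D)⌋₊ : ℕ) : ℝ) + Nat.log 2 (n + 1)) := by
        linarith
      exact_mod_cast h5
    have h3 : ∀ O, H O (fun n => max 8 ⌊r n⌋₊) → Enough O a := (key0.out 0 2).2 hy
    exact h3 O (h_iff.2 (ap_of_apR hr h1 h2))
  tfae_have 1 → 2 := fun h O h2 => h O (T8_drop h2)
  tfae_have 2 → 3 := by
    intro h
    have h3 : ∀ O, Inner O (fun n => max 8 ⌈r n⌉₊) → Enough O a := fun O h4 =>
      h O (T8_neg (inner_iff.1 h4))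
    obtain ⟨C, hC⟩ := (key1.out 1 2).1 h3
    have hx : ∃ C : ℕ, ∀ n ≥ C, (fun n : ℕ => (n : ℝ) - a n) n ≤
        C * (((max 8 ⌈r (n ^ C)⌉₊ : ℕ) : ℝ) + Nat.log 2 (n + 1)) :=
      ⟨C, fun n hn => by
        have h4 := hC n hn
        have h5 : (n : ℝ) ≤ a n + C * (((max 8 ⌈r (n ^ C)⌉₊ : ℕ) : ℝ) + Nat.log 2 (n + 1)) := by
          exact_mod_cast h4
        show (n : ℝ) - a n ≤ _
        linarith⟩
    obtain ⟨D, hD⟩ := cond_ceil hr h1 (fun n : ℕ => (n : ℝ) - a n) hx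
    exact ⟨D, fun n hn => by
      have := hD n hn
      linarith⟩
  tfae_finish

/-- PLAN. For the positive direction, `s n = 0` is treated separately: apply `cond_floor` to the function
`f n = if s n = 0 then 0 else n`. -/
theorem main5R {r : ℕ → ℝ} {s : ℕ → ℕ} (hr : Monotone r) (h1 : 1 < r 0) :
    (∀ O, ApR O False r → ApR O True (fun n => (s n : ℝ))) ↔
      ∃ C : ℕ, ∀ n ≥ C, s n = 0 ∨ (n : ℝ) ≤ C * (r (n ^ C) + Nat.log 2 (n + 1)) := by
  have key0 := main5 (s := s) (T8_floor_mono hr) (fun n => le_max_left 8 ⌊r n⌋₊)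
  have key1 := main5 (s := s) (T8_ceil_mono hr) (fun n => le_max_left 8 ⌈r n⌉₊)
  have hrn : ∀ n, 0 < r n := fun n => by
    have := hr (Nat.zero_le n)
    linarith
  constructor
  · intro h
    have h3 : ∀ O, H O (fun n => max 8 ⌈r n⌉₊) → Inner O s := fun O h4 =>
      inner_iff.2 (apR_cast.1 (h O (T8_neg (h_iff.1 h4))))
    obtain ⟨C, hC⟩ := key1.1 h3
    have hx : ∃ C : ℕ, ∀ n ≥ C, (fun n : ℕ => if s n = 0 then (0 : ℝ) else n) n ≤
        C * (((max 8 ⌈r (n ^ C)⌉₊ : ℕ) : ℝ) + Nat.log 2 (n + 1)) :=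
      ⟨C, fun n hn => by
        show (if s n = 0 then (0 : ℝ) else n) ≤ _
        split_ifs with h0
        · positivity
        · have h4 := (hC n hn).resolve_left h0
          exact_mod_cast h4⟩
    obtain ⟨D, hD⟩ := cond_ceil hr h1 (fun n : ℕ => if s n = 0 then (0 : ℝ) else n) hx
    refine ⟨D, fun n hn => ?_⟩
    by_cases h0 : s n = 0
    · exact Or.inl h0
    · have := hD n hn
      simp only [h0, if_false] at this
      exact Or.inr this
  · rintro ⟨C, hC⟩ O h2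
    have hx : ∃ C : ℕ, ∀ n ≥ C, (fun n : ℕ => if s n = 0 then (0 : ℝ) else n) n ≤
        C * (r (n ^ C) + Nat.log 2 (n + 1)) :=
      ⟨C, fun n hn => by
        show (if s n = 0 then (0 : ℝ) else n) ≤ _
        split_ifs with h0
        · have := hrn (n ^ C)
          positivity
        · exact (hC n hn).resolve_left h0⟩
    obtain ⟨D, hD⟩ := cond_floor hr h1 (fun n : ℕ => if s n = 0 then (0 : ℝ) else n) hx
    have h3 : ∀ O, H O (fun n => max 8 ⌊r n⌋₊) → Inner O s := by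
      refine key0.2 ⟨D, fun n hn => ?_⟩
      by_cases h0 : s n = 0
      · exact Or.inl h0
      · have := hD n hn
        simp only [h0, if_false] at this
        right
        exact_mod_cast this
    exact apR_cast.2 (inner_iff.1 (h3 O (h_iff.2 (ap_of_apR hr h1 h2))))

end Pool.Agent.LibHF75
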