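import Mathlib

/-!
Common definitions of the combinatorial part of the project HF75.
-/

namespace Pool.Agent.LibHF75

open Finset Function

/-- Some block of `z` consists of elements of `A`. -/
def Tribes {X : Type} {t w : ℕ} (A : X → Prop) (z : Fin t × Fin w → X) : Prop :=
  ∃ i, ∀ j, A (z (i, j))

/-- The probability that no block is full, if the bits are independent with probabilities `y`. -/
def Gam {t w : ℕ} (y : Fin t × Fin w → ℝ) : ℝ := ∏ i, (1 - ∏ j, y (i, j))

open Classical in
/-- The vote of the prediction `P` of the complement of `A` at `x`: `1` if it is right, otherwise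
`-1`. -/
noncomputable def vt {X : Type} (A P : X → Prop) (x : X) : ℝ := if (P x ↔ ¬ A x) then 1 else -1

open Classical in
/-- The probability of `true` if the bit `A x` is replaced by a random bit with probability
`μ x`. -/
noncomputable def pr {X : Type} (A : X → Prop) (μ : X → ℝ) (x : X) : ℝ :=
  if A x then 1 - μ x / 2 else μ x / 2

/-- The advantage of `M` with the variable at the position `c`. -/
noncomputable def adv {X : Type} [Fintype X] {t w : ℕ} (A : X → Prop) (μ : X → ℝ)
    (M : (Fin t × Fin w → X) → Prop) (c : Fin t × Fin w) (z : Fin t × Fin w → X) : ℝ :=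
  ∑ x, μ x * vt A (fun x => M (update z c x)) x

open Classical in
/-- The probabilities if the bits at the positions in `s` are noisy. -/
noncomputable def ys {X : Type} {t w : ℕ} (A : X → Prop) (μ : X → ℝ)
    (s : Finset (Fin t × Fin w)) (z : Fin t × Fin w → X) (c : Fin t × Fin w) : ℝ :=
  if c ∈ s then pr A μ (z c) else if A (z c) then 1 else 0

open Classical in
/-- The agreement of `M` with the complement of `Tribes`, if the bits at the positions in `s` are
noisy. -/
noncomputable def Ag {X : Type} [Fintype X] {t w : ℕ} (A : X → Prop) (μ : X → ℝ)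
    (M : (Fin t × Fin w → X) → Prop) (s : Finset (Fin t × Fin w)) : ℝ :=
  ∑ z, if M z then Gam (ys A μ s z) else 1 - Gam (ys A μ s z)

/-- The prediction given by a mode `md y` (a position, or `True`, or `False`) and by `z`. -/
def pv {X : Type} {t w : ℕ} (md : X → ℕ) (M : (Fin t × Fin w → X) → Prop) (y : X)
    (z : Fin t × Fin w → X) (x : X) : Prop :=
  (∃ c : Fin t × Fin w, md y = (finProdFinEquiv c : ℕ) ∧ M (update z c x)) ∨ md y = t * w

/-- The index type of the seeds. -/
abbrev Ix (t w τ : ℕ) : Type := Option (Fin τ × Option (Fin t × Fin w))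

open Classical in
/-- The prediction given by the strict majority of the first `md (Y none)` predictions. -/
def GG {X : Type} {t w τ : ℕ} (md : X → ℕ) (M : (Fin t × Fin w → X) → Prop) (Y : Ix t w τ → X)
    (x : X) : Prop :=
  md (Y none) < 2 * (univ.filter fun s : Fin τ => (s : ℕ) < md (Y none) ∧
    pv md M (Y (some (s, none))) (fun c => Y (some (s, some c))) x).card

end Pool.Agent.LibHF75
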