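import Mathlib

/-!
Row K3: the choice of the number and of the size of the blocks.
-/

namespace Pool.Agent.LibHF75

/-- The number of blocks. PLAN. `t := Nat.find` of `(1 - 2 ^ (-w)) ^ t ≤ 1 / 2`; `(1 - 2 ^ (-w)) ^
(2 ^ w) ≤ 1 / 2` as `(1 - 1 / N) ^ N * (1 + 1 / N) ^ N ≤ 1` and Bernoulli. The last two facts: `t` is least, so
`(1 - 2 ^ (-w)) ^ (t - 1) > 1 / 2`; and Bernoulli `1 - t * 2 ^ (-w) ≤ (1 - 2 ^ (-w)) ^ t ≤ 1 / 2`. -/
theorem exists_blocks (w : ℕ) (hw : 1 ≤ w) : ∃ t : ℕ, 1 ≤ t ∧ t ≤ 2 ^ w ∧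
    (1 - (1 / 2 : ℝ) ^ w) ^ t ≤ 1 / 2 ∧ 1 / 2 * (1 - (1 / 2 : ℝ) ^ w) ≤ (1 - (1 / 2 : ℝ) ^ w) ^ t ∧
    1 / 2 ≤ t * (1 / 2 : ℝ) ^ w := by
  classical
  set x : ℝ := (1 / 2 : ℝ) ^ w with hx
  have hx0 : 0 < x := by positivity
  have hx1 : x ≤ 1 / 2 := by
    calc x = (1 / 2 : ℝ) ^ w := rfl
      _ ≤ (1 / 2 : ℝ) ^ 1 := pow_le_pow_of_le_one (by norm_num) (by norm_num) hw
      _ = 1 / 2 := by norm_num
  have hN : ((2 ^ w : ℕ) : ℝ) * x = 1 := by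
    rw [hx]
    push_cast
    rw [← mul_pow]
    norm_num
  have hfind : (1 - x) ^ (2 ^ w) ≤ 1 / 2 := by
    have h1 : (1 - x) ^ (2 ^ w) * (1 + x) ^ (2 ^ w) ≤ 1 := by
      rw [← mul_pow]
      refine pow_le_one₀ ?_ ?_
      · nlinarith
      · nlinarith
    have h2 : 1 + ((2 ^ w : ℕ) : ℝ) * x ≤ (1 + x) ^ (2 ^ w) :=
      one_add_mul_le_pow (by linarith) _
    rw [hN] at h2
    have h3 : 0 ≤ (1 - x) ^ (2 ^ w) := pow_nonneg (by linarith) _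
    nlinarith
  have hex : ∃ t : ℕ, (1 - x) ^ t ≤ 1 / 2 := ⟨_, hfind⟩
  set t := Nat.find hex with ht
  have ht1 : (1 - x) ^ t ≤ 1 / 2 := Nat.find_spec hex
  have htN : t ≤ 2 ^ w := Nat.find_min' hex hfind
  have ht0 : 1 ≤ t := by
    by_contra hcon
    have h0 : t = 0 := by omega
    rw [h0, pow_zero] at ht1
    norm_num at ht1
  have htm : 1 / 2 < (1 - x) ^ (t - 1) := by
    have h1 : t - 1 < t := by omega
    have h2 := Nat.find_min hex h1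
    push Not at h2
    exact h2
  refine ⟨t, ht0, htN, ht1, ?_, ?_⟩
  · have h1 : (1 - x) ^ t = (1 - x) ^ (t - 1) * (1 - x) := by
      rw [← pow_succ]
      congr 1
      omega
    rw [h1]
    exact mul_le_mul_of_nonneg_right htm.le (by linarith)
  · have h1 : 1 + (t : ℝ) * (-x) ≤ (1 + (-x)) ^ t := one_add_mul_le_pow (by linarith) t
    have h2 : (1 + (-x)) ^ t = (1 - x) ^ t := by rw [← sub_eq_add_neg]
    rw [h2] at h1
    linarith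

/-- PLAN. Choose `w` with `(1 - δ / 4) ^ w ≤ ε ^ 2 / 2` and `(1 / 2) ^ w ≤ ε` (`exists_pow_lt_of_lt_one`
and a maximum), `t` from `exists_blocks`: `|(1 - (1/2) ^ w) ^ t - 1/2| ≤ ε / 2 * ...`, in fact
`≤ (1/2) ^ w / 2 ≤ ε / 4` if `(1/2) ^ w ≤ ε / 2`; continuity of `th ↦ (1 - th ^ w) ^ t` at `1/2` gives `κ ≤ δ / 8` with
`|(1 - th ^ w) ^ t - 1/2| ≤ ε / 2` for `|th - 1/2| ≤ κ`. Finally `2 * s2 ≤ 1 - δ / 4`, so `t * s2 ^ w ≤
2 ^ w * s2 ^ w ≤ (1 - δ / 4) ^ w ≤ ε ^ 2 / 2`. -/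
theorem choose_tw {δ ε : ℝ} (hδ : 0 < δ) (hδ1 : δ ≤ 1) (hε : 0 < ε) :
    ∃ t w : ℕ, 1 ≤ t ∧ 1 ≤ w ∧ ∃ κ : ℝ, 0 < κ ∧ κ ≤ δ / 8 ∧ ∀ th s2 : ℝ, |th - 1 / 2| ≤ κ →
      0 ≤ s2 → s2 ≤ th - δ / 4 → ((1 - th ^ w) ^ t - 1 / 2) ^ 2 + t * s2 ^ w ≤ ε ^ 2 := by
  obtain ⟨w1, hw1⟩ := exists_pow_lt_of_lt_one (show (0 : ℝ) < ε ^ 2 / 2 by positivity)
    (show 1 - δ / 4 < 1 by linarith)
  obtain ⟨w2, hw2⟩ := exists_pow_lt_of_lt_one (show (0 : ℝ) < ε / 2 by positivity)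
    (show (1 / 2 : ℝ) < 1 by norm_num)
  set w := max (max w1 w2) 1 with hw
  have hw0 : 1 ≤ w := le_max_right _ _
  have h1 : (1 - δ / 4) ^ w ≤ ε ^ 2 / 2 :=
    (pow_le_pow_of_le_one (by linarith) (by linarith)
      ((le_max_left _ _).trans (le_max_left _ _))).trans hw1.le
  have h2 : (1 / 2 : ℝ) ^ w ≤ ε / 2 :=
    (pow_le_pow_of_le_one (by norm_num) (by norm_num)
      ((le_max_right _ _).trans (le_max_left _ _))).trans hw2.le
  obtain ⟨t, ht0, htN, hta, htb, _⟩ := exists_blocks w hw0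
  have hx0 : (0 : ℝ) < (1 / 2 : ℝ) ^ w := by positivity
  have hc : ContinuousAt (fun th : ℝ => (1 - th ^ w) ^ t) (1 / 2) := by fun_prop
  rw [Metric.continuousAt_iff] at hc
  obtain ⟨κ0, hκ0, hκ⟩ := hc (ε / 4) (by positivity)
  refine ⟨t, w, ht0, hw0, min (κ0 / 2) (δ / 8), by positivity, min_le_right _ _, ?_⟩
  intro th s2 hth hs0 hs
  have hth1 : |th - 1 / 2| < κ0 := by
    have := min_le_left (κ0 / 2) (δ / 8)
    linarith
  have hth2 : |th - 1 / 2| ≤ δ / 8 := hth.trans (min_le_right _ _)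
  have h3 := hκ (x := th) (by rw [Real.dist_eq]; exact hth1)
  rw [Real.dist_eq] at h3
  have h4 : |(1 - th ^ w) ^ t - 1 / 2| ≤ ε / 2 := by
    rw [abs_lt] at h3
    rw [abs_le]
    constructor
    · linarith [h3.1]
    · linarith [h3.2]
  have h5 : ((1 - th ^ w) ^ t - 1 / 2) ^ 2 ≤ ε ^ 2 / 4 := by
    have h6 := pow_le_pow_left₀ (abs_nonneg _) h4 2
    rw [sq_abs] at h6
    linarith [h6]
  have h7 : s2 ≤ 1 / 2 - δ / 8 := by
    have := (abs_le.1 hth2).2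
    linarith
  have h8 : (t : ℝ) * s2 ^ w ≤ ε ^ 2 / 2 := by
    have ht' : (t : ℝ) ≤ 2 ^ w := by exact_mod_cast htN
    calc (t : ℝ) * s2 ^ w ≤ 2 ^ w * s2 ^ w := by gcongr
      _ = (2 * s2) ^ w := by rw [mul_pow]
      _ ≤ (1 - δ / 4) ^ w := by
        refine pow_le_pow_left₀ (by linarith) (by linarith) w
      _ ≤ ε ^ 2 / 2 := h1
  have h9 : 0 ≤ ε ^ 2 := by positivity
  linarith

/-- The choice for the one-sided version. PLAN. Choose `w` with `(1/2) ^ w ≤ ε / 2` and `2 / (ε * δ) < w`,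
`t` from `exists_blocks`, `κ` by continuity with `1/2 - ε / 2 ≤ (1 - th ^ w) ^ t`. With `a = th ^ w`,
`b = w * ν * th ^ (w - 1)`: `1 - a - b ≤ (1 - a) * (1 - b)` and (if `b ≤ 1`; otherwise the left side is
`≤ 0`, use `h0`) `(1 - b) ^ t ≤ 1 / (1 + t * b)` (as `(1 - b) ^ t * (1 + b) ^ t ≤ 1` and Bernoulli),
`t * b ≥ t * w * δ * (1/2) ^ (w - 1) ≥ w * δ`, so the left side is `≤ 1 / (1 + w * δ) < ε / 2`. -/
theorem choose_inner {δ ε : ℝ} (hδ : 0 < δ) (hε : 0 < ε) :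
    ∃ t w : ℕ, 1 ≤ t ∧ 1 ≤ w ∧ ∃ κ : ℝ, 0 < κ ∧ ∀ th ν : ℝ, 1 / 2 ≤ th → th ≤ 1 / 2 + κ →
      δ ≤ ν → 0 ≤ 1 - th ^ w - w * ν * th ^ (w - 1) →
      (1 - th ^ w - w * ν * th ^ (w - 1)) ^ t < (1 - th ^ w) ^ t - (1 / 2 - ε) := by
  obtain ⟨w1, hw1⟩ := exists_nat_gt (2 / (ε * δ))
  obtain ⟨w2, hw2⟩ := exists_pow_lt_of_lt_one (show (0 : ℝ) < ε / 2 by positivity)
    (show (1 / 2 : ℝ) < 1 by norm_num)
  set w := max (max w1 w2) 1 with hw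
  have hw0 : 1 ≤ w := le_max_right _ _
  have h1 : 2 / (ε * δ) < w := by
    refine hw1.trans_le ?_
    exact_mod_cast (le_max_left _ _).trans (le_max_left _ _)
  have h2 : (1 / 2 : ℝ) ^ w ≤ ε / 2 :=
    (pow_le_pow_of_le_one (by norm_num) (by norm_num)
      ((le_max_right _ _).trans (le_max_left _ _))).trans hw2.le
  obtain ⟨t, ht0, htN, hta, htb, htc⟩ := exists_blocks w hw0
  have hx0 : (0 : ℝ) < (1 / 2 : ℝ) ^ w := by positivity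
  have hc : ContinuousAt (fun th : ℝ => (1 - th ^ w) ^ t) (1 / 2) := by fun_prop
  rw [Metric.continuousAt_iff] at hc
  obtain ⟨κ0, hκ0, hκ⟩ := hc (ε / 4) (by positivity)
  refine ⟨t, w, ht0, hw0, κ0 / 2, by positivity, ?_⟩
  intro th ν hth0 hth1 hν hnn
  have h3 := hκ (x := th) (by
    rw [Real.dist_eq, abs_of_nonneg (by linarith)]
    linarith)
  rw [Real.dist_eq, abs_lt] at h3
  have h4 : 1 / 2 - ε / 2 ≤ (1 - th ^ w) ^ t := by linarith [h3.1]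
  set a := th ^ w with ha
  set b := w * ν * th ^ (w - 1) with hb
  have ha0 : 0 ≤ a := by
    have : 0 ≤ th := by linarith
    positivity
  have hwR : (1 : ℝ) ≤ w := by exact_mod_cast hw0
  have hb0 : 0 ≤ b := by
    have h5 : 0 ≤ th := by linarith
    have h6 : 0 ≤ ν := by linarith
    positivity
  have hb1 : b ≤ 1 := by linarith
  have h5 : (1 - a - b) ^ t ≤ (1 - b) ^ t := pow_le_pow_left₀ hnn (by linarith) t
  have h6 : (1 - b) ^ t * (1 + b) ^ t ≤ 1 := by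
    rw [← mul_pow]
    refine pow_le_one₀ ?_ ?_
    · nlinarith
    · nlinarith
  have h7 : 1 + (t : ℝ) * b ≤ (1 + b) ^ t := one_add_mul_le_pow (by linarith) t
  have h8 : (w : ℝ) * δ ≤ t * b := by
    have h9 : (1 / 2 : ℝ) ^ (w - 1) ≤ th ^ (w - 1) := pow_le_pow_left₀ (by norm_num) hth0 _
    have h10 : (1 / 2 : ℝ) ^ w * 2 = (1 / 2 : ℝ) ^ (w - 1) := by
      have : w = (w - 1) + 1 := by omega
      conv_lhs => rw [this, pow_succ]
      ring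
    have h11 : (1 : ℝ) ≤ t * (1 / 2 : ℝ) ^ (w - 1) := by
      rw [← h10]
      linarith
    have h12 : (0 : ℝ) ≤ t := by positivity
    have h13 : (0 : ℝ) ≤ ν := by linarith
    calc (w : ℝ) * δ = w * δ * 1 := by ring
      _ ≤ w * δ * (t * (1 / 2 : ℝ) ^ (w - 1)) := by gcongr
      _ ≤ w * ν * (t * th ^ (w - 1)) := by gcongr
      _ = t * b := by rw [hb]; ring
  have h9 : (1 - b) ^ t * (1 + w * δ) ≤ 1 := by
    have h10 : 0 ≤ (1 - b) ^ t := pow_nonneg (by linarith) t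
    calc (1 - b) ^ t * (1 + w * δ) ≤ (1 - b) ^ t * (1 + b) ^ t := by
          refine mul_le_mul_of_nonneg_left ?_ h10
          linarith
      _ ≤ 1 := h6
  have h10 : 2 / ε < w * δ := by
    rw [div_lt_iff₀ (by positivity)] at h1 ⊢
    linarith
  have h11 : (1 - b) ^ t < ε / 2 := by
    by_contra hcon
    push Not at hcon
    have h12 : ε / 2 * (1 + w * δ) ≤ 1 :=
      (mul_le_mul_of_nonneg_right hcon (by positivity)).trans h9
    rw [div_lt_iff₀ hε] at h10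
    nlinarith
  linarith

end Pool.Agent.LibHF75
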