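import Pool.Agent.LibHF75.K1
import Pool.Agent.LibHF75.K3

/-!
Row I1: the one-sided version.
-/

namespace Pool.Agent.LibHF75

open Finset Function

open Classical in
/-- The words with all letters in `A`. -/
theorem card_all {X : Type} [Fintype X] {w : ℕ} (A : X → Prop) :
    (univ.filter fun u : Fin w → X => ∀ j, A (u j)).card = (univ.filter fun x => A x).card ^ w := by
  have h : (univ.filter fun u : Fin w → X => ∀ j, A (u j)) =
      Fintype.piFinset fun _ : Fin w => univ.filter fun x => A x := by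
    ext u
    simp [Fintype.mem_piFinset]
  rw [h, Fintype.card_piFinset]
  simp

open Classical in
/-- The words with the letter at `j` in `U` and the others in `A`. -/
theorem card_one_at {X : Type} [Fintype X] {w : ℕ} (A U : X → Prop) (j : Fin w) :
    (univ.filter fun u : Fin w → X => U (u j) ∧ ∀ j', j' ≠ j → A (u j')).card =
      (univ.filter fun x => U x).card * (univ.filter fun x => A x).card ^ (w - 1) := by
  have h : (univ.filter fun u : Fin w → X => U (u j) ∧ ∀ j', j' ≠ j → A (u j')) =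
      Fintype.piFinset fun j' : Fin w => if j' = j then univ.filter fun x => U x
        else univ.filter fun x => A x := by
    ext u
    simp only [mem_filter, mem_univ, true_and, Fintype.mem_piFinset]
    constructor
    · rintro ⟨h1, h2⟩ j'
      by_cases hj : j' = j
      · subst hj
        simpa using h1
      · simpa [hj] using h2 j' hj
    · intro h
      refine ⟨by simpa using h j, fun j' hj => by simpa [hj] using h j'⟩
  rw [h, Fintype.card_piFinset, ← Finset.mul_prod_erase univ _ (mem_univ j)]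
  congr 1
  · simp
  · rw [Finset.prod_congr rfl (g := fun _ => (univ.filter fun x => A x).card)]
    · rw [Finset.prod_const, Finset.card_erase_of_mem (mem_univ j), Finset.card_univ,
        Fintype.card_fin]
    · intro j' hj'
      rw [if_neg (Finset.ne_of_mem_erase hj')]

open Classical in
/-- The words with exactly one letter in `U` and the others in `A`. -/
theorem card_one {X : Type} [Fintype X] {w : ℕ} (A U : X → Prop) (hAU : ∀ x, A x → ¬ U x) :
    (univ.filter fun u : Fin w → X => ∃ j, U (u j) ∧ ∀ j', j' ≠ j → A (u j')).card =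
      w * ((univ.filter fun x => U x).card * (univ.filter fun x => A x).card ^ (w - 1)) := by
  have h : (univ.filter fun u : Fin w → X => ∃ j, U (u j) ∧ ∀ j', j' ≠ j → A (u j')) =
      univ.biUnion fun j : Fin w =>
        univ.filter fun u : Fin w → X => U (u j) ∧ ∀ j', j' ≠ j → A (u j') := by
    ext u
    simp
  rw [h, Finset.card_biUnion]
  · rw [Finset.sum_congr rfl fun j _ => card_one_at A U j]
    simp
  · intro j _ k _ hjk
    change Disjoint _ _
    rw [Finset.disjoint_left]
    intro u hu hu'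
    simp only [mem_filter, mem_univ, true_and] at hu hu'
    exact hAU _ (hu'.2 j hjk) hu.1

open Classical in
/-- The number of the other words. -/
theorem sum_phi {X : Type} [Fintype X] {w : ℕ} (A U : X → Prop) (hAU : ∀ x, A x → ¬ U x) :
    ∑ u : Fin w → X, (if (¬ ∀ j, A (u j)) ∧ ¬ ∃ j, U (u j) ∧ ∀ j', j' ≠ j → A (u j')
        then (1 : ℝ) else 0) =
      (Fintype.card X : ℝ) ^ w - ((univ.filter fun x => A x).card : ℝ) ^ w -
        w * (univ.filter fun x => U x).card *
          ((univ.filter fun x => A x).card : ℝ) ^ (w - 1) := by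
  rcases Nat.eq_zero_or_pos w with hw | hw
  · subst hw
    simp
  have h1 := card_all (w := w) A
  have h2 := card_one (w := w) A U hAU
  have h3 : (Fintype.card X : ℝ) ^ w =
      ∑ u : Fin w → X, ((if ∀ j, A (u j) then (1 : ℝ) else 0) +
        (if ∃ j, U (u j) ∧ ∀ j', j' ≠ j → A (u j') then (1 : ℝ) else 0) +
        (if (¬ ∀ j, A (u j)) ∧ ¬ ∃ j, U (u j) ∧ ∀ j', j' ≠ j → A (u j')
          then (1 : ℝ) else 0)) := by
    have h4 : (Fintype.card X : ℝ) ^ w = ∑ u : Fin w → X, (1 : ℝ) := by
      simp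
    rw [h4]
    refine Finset.sum_congr rfl fun u _ => ?_
    by_cases ha : ∀ j, A (u j)
    · have hb : ¬ ∃ j, U (u j) ∧ ∀ j', j' ≠ j → A (u j') := by
        rintro ⟨j, hj, -⟩
        exact hAU _ (ha j) hj
      rw [if_pos ha, if_neg hb, if_neg (fun h => h.1 ha)]
      norm_num
    · by_cases hb : ∃ j, U (u j) ∧ ∀ j', j' ≠ j → A (u j')
      · rw [if_neg ha, if_pos hb, if_neg (fun h => h.2 hb)]
        norm_num
      · rw [if_neg ha, if_neg hb, if_pos ⟨ha, hb⟩]
        norm_num
  rw [Finset.sum_add_distrib, Finset.sum_add_distrib, Finset.sum_boole, Finset.sum_boole, h1, h2]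
    at h3
  push_cast at h3
  rw [h3]
  ring

open Classical in
/-- PLAN. `sum_blocks` with the indicator `φ` of the complement of (all in `A`, or exactly one in `U`
and the others in `A`); the number of `u : Fin w → X` of the second kind is `w * card U * card A ^ (w - 1)`
(disjoint union over the position `j`, `Fintype.card_piFinset`). -/
theorem count_sharp {X : Type} [Fintype X] {t w : ℕ} (A U : X → Prop) (hAU : ∀ x, A x → ¬ U x) :
    ((univ.filter fun z : Fin t × Fin w → X => ∀ i, (¬ ∀ j, A (z (i, j))) ∧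
      ¬ ∃ j, U (z (i, j)) ∧ ∀ j', j' ≠ j → A (z (i, j'))).card : ℝ) =
      ((Fintype.card X : ℝ) ^ w - ((univ.filter fun x => A x).card : ℝ) ^ w -
        w * (univ.filter fun x => U x).card *
          ((univ.filter fun x => A x).card : ℝ) ^ (w - 1)) ^ t := by
  rw [← sum_phi A U hAU, ← sum_blocks (t := t), ← Finset.sum_boole]
  refine Finset.sum_congr rfl fun z _ => ?_
  by_cases h : ∀ i, (¬ ∀ j, A (z (i, j))) ∧
      ¬ ∃ j, U (z (i, j)) ∧ ∀ j', j' ≠ j → A (z (i, j'))
  · rw [if_pos h]
    symm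
    exact Finset.prod_eq_one fun i _ => if_pos (h i)
  · rw [if_neg h]
    push Not at h
    symm
    obtain ⟨i, hi⟩ := h
    refine Finset.prod_eq_zero (mem_univ i) (if_neg ?_)
    rintro ⟨h1, h2⟩
    obtain ⟨j, hj⟩ := hi (by push Not at h1; exact h1)
    exact h2 ⟨j, hj⟩

open Classical in
theorem count_tribes {X : Type} [Fintype X] {t w : ℕ} (A : X → Prop) :
    ((univ.filter fun z : Fin t × Fin w → X => ¬ Tribes A z).card : ℝ) =
      ((Fintype.card X : ℝ) ^ w - ((univ.filter fun x => A x).card : ℝ) ^ w) ^ t := by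
  obtain ⟨U, hU⟩ : ∃ U : X → Prop, ∀ x, ¬ U x := ⟨fun _ => False, fun _ => not_false⟩
  have h := count_sharp (t := t) (w := w) A U (fun x _ => hU x)
  have h2 : (univ.filter fun z : Fin t × Fin w → X => ¬ Tribes A z) =
      (univ.filter fun z : Fin t × Fin w → X => ∀ i, (¬ ∀ j, A (z (i, j))) ∧
      ¬ ∃ j, U (z (i, j)) ∧ ∀ j', j' ≠ j → A (z (i, j'))) := by
    ext z
    simp [Tribes, hU]
  have h3 : (univ.filter fun x => U x).card = 0 := by
    rw [Finset.card_eq_zero, Finset.filter_eq_empty_iff]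
    intro x _
    exact hU x
  rw [h2, h, h3]
  simp

open Classical in
/-- PLAN. `t w κ` from `choose_inner`. If `δ * N < card U`, then with `th = card A / N`,
`ν = card U / N`: `M` is contained in the set of `count_sharp`, and `card M ≥ card (¬ Tribes) -
(1 / 2 - ε) * N ^ (t * w)` with `card (¬ Tribes) = (N ^ w - card A ^ w) ^ t` (`sum_blocks`, or `count_sharp` with `U = ∅`).
Contradiction with `choose_inner` after division by `N ^ (t * w)`. -/
theorem inner_core {ε δ : ℝ} (hε : 0 < ε) (hδ : 0 < δ) :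
    ∃ t w : ℕ, 1 ≤ t ∧ 1 ≤ w ∧ ∃ κ : ℝ, 0 < κ ∧
      ∀ (X : Type) [Fintype X] [Nonempty X] (A : X → Prop) (M : (Fin t × Fin w → X) → Prop),
        (Fintype.card X : ℝ) / 2 ≤ (univ.filter fun x => A x).card →
        ((univ.filter fun x => A x).card : ℝ) ≤ (1 / 2 + κ) * Fintype.card X →
        (∀ z, M z → ¬ Tribes A z) →
        ((univ.filter fun z : Fin t × Fin w → X => (M z ↔ Tribes A z)).card : ℝ) ≤
          (1 / 2 - ε) * (Fintype.card X : ℝ) ^ (t * w) →
        ((univ.filter fun x : X => ¬ A x ∧ ¬ ∃ (z : Fin t × Fin w → X) (c : Fin t × Fin w),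
          M (update z c x) ∧ ∀ j, j ≠ c.2 → A (z (c.1, j))).card : ℝ) ≤ δ * Fintype.card X := by
  obtain ⟨t, w, ht, hw, κ, hκ, hch⟩ := choose_inner hδ hε
  refine ⟨t, w, ht, hw, κ, hκ, ?_⟩
  intro X _ _ A M hA1 hA2 hM hag
  by_contra hcon
  rw [not_le] at hcon
  set N : ℝ := (Fintype.card X : ℝ) with hN
  have hN0 : 0 < N := by
    rw [hN]
    exact_mod_cast Fintype.card_pos
  obtain ⟨U, hU⟩ : ∃ U : X → Prop, ∀ x, U x ↔ ¬ A x ∧ ¬ ∃ (z : Fin t × Fin w → X)
      (c : Fin t × Fin w), M (update z c x) ∧ ∀ j, j ≠ c.2 → A (z (c.1, j)) :=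
    ⟨_, fun _ => Iff.rfl⟩
  set a : ℝ := ((univ.filter fun x => A x).card : ℝ) with ha
  set b : ℝ := ((univ.filter fun x => U x).card : ℝ) with hb
  have hAU : ∀ x, A x → ¬ U x := fun x hx hx' => ((hU x).1 hx').1 hx
  have hcon' : δ * N < b := by
    rw [hb]
    rw [Finset.filter_congr fun x _ => hU x]
    exact hcon
  have hcount := count_sharp (t := t) (w := w) A U hAU
  have htr := count_tribes (t := t) (w := w) A
  rw [← hN, ← ha, ← hb] at hcount
  rw [← hN, ← ha] at htr
  have hphi := sum_phi (w := w) A U hAU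
  rw [← hN, ← ha, ← hb] at hphi
  have hphi0 : 0 ≤ N ^ w - a ^ w - w * b * a ^ (w - 1) := by
    rw [← hphi]
    refine Finset.sum_nonneg fun u _ => ?_
    split_ifs <;> norm_num
  -- the counting
  have hsub : (univ.filter fun z : Fin t × Fin w → X => M z) ⊆
      (univ.filter fun z : Fin t × Fin w → X => ∀ i, (¬ ∀ j, A (z (i, j))) ∧
      ¬ ∃ j, U (z (i, j)) ∧ ∀ j', j' ≠ j → A (z (i, j'))) := by
    intro z hz
    simp only [mem_filter, mem_univ, true_and] at hz ⊢
    intro i
    refine ⟨fun h => hM z hz ⟨i, h⟩, ?_⟩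
    rintro ⟨j, hj, hj'⟩
    refine ((hU _).1 hj).2 ⟨z, (i, j), ?_, hj'⟩
    rw [Function.update_eq_self]
    exact hz
  have hcard1 := Finset.card_le_card hsub
  have hcard1' : ((univ.filter fun z : Fin t × Fin w → X => M z).card : ℝ) ≤
      (N ^ w - a ^ w - w * b * a ^ (w - 1)) ^ t := by
    rw [← hcount]
    exact_mod_cast hcard1
  have hsplit : (univ.filter fun z : Fin t × Fin w → X => ¬ Tribes A z) ⊆
      (univ.filter fun z : Fin t × Fin w → X => M z) ∪
      (univ.filter fun z : Fin t × Fin w → X => (M z ↔ Tribes A z)) := by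
    intro z hz
    simp only [mem_filter, mem_univ, true_and, mem_union] at hz ⊢
    tauto
  have hcard2 := (Finset.card_le_card hsplit).trans (Finset.card_union_le _ _)
  have hcard2' : (N ^ w - a ^ w) ^ t ≤
      ((univ.filter fun z : Fin t × Fin w → X => M z).card : ℝ) +
      ((univ.filter fun z : Fin t × Fin w → X => (M z ↔ Tribes A z)).card : ℝ) := by
    rw [← htr]
    exact_mod_cast hcard2
  have hmain : (N ^ w - a ^ w) ^ t - (1 / 2 - ε) * N ^ (t * w) ≤
      (N ^ w - a ^ w - w * b * a ^ (w - 1)) ^ t := by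
    linarith
  -- division
  have e1 : N ^ w - a ^ w = N ^ w * (1 - (a / N) ^ w) := by
    rw [div_pow]
    field_simp
  have e2 : N ^ w - a ^ w - w * b * a ^ (w - 1) =
      N ^ w * (1 - (a / N) ^ w - w * (b / N) * (a / N) ^ (w - 1)) := by
    obtain ⟨v, rfl⟩ : ∃ v, w = v + 1 := ⟨w - 1, by omega⟩
    rw [div_pow, div_pow, Nat.add_sub_cancel]
    field_simp
    ring
  have hNw : 0 < N ^ w := pow_pos hN0 w
  have hq0 : 0 ≤ 1 - (a / N) ^ w - w * (b / N) * (a / N) ^ (w - 1) := by
    rw [e2] at hphi0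
    exact nonneg_of_mul_nonneg_right hphi0 hNw
  have hfin := hch (a / N) (b / N) (by rw [div_le_div_iff₀ (by norm_num) hN0]; linarith)
    (by rw [div_le_iff₀ hN0]; exact hA2) (by rw [le_div_iff₀ hN0]; exact hcon'.le) hq0
  rw [e2, e1, mul_pow, mul_pow, ← pow_mul, mul_comm w t] at hmain
  have hNtw : 0 < N ^ (t * w) := pow_pos hN0 _
  have := mul_lt_mul_of_pos_left hfin hNtw
  nlinarith [this, hmain]

end Pool.Agent.LibHF75
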