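import Pool.Agent.LibHF75.HDefs

/-!
Row K1: moments of `Gam`.
-/

namespace Pool.Agent.LibHF75

open Finset Function

/-- PLAN. `Equiv.curry`, `Finset.prod_univ_sum` and `Fintype.piFinset_univ` (or `Fintype.sum_pow`
for the constant family `φ`). -/
theorem sum_blocks {X : Type} [Fintype X] {t w : ℕ} (φ : (Fin w → X) → ℝ) :
    ∑ z : Fin t × Fin w → X, ∏ i, φ (fun j => z (i, j)) = (∑ u, φ u) ^ t := by
  classical
  have h1 : ∑ z : Fin t × Fin w → X, ∏ i, φ (fun j => z (i, j)) =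
      ∑ z : Fin t → Fin w → X, ∏ i, φ (z i) := by
    refine Fintype.sum_equiv (Equiv.curry (Fin t) (Fin w) X) _ _ ?_
    intro z
    rfl
  rw [h1]
  have h2 := Finset.prod_univ_sum (fun _ : Fin t => (univ : Finset (Fin w → X)))
    (fun _ u => φ u)
  rw [Fintype.piFinset_univ] at h2
  rw [← h2]
  simp

/-- PLAN. `sum_blocks` with `φ u = 1 - ∏ j, p (u j)`, `Fintype.sum_pow`. -/
theorem gam_sum {X : Type} [Fintype X] {t w : ℕ} (p : X → ℝ) :
    ∑ z : Fin t × Fin w → X, Gam (fun c => p (z c)) =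
      ((Fintype.card X : ℝ) ^ w - (∑ x, p x) ^ w) ^ t := by
  classical
  have h := sum_blocks (X := X) (t := t) (w := w) (fun u => 1 - ∏ j, p (u j))
  have h2 : ∑ z : Fin t × Fin w → X, Gam (fun c => p (z c)) =
      ∑ z : Fin t × Fin w → X, ∏ i, (1 - ∏ j, p (z (i, j))) := by
    rfl
  rw [h2, h]
  congr 1
  rw [Finset.sum_sub_distrib, Fintype.sum_pow]
  simp

/-- PLAN. `Gam ^ 2` is the product of `1 - 2 * ∏ p + ∏ p ^ 2` (`Finset.prod_pow`). -/
theorem gam_sq_sum {X : Type} [Fintype X] {t w : ℕ} (p : X → ℝ) :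
    ∑ z : Fin t × Fin w → X, Gam (fun c => p (z c)) ^ 2 =
      ((Fintype.card X : ℝ) ^ w - 2 * (∑ x, p x) ^ w + (∑ x, p x ^ 2) ^ w) ^ t := by
  classical
  have h := sum_blocks (X := X) (t := t) (w := w) (fun u => (1 - ∏ j, p (u j)) ^ 2)
  have h2 : ∑ z : Fin t × Fin w → X, Gam (fun c => p (z c)) ^ 2 =
      ∑ z : Fin t × Fin w → X, ∏ i, (1 - ∏ j, p (z (i, j))) ^ 2 := by
    refine Finset.sum_congr rfl (fun z _ => ?_)
    rw [Finset.prod_pow]
    rfl
  rw [h2, h]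
  congr 1
  have h3 : ∀ u : Fin w → X, (1 - ∏ j, p (u j)) ^ 2 =
      1 - 2 * ∏ j, p (u j) + ∏ j, p (u j) ^ 2 := by
    intro u
    rw [Finset.prod_pow]
    ring
  simp_rw [h3]
  rw [Finset.sum_add_distrib, Finset.sum_sub_distrib, ← Finset.mul_sum, Fintype.sum_pow,
    Fintype.sum_pow]
  simp

end Pool.Agent.LibHF75
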