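import Pool.Agent.LibHF75.K9

/-!
Row K10: many sequences of predictions have a good majority.
-/

namespace Pool.Agent.LibHF75

open Finset Function

open Classical in
/-- Many sequences. PLAN. Induction on `τ` (`Fin.snocEquiv` or `Fin.consEquiv`): the number of `p : Fin (τ + 1) → Sd`
is the sum over `q : Fin τ → Sd` of the number of continuations. `Ok q p` depends on the sequence so far,
given as a function on `ℕ` with junk values (`ext q s = q s` if `s < τ`). -/
theorem many_seq {Sd : Type} [Fintype Sd] {a : ℝ} (ha : 0 ≤ a)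
    (Ok : (l : ℕ) → (Fin l → Sd) → Sd → Prop)
    (h : ∀ l (q : Fin l → Sd), a * Fintype.card Sd ≤ (univ.filter fun p => Ok l q p).card) (τ : ℕ) :
    (a * Fintype.card Sd) ^ τ ≤ (univ.filter fun p : Fin τ → Sd =>
      ∀ l : Fin τ, Ok l (fun s : Fin l => p (Fin.castLE l.2.le s)) (p l)).card := by
  induction τ with
  | zero =>
    simp
  | succ τ ih =>
    have key : (univ.filter fun p : Fin (τ + 1) → Sd =>
        ∀ l : Fin (τ + 1), Ok l (fun s : Fin l => p (Fin.castLE l.2.le s)) (p l)).card =
        ∑ q ∈ (univ.filter fun p : Fin τ → Sd =>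
          ∀ l : Fin τ, Ok l (fun s : Fin l => p (Fin.castLE l.2.le s)) (p l)),
          (univ.filter fun p => Ok τ q p).card := by
      rw [Finset.card_filter, ← Equiv.sum_comp (Fin.snocEquiv (fun _ => Sd)),
        Fintype.sum_prod_type_right, Finset.sum_filter]
      apply Finset.sum_congr rfl
      intro q _
      have hsplit : ∀ x : Sd, (∀ l : Fin (τ + 1), Ok l
          (fun s : Fin l => (Fin.snocEquiv (fun _ => Sd)) (x, q) (Fin.castLE l.2.le s))
          ((Fin.snocEquiv (fun _ => Sd)) (x, q) l)) ↔
          ((∀ l : Fin τ, Ok l (fun s : Fin l => q (Fin.castLE l.2.le s)) (q l)) ∧ Ok τ q x) := by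
        intro x
        rw [Fin.forall_fin_succ']
        have h1 : ∀ l : Fin τ, (Fin.snocEquiv (fun _ => Sd)) (x, q) (Fin.castSucc l) = q l := by
          intro l
          simp [Fin.snocEquiv]
        have h2 : (Fin.snocEquiv (fun _ => Sd)) (x, q) (Fin.last τ) = x := by
          simp [Fin.snocEquiv]
        rw [h2]
        constructor
        · rintro ⟨ha, hb⟩
          refine ⟨fun l => ?_, ?_⟩
          · have := ha l
            rw [h1 l] at this
            have h3 : (fun s : Fin ((Fin.castSucc l : Fin (τ + 1)) : ℕ) =>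
                (Fin.snocEquiv (fun _ => Sd)) (x, q) (Fin.castLE (Fin.castSucc l).2.le s)) =
                (fun s : Fin (l : ℕ) => q (Fin.castLE l.2.le s)) := by
              funext s
              exact h1 (Fin.castLE l.2.le s)
            rw [h3] at this
            exact this
          · have h3 : (fun s : Fin ((Fin.last τ : Fin (τ + 1)) : ℕ) =>
                (Fin.snocEquiv (fun _ => Sd)) (x, q) (Fin.castLE (Fin.last τ).2.le s)) = q := by
              funext s
              exact h1 s
            rw [h3] at hb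
            exact hb
        · rintro ⟨ha, hb⟩
          refine ⟨fun l => ?_, ?_⟩
          · have := ha l
            rw [h1 l]
            have h3 : (fun s : Fin ((Fin.castSucc l : Fin (τ + 1)) : ℕ) =>
                (Fin.snocEquiv (fun _ => Sd)) (x, q) (Fin.castLE (Fin.castSucc l).2.le s)) =
                (fun s : Fin (l : ℕ) => q (Fin.castLE l.2.le s)) := by
              funext s
              exact h1 (Fin.castLE l.2.le s)
            rw [h3]
            exact this
          · have h3 : (fun s : Fin ((Fin.last τ : Fin (τ + 1)) : ℕ) =>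
                (Fin.snocEquiv (fun _ => Sd)) (x, q) (Fin.castLE (Fin.last τ).2.le s)) = q := by
              funext s
              exact h1 s
            rw [h3]
            exact hb
      by_cases hq : ∀ l : Fin τ, Ok l (fun s : Fin l => q (Fin.castLE l.2.le s)) (q l)
      · rw [if_pos hq, Finset.card_filter]
        apply Finset.sum_congr rfl
        intro x _
        by_cases hx : Ok τ q x
        · rw [if_pos hx, if_pos ((hsplit x).2 ⟨hq, hx⟩)]
        · rw [if_neg hx, if_neg fun hh => hx ((hsplit x).1 hh).2]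
      · rw [if_neg hq]
        apply Finset.sum_eq_zero
        intro x _
        rw [if_neg fun hh => hq ((hsplit x).1 hh).1]
    rw [key]
    push_cast
    have h0 : 0 ≤ a * (Fintype.card Sd : ℝ) := by positivity
    calc (a * (Fintype.card Sd : ℝ)) ^ (τ + 1)
        = (a * Fintype.card Sd) ^ τ * (a * Fintype.card Sd) := pow_succ _ _
      _ ≤ ((univ.filter fun p : Fin τ → Sd =>
          ∀ l : Fin τ, Ok l (fun s : Fin l => p (Fin.castLE l.2.le s)) (p l)).card : ℝ) *
          (a * Fintype.card Sd) := mul_le_mul_of_nonneg_right ih h0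
      _ = ∑ q ∈ (univ.filter fun p : Fin τ → Sd =>
          ∀ l : Fin τ, Ok l (fun s : Fin l => p (Fin.castLE l.2.le s)) (p l)),
          (a * Fintype.card Sd) := by rw [Finset.sum_const, nsmul_eq_mul]
      _ ≤ _ := Finset.sum_le_sum fun q _ => h τ q

open Classical in
/-- PLAN. `R := 2 / γ`. `Ok l q p := δ * N ≤ ∑ x, phi R (∑ s, V (q s) x) → γ * N ≤ ∑ x, phi R (∑ s, V (q s) x) * V p x`
(`many_seq`, `h`, and all `p` if the hypothesis fails: `a ≤ 1`). For a sequence with all `Ok`: if all
the sums of weights were `≥ δ * N`, `potential` would give `τ * (γ - γ / 4) ≤ 1 / γ`. So some `l < τ` has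
sum `< δ * N`, and `phi = 1` where the sum of the votes is `≤ 0`. -/
theorem seq_count {Sd X : Type} [Fintype Sd] [Fintype X] [Nonempty X] (V : Sd → X → ℝ)
    (hV : ∀ p x, V p x = 1 ∨ V p x = -1) {δ γ a : ℝ} (hγ : 0 < γ) (hγ1 : γ ≤ 1) (ha : 0 ≤ a)
    (ha1 : a ≤ 1)
    (h : ∀ μ : X → ℝ, (∀ x, 0 ≤ μ x) → (∀ x, μ x ≤ 1) → δ * Fintype.card X ≤ ∑ x, μ x →
      a * Fintype.card Sd ≤ (univ.filter fun p => γ * Fintype.card X ≤ ∑ x, μ x * V p x).card)
    (τ : ℕ) (hτ : 2 / γ ^ 2 < τ) :
    (a * Fintype.card Sd) ^ τ ≤ (univ.filter fun p : Fin τ → Sd => ∃ l : Fin τ,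
      ((univ.filter fun x : X => ∑ s : Fin l, V (p (Fin.castLE l.2.le s)) x ≤ 0).card : ℝ) ≤
        δ * Fintype.card X).card := by
  have hR1 : 1 ≤ 2 / γ := by
    rw [le_div_iff₀ hγ]
    linarith
  have hR0 : 0 < 2 / γ := by positivity
  refine (many_seq ha (fun l q p => δ * Fintype.card X ≤ ∑ x, phi (2 / γ) (∑ s, V (q s) x) →
    γ * Fintype.card X ≤ ∑ x, phi (2 / γ) (∑ s, V (q s) x) * V p x) ?_ τ).trans ?_
  · intro l q
    by_cases hc : δ * Fintype.card X ≤ ∑ x, phi (2 / γ) (∑ s, V (q s) x)
    · refine (h _ (fun x => phi_nonneg _ _) (fun x => phi_le_one _ _) hc).trans ?_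
      have hsub : (univ.filter fun p => γ * Fintype.card X ≤
          ∑ x, phi (2 / γ) (∑ s, V (q s) x) * V p x) ⊆ (univ.filter fun p =>
          δ * Fintype.card X ≤ ∑ x, phi (2 / γ) (∑ s, V (q s) x) →
          γ * Fintype.card X ≤ ∑ x, phi (2 / γ) (∑ s, V (q s) x) * V p x) := by
        intro p hp
        rw [mem_filter] at hp ⊢
        exact ⟨hp.1, fun _ => hp.2⟩
      exact_mod_cast card_le_card hsub
    · have hsub : (univ : Finset Sd) ⊆ (univ.filter fun p =>
          δ * Fintype.card X ≤ ∑ x, phi (2 / γ) (∑ s, V (q s) x) →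
          γ * Fintype.card X ≤ ∑ x, phi (2 / γ) (∑ s, V (q s) x) * V p x) := by
        intro p _
        rw [mem_filter]
        exact ⟨mem_univ _, fun hh => absurd hh hc⟩
      have h1 := card_le_card hsub
      rw [Finset.card_univ] at h1
      have h2 : (0 : ℝ) ≤ Fintype.card Sd := by positivity
      have h3 : a * (Fintype.card Sd : ℝ) ≤ Fintype.card Sd := by nlinarith
      refine h3.trans ?_
      exact_mod_cast h1
  · have hsub : (univ.filter fun p : Fin τ → Sd => ∀ l : Fin τ,
        (δ * Fintype.card X ≤ ∑ x, phi (2 / γ) (∑ s : Fin l, V (p (Fin.castLE l.2.le s)) x) →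
          γ * Fintype.card X ≤ ∑ x, phi (2 / γ) (∑ s : Fin l, V (p (Fin.castLE l.2.le s)) x) *
            V (p l) x)) ⊆
        (univ.filter fun p : Fin τ → Sd => ∃ l : Fin τ,
          ((univ.filter fun x : X => ∑ s : Fin l, V (p (Fin.castLE l.2.le s)) x ≤ 0).card : ℝ) ≤
          δ * Fintype.card X) := by
      intro p hp
      rw [mem_filter] at hp ⊢
      refine ⟨mem_univ _, ?_⟩
      by_contra hcon
      push Not at hcon
      have hp2 := hp.2
      -- the sums of weights are large
      have hbig : ∀ l : Fin τ, δ * Fintype.card X ≤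
          ∑ x, phi (2 / γ) (∑ s : Fin l, V (p (Fin.castLE l.2.le s)) x) := by
        intro l
        refine (hcon l).le.trans ?_
        rw [Finset.card_filter]
        push_cast
        apply Finset.sum_le_sum
        intro x _
        split_ifs with hx
        · rw [phi_of_nonpos hR0 hx]
        · exact phi_nonneg _ _
      have hv' : ∀ l : Fin τ, ∀ x, ∑ s : Fin l, V (p (Fin.castLE l.2.le s)) x =
          ∑ s ∈ range (l : ℕ), (if hs : s < τ then V (p ⟨s, hs⟩) x else 1) := by
        intro l x
        rw [Finset.sum_range]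
        apply Finset.sum_congr rfl
        intro s _
        rw [dif_pos (s.2.trans l.2)]
        rfl
      have hpot := potential (X := X) (R := 2 / γ) (γ := γ) hR1
        (fun s x => if hs : s < τ then V (p ⟨s, hs⟩) x else 1) (by
          intro s x
          by_cases hs : s < τ
          · simp only [dif_pos hs]
            exact hV _ _
          · simp only [dif_neg hs]
            exact Or.inl trivial) τ (by
          intro l hl
          have h1 := hp2 ⟨l, hl⟩ (hbig ⟨l, hl⟩)
          refine h1.trans (le_of_eq ?_)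
          apply Finset.sum_congr rfl
          intro x _
          rw [hv' ⟨l, hl⟩ x, dif_pos hl])
      have e1 : 1 / (2 * (2 / γ)) = γ / 4 := by
        field_simp
        norm_num
      have e2 : 2 / γ / 2 = 1 / γ := by
        field_simp
      rw [e1, e2] at hpot
      rw [div_lt_iff₀ (by positivity)] at hτ
      have e3 : (τ : ℝ) * (γ - γ / 4) * γ ≤ 1 := by
        have := mul_le_mul_of_nonneg_right hpot hγ.le
        rwa [one_div, inv_mul_cancel₀ hγ.ne'] at this
      nlinarith
    exact_mod_cast card_le_card hsub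

end Pool.Agent.LibHF75
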