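import Pool.Agent.LibHF75.K7

/-!
Row K8: many predictions have an advantage.
-/

namespace Pool.Agent.LibHF75

open Finset Function

theorem vt_le_one {X : Type} (A P : X → Prop) (x : X) : vt A P x ≤ 1 := by
  unfold vt
  split_ifs <;> norm_num

theorem adv_le {X : Type} [Fintype X] {t w : ℕ} (A : X → Prop) (μ : X → ℝ)
    (h0 : ∀ x, 0 ≤ μ x) (h1 : ∀ x, μ x ≤ 1) (M : (Fin t × Fin w → X) → Prop)
    (c : Fin t × Fin w) (z : Fin t × Fin w → X) : adv A μ M c z ≤ Fintype.card X := by
  unfold adv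
  have h2 : ∑ x, μ x * vt A (fun x => M (update z c x)) x ≤ ∑ _x : X, (1 : ℝ) := by
    refine Finset.sum_le_sum fun x _ => ?_
    have h3 := vt_le_one A (fun x => M (update z c x)) x
    have h4 := mul_le_mul_of_nonneg_left h3 (h0 x)
    have h5 := h1 x
    linarith
  simpa using h2

theorem pv_pos {X : Type} {t w : ℕ} (md : X → ℕ) (M : (Fin t × Fin w → X) → Prop) (y : X)
    (z : Fin t × Fin w → X) (c : Fin t × Fin w) (hy : md y = (finProdFinEquiv c : ℕ)) :
    pv md M y z = fun x => M (update z c x) := by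
  funext x
  apply propext
  unfold pv
  constructor
  · rintro (⟨c', hc', h⟩ | h)
    · have h1 : (finProdFinEquiv c : ℕ) = (finProdFinEquiv c' : ℕ) := hy.symm.trans hc'
      have h2 : c = c' := finProdFinEquiv.injective (Fin.ext h1)
      rw [h2]
      exact h
    · have h1 := (finProdFinEquiv c).isLt
      omega
  · intro h
    exact Or.inl ⟨c, hy, h⟩

theorem pv_true {X : Type} {t w : ℕ} (md : X → ℕ) (M : (Fin t × Fin w → X) → Prop) (y : X)
    (z : Fin t × Fin w → X) (hy : md y = t * w) : pv md M y z = fun _ => True := by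
  funext x
  apply propext
  exact ⟨fun _ => trivial, fun _ => Or.inr hy⟩

theorem pv_false {X : Type} {t w : ℕ} (md : X → ℕ) (M : (Fin t × Fin w → X) → Prop) (y : X)
    (z : Fin t × Fin w → X) (hy : md y = t * w + 1) : pv md M y z = fun _ => False := by
  funext x
  apply propext
  refine ⟨?_, fun h => h.elim⟩
  rintro (⟨c', hc', -⟩ | h)
  · have h1 := (finProdFinEquiv c').isLt
    omega
  · omega

open Classical in
/-- The count in the biased case. -/
theorem count_md {X : Type} [Fintype X] [Nonempty X] {t w : ℕ} {lam γ : ℝ} (hlam : 0 ≤ lam)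
    (hγ1 : γ ≤ 1) (md : X → ℕ) {m : ℕ}
    (hmd : lam * Fintype.card X ≤ (univ.filter fun x => md x = m).card)
    (Q : X × (Fin t × Fin w → X) → Prop) (hQ : ∀ y z, md y = m → Q (y, z)) :
    lam * γ * Fintype.card (X × (Fin t × Fin w → X)) ≤ (univ.filter fun p => Q p).card := by
  have h1 : ((univ.filter fun x => md x = m) ×ˢ (univ : Finset (Fin t × Fin w → X))) ⊆
      univ.filter fun p => Q p := by
    rintro ⟨y, z⟩ h
    rw [Finset.mem_product, Finset.mem_filter] at h
    rw [Finset.mem_filter]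
    exact ⟨Finset.mem_univ _, hQ y z h.1.2⟩
  have h2 := Finset.card_le_card h1
  rw [Finset.card_product, Finset.card_univ] at h2
  have h3 : (((univ.filter fun x => md x = m).card : ℕ) : ℝ) *
      (Fintype.card (Fin t × Fin w → X) : ℝ) ≤ ((univ.filter fun p => Q p).card : ℝ) := by
    exact_mod_cast h2
  refine le_trans ?_ h3
  rw [Fintype.card_prod, Nat.cast_mul]
  have hX : (0 : ℝ) ≤ Fintype.card X := Nat.cast_nonneg _
  have hZ : (0 : ℝ) ≤ (Fintype.card (Fin t × Fin w → X) : ℝ) := Nat.cast_nonneg _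
  have h4 : lam * γ * (Fintype.card X : ℝ) ≤ lam * Fintype.card X := by
    have h5 : lam * γ ≤ lam * 1 := mul_le_mul_of_nonneg_left hγ1 hlam
    rw [mul_one] at h5
    exact mul_le_mul_of_nonneg_right h5 hX
  calc lam * γ * ((Fintype.card X : ℝ) * (Fintype.card (Fin t × Fin w → X) : ℝ)) =
      (lam * γ * (Fintype.card X : ℝ)) * (Fintype.card (Fin t × Fin w → X) : ℝ) := by ring
    _ ≤ _ := mul_le_mul_of_nonneg_right (h4.trans hmd) hZ

open Classical in
/-- PLAN. `β := ∑ μ` over the complement of `A` minus `∑ μ` over `A`; `∑ pr A μ = card A + β / 2`.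
Case `|β| > κ * N`: the predictions with `md y = t * w` (always `True`, sum `β`) or with
`md y = t * w + 1` (always `False`, sum `-β`) are good: at least `lam * N * N ^ (t * w)`, and `γ ≤ 1`.
Case `|β| ≤ κ * N`: `positions`; `adv ≤ N` and `max 0 adv ≤ γ * N + N * [γ * N ≤ adv]`, so the number of
pairs `(c, z)` with `γ * N ≤ adv c z` is at least `(ε - t * w * γ) * N ^ (t * w) ≥ γ * N ^ (t * w)`; each `c` is the
mode of at least `lam * N` points `y` (disjoint for different `c`). -/
theorem adv_count {X : Type} [Fintype X] [Nonempty X] {t w : ℕ} (ht : 1 ≤ t) (hw : 1 ≤ w)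
    {δ ε κ γ lam : ℝ} (hε : 0 < ε) (hκ : 0 < κ) (hγ : 0 < γ) (hγ1 : γ ≤ κ) (hκ1 : κ ≤ 1)
    (hγ2 : 2 * (t * w) * γ ≤ ε) (hlam : 0 ≤ lam)
    (hK : ∀ th s2 : ℝ, |th - 1 / 2| ≤ κ → 0 ≤ s2 → s2 ≤ th - δ / 4 →
      ((1 - th ^ w) ^ t - 1 / 2) ^ 2 + t * s2 ^ w ≤ (ε / 2) ^ 2)
    (A : X → Prop)
    (hbal : |((univ.filter fun x => A x).card : ℝ) - (Fintype.card X : ℝ) / 2| ≤
      κ / 2 * Fintype.card X)
    (md : X → ℕ) (hmd : ∀ m < t * w + 2, lam * Fintype.card X ≤ (univ.filter fun x => md x = m).card)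
    (M : (Fin t × Fin w → X) → Prop)
    (hM : (1 / 2 + ε) * (Fintype.card X : ℝ) ^ (t * w) ≤
      (univ.filter fun z : Fin t × Fin w → X => (M z ↔ ¬ Tribes A z)).card)
    (μ : X → ℝ) (h0 : ∀ x, 0 ≤ μ x) (h1 : ∀ x, μ x ≤ 1)
    (hδ : δ * Fintype.card X ≤ ∑ x, μ x) :
    lam * γ * Fintype.card (X × (Fin t × Fin w → X)) ≤
      (univ.filter fun p : X × (Fin t × Fin w → X) =>
        γ * Fintype.card X ≤ ∑ x, μ x * vt A (pv md M p.1 p.2) x).card := by
  have hN : (0 : ℝ) < Fintype.card X := Nat.cast_pos.2 Fintype.card_pos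
  obtain ⟨β, hβ⟩ : ∃ β : ℝ, β = ∑ x, μ x * vt A (fun _ => True) x := ⟨_, rfl⟩
  have hβ' : -β = ∑ x, μ x * vt A (fun _ => False) x := by
    rw [hβ, ← Finset.sum_neg_distrib]
    refine Finset.sum_congr rfl fun x _ => ?_
    unfold vt
    by_cases h : A x
    · rw [if_neg (by tauto), if_pos (by tauto)]
      ring
    · rw [if_pos (by tauto), if_neg (by tauto)]
      ring
  have hγN : γ * (Fintype.card X : ℝ) ≤ κ * Fintype.card X :=
    mul_le_mul_of_nonneg_right hγ1 hN.le
  rcases lt_or_ge (κ * (Fintype.card X : ℝ)) β with hβ1 | hβ1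
  · refine count_md hlam (hγ1.trans hκ1) md (hmd (t * w) (by omega)) _ ?_
    intro y z hy
    change γ * (Fintype.card X : ℝ) ≤ ∑ x, μ x * vt A (pv md M y z) x
    rw [pv_true md M y z hy, ← hβ]
    linarith
  rcases lt_or_ge β (-(κ * (Fintype.card X : ℝ))) with hβ2 | hβ2
  · refine count_md hlam (hγ1.trans hκ1) md (hmd (t * w + 1) (by omega)) _ ?_
    intro y z hy
    change γ * (Fintype.card X : ℝ) ≤ ∑ x, μ x * vt A (pv md M y z) x
    rw [pv_false md M y z hy, ← hβ']
    linarith
  -- the unbiased case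
  have hpr : ∑ x, pr A μ x = ((univ.filter fun x => A x).card : ℝ) + β / 2 := by
    have h2 : ((univ.filter fun x => A x).card : ℝ) = ∑ x, if A x then (1 : ℝ) else 0 := by
      rw [Finset.card_filter]
      push_cast
      rfl
    rw [h2, hβ, Finset.sum_div, ← Finset.sum_add_distrib]
    refine Finset.sum_congr rfl fun x _ => ?_
    unfold pr vt
    by_cases h : A x
    · rw [if_pos h, if_pos h, if_neg (by tauto)]
      ring
    · rw [if_neg h, if_neg h, if_pos (by tauto)]
      ring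
  have hbal' : |∑ x, pr A μ x - (Fintype.card X : ℝ) / 2| ≤ κ * Fintype.card X := by
    rw [hpr]
    have h2 := abs_le.1 hbal
    rw [abs_le]
    constructor <;> linarith [h2.1, h2.2]
  have hpos := positions hε.le hK A μ h0 h1 hδ hbal' M hM
  obtain ⟨b, hb⟩ : ∃ b : Fin t × Fin w → ℝ, ∀ c, b c =
      ((univ.filter fun z : Fin t × Fin w → X => γ * (Fintype.card X : ℝ) ≤ adv A μ M c z).card : ℝ) :=
    ⟨_, fun _ => rfl⟩
  have hZ : (Fintype.card (Fin t × Fin w → X) : ℝ) = (Fintype.card X : ℝ) ^ (t * w) := by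
    rw [Fintype.card_fun, Fintype.card_prod, Fintype.card_fin, Fintype.card_fin]
    push_cast
    rfl
  have hc : ∀ c, ∑ z, max 0 (adv A μ M c z) ≤
      γ * Fintype.card X * (Fintype.card X : ℝ) ^ (t * w) + Fintype.card X * b c := by
    intro c
    have h2 : ∀ z, max 0 (adv A μ M c z) ≤ γ * Fintype.card X + Fintype.card X *
        (if γ * (Fintype.card X : ℝ) ≤ adv A μ M c z then 1 else 0) := by
      intro z
      have h3 := adv_le A μ h0 h1 M c z
      have h4 : 0 ≤ γ * (Fintype.card X : ℝ) := mul_nonneg hγ.le hN.le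
      split_ifs with h
      · refine max_le (by linarith) (by linarith)
      · rw [not_le] at h
        refine max_le (by linarith) (by linarith)
    refine (Finset.sum_le_sum fun z _ => h2 z).trans ?_
    rw [Finset.sum_add_distrib, hb, Finset.card_filter]
    push_cast
    rw [Finset.mul_sum, Finset.sum_const, Finset.card_univ, nsmul_eq_mul, hZ]
    exact le_of_eq (by ring)
  have hsum : ∑ c, ∑ z, max 0 (adv A μ M c z) ≤
      (t * w) * (γ * Fintype.card X * (Fintype.card X : ℝ) ^ (t * w)) +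
        Fintype.card X * ∑ c, b c := by
    refine (Finset.sum_le_sum fun c _ => hc c).trans ?_
    rw [Finset.sum_add_distrib, Finset.mul_sum, Finset.sum_const, Finset.card_univ,
      nsmul_eq_mul, Fintype.card_prod, Fintype.card_fin, Fintype.card_fin]
    push_cast
    exact le_rfl
  have hP : (0 : ℝ) < (Fintype.card X : ℝ) ^ (t * w) := pow_pos hN _
  have htw : (1 : ℝ) ≤ t * w := by
    have h2 : 1 ≤ t * w := Nat.one_le_iff_ne_zero.2 (by positivity)
    exact_mod_cast h2
  have hbs : γ * (Fintype.card X : ℝ) ^ (t * w) ≤ ∑ c, b c := by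
    have h2 : ε * Fintype.card X * (Fintype.card X : ℝ) ^ (t * w) ≤
        (t * w) * (γ * Fintype.card X * (Fintype.card X : ℝ) ^ (t * w)) +
          Fintype.card X * ∑ c, b c := hpos.trans hsum
    have h3 : Fintype.card X * (ε * (Fintype.card X : ℝ) ^ (t * w)) ≤
        Fintype.card X * ((t * w) * γ * (Fintype.card X : ℝ) ^ (t * w) + ∑ c, b c) := by
      calc (Fintype.card X : ℝ) * (ε * (Fintype.card X : ℝ) ^ (t * w)) =
          ε * Fintype.card X * (Fintype.card X : ℝ) ^ (t * w) := by ring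
        _ ≤ _ := h2
        _ = _ := by ring
    have h4 := le_of_mul_le_mul_left h3 hN
    have h5 : γ * (Fintype.card X : ℝ) ^ (t * w) ≤
        (ε - t * w * γ) * (Fintype.card X : ℝ) ^ (t * w) := by
      refine mul_le_mul_of_nonneg_right ?_ hP.le
      have h6 : γ ≤ t * w * γ := le_mul_of_one_le_left hγ.le htw
      linarith
    linarith
  -- the count
  obtain ⟨S, hS⟩ : ∃ S : Fin t × Fin w → Finset (X × (Fin t × Fin w → X)), ∀ c, S c =
      (univ.filter fun y => md y = (finProdFinEquiv c : ℕ)) ×ˢ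
        (univ.filter fun z : Fin t × Fin w → X => γ * (Fintype.card X : ℝ) ≤ adv A μ M c z) :=
    ⟨_, fun _ => rfl⟩
  have hdis : ((univ : Finset (Fin t × Fin w)) : Set (Fin t × Fin w)).PairwiseDisjoint S := by
    intro c _ c' _ hcc
    refine Finset.disjoint_left.2 ?_
    rintro ⟨y, z⟩ h h'
    rw [hS, Finset.mem_product, Finset.mem_filter] at h h'
    exact hcc (finProdFinEquiv.injective (Fin.ext (h.1.2.symm.trans h'.1.2)))
  have hsub : univ.biUnion S ⊆ univ.filter fun p : X × (Fin t × Fin w → X) =>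
      γ * Fintype.card X ≤ ∑ x, μ x * vt A (pv md M p.1 p.2) x := by
    rintro ⟨y, z⟩ h
    obtain ⟨c, -, hc⟩ := Finset.mem_biUnion.1 h
    rw [hS, Finset.mem_product, Finset.mem_filter, Finset.mem_filter] at hc
    refine Finset.mem_filter.2 ⟨Finset.mem_univ _, ?_⟩
    change γ * (Fintype.card X : ℝ) ≤ ∑ x, μ x * vt A (pv md M y z) x
    rw [pv_pos md M y z c hc.1.2]
    exact hc.2.2
  have hcard := Finset.card_le_card hsub
  rw [Finset.card_biUnion hdis] at hcard
  have hcard' : ∑ c, ((S c).card : ℝ) ≤ ((univ.filter fun p : X × (Fin t × Fin w → X) =>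
      γ * Fintype.card X ≤ ∑ x, μ x * vt A (pv md M p.1 p.2) x).card : ℝ) := by
    exact_mod_cast hcard
  refine le_trans ?_ hcard'
  have hSc : ∀ c, lam * Fintype.card X * b c ≤ ((S c).card : ℝ) := by
    intro c
    rw [hS, Finset.card_product, Nat.cast_mul, ← hb]
    have h2 : 0 ≤ b c := by
      rw [hb]
      exact Nat.cast_nonneg _
    refine mul_le_mul_of_nonneg_right (hmd _ ?_) h2
    have h3 := (finProdFinEquiv c).isLt
    omega
  refine le_trans ?_ (Finset.sum_le_sum fun c _ => hSc c)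
  rw [← Finset.mul_sum, Fintype.card_prod, Nat.cast_mul, hZ]
  calc lam * γ * ((Fintype.card X : ℝ) * (Fintype.card X : ℝ) ^ (t * w)) =
      lam * Fintype.card X * (γ * (Fintype.card X : ℝ) ^ (t * w)) := by ring
    _ ≤ _ := mul_le_mul_of_nonneg_left hbs (mul_nonneg hlam hN.le)

end Pool.Agent.LibHF75
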