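import Pool.Agent.LibHF75.K3
import Pool.Agent.LibHF75.K8
import Pool.Agent.LibHF75.K10

/-!
Row K11: the combinatorial theorem.
-/

namespace Pool.Agent.LibHF75

open Finset Function

/-- The seeds as pairs. -/
def ixEquiv (X : Type) (t w τ : ℕ) :
    (Ix t w τ → X) ≃ X × (Fin τ → X × (Fin t × Fin w → X)) where
  toFun Y := (Y none, fun s => (Y (some (s, none)), fun c => Y (some (s, some c))))
  invFun q := fun i => match i with
    | none => q.1
    | some (s, none) => (q.2 s).1
    | some (s, some c) => (q.2 s).2 c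
  left_inv Y := by
    funext i
    rcases i with _ | ⟨s, _ | c⟩ <;> rfl
  right_inv q := rfl

open Classical in
/-- If the strict majority of the first `l` votes is wrong, the sum of the votes is `≤ 0`. -/
theorem votes_nonpos {X : Type} {τ : ℕ} (A : X → Prop) (P : Fin τ → X → Prop) (l : Fin τ)
    (x : X) (hx : ((l : ℕ) < 2 * (univ.filter fun s : Fin τ => (s : ℕ) < l ∧ P s x).card ↔ A x)) :
    ∑ s : Fin l, vt A (P (Fin.castLE l.2.le s)) x ≤ 0 := by
  have hcard : (univ.filter fun s : Fin τ => (s : ℕ) < l ∧ P s x).card =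
      (univ.filter fun s : Fin l => P (Fin.castLE l.2.le s) x).card := by
    symm
    apply Finset.card_bij (fun (s : Fin l) _ => Fin.castLE l.2.le s)
    · intro s hs
      rw [mem_filter] at hs ⊢
      exact ⟨mem_univ _, s.2, hs.2⟩
    · intro s _ s' _ h
      exact Fin.castLE_injective _ h
    · intro s hs
      rw [mem_filter] at hs
      refine ⟨⟨s, hs.2.1⟩, ?_, ?_⟩
      · rw [mem_filter]
        exact ⟨mem_univ _, hs.2.2⟩
      · rfl
  rw [hcard] at hx
  have hsplit : ((univ.filter fun s : Fin l => P (Fin.castLE l.2.le s) x).card : ℝ) +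
      ((univ.filter fun s : Fin l => ¬ P (Fin.castLE l.2.le s) x).card : ℝ) = (l : ℕ) := by
    have := Finset.card_filter_add_card_filter_not (s := (univ : Finset (Fin l)))
      (fun s : Fin l => P (Fin.castLE l.2.le s) x)
    rw [Finset.card_univ, Fintype.card_fin] at this
    exact_mod_cast this
  by_cases hA : A x
  · have h1 := hx.2 hA
    have h2 : ∑ s : Fin l, vt A (P (Fin.castLE l.2.le s)) x =
        ((univ.filter fun s : Fin l => ¬ P (Fin.castLE l.2.le s) x).card : ℝ) -
        ((univ.filter fun s : Fin l => P (Fin.castLE l.2.le s) x).card : ℝ) := by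
      rw [Finset.card_filter, Finset.card_filter]
      push_cast
      rw [← Finset.sum_sub_distrib]
      apply Finset.sum_congr rfl
      intro s _
      unfold vt
      by_cases hs : P (Fin.castLE l.2.le s) x
      · simp [hs, hA]
      · simp [hs, hA]
    rw [h2]
    have h1' : ((l : ℕ) : ℝ) < 2 * ((univ.filter fun s : Fin l =>
      P (Fin.castLE l.2.le s) x).card : ℝ) := by exact_mod_cast h1
    linarith
  · have h1 : ¬ ((l : ℕ) < 2 * (univ.filter fun s : Fin l =>
        P (Fin.castLE l.2.le s) x).card) := fun hh => hA (hx.1 hh)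
    have h2 : ∑ s : Fin l, vt A (P (Fin.castLE l.2.le s)) x =
        ((univ.filter fun s : Fin l => P (Fin.castLE l.2.le s) x).card : ℝ) -
        ((univ.filter fun s : Fin l => ¬ P (Fin.castLE l.2.le s) x).card : ℝ) := by
      rw [Finset.card_filter, Finset.card_filter]
      push_cast
      rw [← Finset.sum_sub_distrib]
      apply Finset.sum_congr rfl
      intro s _
      unfold vt
      by_cases hs : P (Fin.castLE l.2.le s) x
      · simp [hs, hA]
      · simp [hs, hA]
    rw [h2]
    have h1' : 2 * ((univ.filter fun s : Fin l =>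
      P (Fin.castLE l.2.le s) x).card : ℝ) ≤ ((l : ℕ) : ℝ) := by exact_mod_cast not_lt.1 h1
    linarith

open Classical in
/-- PLAN. If `GG` is wrong at `x`, the sum of the first `md (Y none)` votes is `≤ 0`. The map
`Y ↦ (Y none, fun s => (Y (some (s, none)), fun c => Y (some (s, some c))))` is a bijection onto
`X × (Fin τ → X × (Fin t × Fin w → X))`; for every sequence with a good `l` at least `lam * N` values of `Y none` have
mode `l`. -/
theorem majority_count {X : Type} [Fintype X] [Nonempty X] {t w τ : ℕ} {δ lam b : ℝ}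
    (hlam : 0 ≤ lam) (A : X → Prop) (md : X → ℕ)
    (hmd : ∀ m < τ, lam * Fintype.card X ≤ (univ.filter fun x => md x = m).card)
    (M : (Fin t × Fin w → X) → Prop)
    (h : b ≤ (univ.filter fun p : Fin τ → X × (Fin t × Fin w → X) => ∃ l : Fin τ,
      ((univ.filter fun x : X => ∑ s : Fin l, vt A (pv md M (p (Fin.castLE l.2.le s)).1
        (p (Fin.castLE l.2.le s)).2) x ≤ 0).card : ℝ) ≤ δ * Fintype.card X).card) :
    lam * Fintype.card X * b ≤ (univ.filter fun Y : Ix t w τ → X =>
      ((univ.filter fun x : X => (GG md M Y x ↔ A x)).card : ℝ) ≤ δ * Fintype.card X).card := by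
  have hN : (0 : ℝ) ≤ lam * Fintype.card X := by positivity
  -- the number of good pairs
  have h1 : lam * Fintype.card X * b ≤ ∑ p : Fin τ → X × (Fin t × Fin w → X),
      ((univ.filter fun y : X => ∃ l : Fin τ, md y = l ∧
        ((univ.filter fun x : X => ∑ s : Fin l, vt A (pv md M (p (Fin.castLE l.2.le s)).1
        (p (Fin.castLE l.2.le s)).2) x ≤ 0).card : ℝ) ≤ δ * Fintype.card X).card : ℝ) := by
    refine (mul_le_mul_of_nonneg_left h hN).trans ?_
    rw [Finset.card_filter]
    push_cast
    rw [Finset.mul_sum]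
    apply Finset.sum_le_sum
    intro p _
    split_ifs with hp
    · obtain ⟨l, hl⟩ := hp
      rw [mul_one]
      refine (hmd l l.2).trans ?_
      have hsub : (univ.filter fun x => md x = (l : ℕ)) ⊆
          (univ.filter fun y : X => ∃ l : Fin τ, md y = l ∧
            ((univ.filter fun x : X => ∑ s : Fin l, vt A (pv md M (p (Fin.castLE l.2.le s)).1
            (p (Fin.castLE l.2.le s)).2) x ≤ 0).card : ℝ) ≤ δ * Fintype.card X) := by
        intro y hy
        rw [mem_filter] at hy ⊢
        exact ⟨mem_univ _, l, hy.2, hl⟩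
      exact_mod_cast card_le_card hsub
    · rw [mul_zero]
      positivity
  refine h1.trans ?_
  have h2 : (((univ.filter fun Y : Ix t w τ → X =>
      ((univ.filter fun x : X => (GG md M Y x ↔ A x)).card : ℝ) ≤
        δ * Fintype.card X).card : ℕ) : ℝ) =
      ∑ p : Fin τ → X × (Fin t × Fin w → X),
      ((univ.filter fun y : X => ((univ.filter fun x : X =>
        (GG md M ((ixEquiv X t w τ).symm (y, p)) x ↔ A x)).card : ℝ) ≤
        δ * Fintype.card X).card : ℝ) := by
    rw [Finset.card_filter, ← Equiv.sum_comp (ixEquiv X t w τ).symm, Fintype.sum_prod_type_right]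
    push_cast
    apply Finset.sum_congr rfl
    intro p _
    rw [Finset.card_filter]
    push_cast
    rfl
  rw [h2]
  apply Finset.sum_le_sum
  intro p _
  have hsub : (univ.filter fun y : X => ∃ l : Fin τ, md y = l ∧
        ((univ.filter fun x : X => ∑ s : Fin l, vt A (pv md M (p (Fin.castLE l.2.le s)).1
        (p (Fin.castLE l.2.le s)).2) x ≤ 0).card : ℝ) ≤ δ * Fintype.card X) ⊆
      (univ.filter fun y : X => ((univ.filter fun x : X =>
        (GG md M ((ixEquiv X t w τ).symm (y, p)) x ↔ A x)).card : ℝ) ≤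
        δ * Fintype.card X) := by
    intro y hy
    rw [mem_filter] at hy ⊢
    obtain ⟨_, l, hl, hc⟩ := hy
    refine ⟨mem_univ _, le_trans ?_ hc⟩
    have hsub2 : (univ.filter fun x : X =>
        (GG md M ((ixEquiv X t w τ).symm (y, p)) x ↔ A x)) ⊆
        (univ.filter fun x : X => ∑ s : Fin l, vt A (pv md M (p (Fin.castLE l.2.le s)).1
        (p (Fin.castLE l.2.le s)).2) x ≤ 0) := by
      intro x hx
      rw [mem_filter] at hx ⊢
      refine ⟨mem_univ _, ?_⟩
      refine votes_nonpos A (fun s => pv md M (p s).1 (p s).2) l x ?_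
      have hx2 := hx.2
      unfold GG at hx2
      have e0 : (ixEquiv X t w τ).symm (y, p) none = y := rfl
      rw [e0, hl] at hx2
      exact hx2
    exact_mod_cast card_le_card hsub2
  exact_mod_cast card_le_card hsub

open Classical in
/-- PLAN. `choose_tw` with `ε / 2`, `γ := min κ (ε / (2 * (t * w)))`, `τ > 2 / γ ^ 2`,
`B := t * w + 2 + τ`, `α := lam * (lam * γ) ^ τ` (for `lam ≤ 1`; the hypothesis `hmd` for `m = 0` forces
`lam ≤ 1`), `κ' := κ / 2`; `adv_count`, `seq_count`, `majority_count`. -/
theorem core {ε δ : ℝ} (hε : 0 < ε) (hδ : 0 < δ) (hδ1 : δ ≤ 1) :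
    ∃ t w τ B : ℕ, 1 ≤ t ∧ 1 ≤ w ∧ ∃ κ : ℝ, 0 < κ ∧ ∀ lam : ℝ, 0 < lam → ∃ α : ℝ, 0 < α ∧
      ∀ (X : Type) [Fintype X] [Nonempty X] (A : X → Prop) (md : X → ℕ)
        (M : (Fin t × Fin w → X) → Prop),
        |((univ.filter fun x => A x).card : ℝ) - (Fintype.card X : ℝ) / 2| ≤
          κ * Fintype.card X →
        (∀ m < B, lam * Fintype.card X ≤ (univ.filter fun x => md x = m).card) →
        ((univ.filter fun z : Fin t × Fin w → X => (M z ↔ Tribes A z)).card : ℝ) ≤
          (1 / 2 - ε) * (Fintype.card X : ℝ) ^ (t * w) →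
        α * Fintype.card (Ix t w τ → X) ≤ (univ.filter fun Y : Ix t w τ → X =>
          ((univ.filter fun x : X => (GG md M Y x ↔ A x)).card : ℝ) ≤
            δ * Fintype.card X).card := by
  obtain ⟨t, w, ht, hw, κ, hκ, hκ8, hK⟩ := choose_tw hδ hδ1 (half_pos hε)
  have htw : (0 : ℝ) < t * w := by
    have h1 : (0 : ℝ) < t := by exact_mod_cast ht
    have h2 : (0 : ℝ) < w := by exact_mod_cast hw
    positivity
  obtain ⟨γ, hγ⟩ : ∃ γ, γ = min κ (ε / (2 * (t * w))) := ⟨_, rfl⟩
  have hγ0 : 0 < γ := by
    rw [hγ]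
    exact lt_min hκ (by positivity)
  have hγκ : γ ≤ κ := hγ ▸ min_le_left _ _
  have hγ2 : 2 * (t * w) * γ ≤ ε := by
    have : γ ≤ ε / (2 * (t * w)) := hγ ▸ min_le_right _ _
    rw [le_div_iff₀ (by positivity)] at this
    linarith
  obtain ⟨τ, hτ⟩ := exists_nat_gt (2 / γ ^ 2)
  have hκ1 : κ ≤ 1 := by linarith
  refine ⟨t, w, τ, t * w + 2 + τ, ht, hw, κ / 2, half_pos hκ, fun lam hlam =>
    ⟨lam * (lam * γ) ^ τ, by positivity, ?_⟩⟩
  intro X _ _ A md M hbal hmd hM
  have hN : (0 : ℝ) < Fintype.card X := by exact_mod_cast Fintype.card_pos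
  have hlam1 : lam ≤ 1 := by
    have h1 := hmd 0 (by omega)
    have h2 : ((univ.filter fun x => md x = 0).card : ℝ) ≤ Fintype.card X := by
      exact_mod_cast Finset.card_le_univ _
    have h3 := h1.trans h2
    by_contra hcon
    push Not at hcon
    nlinarith
  have hM' : (1 / 2 + ε) * (Fintype.card X : ℝ) ^ (t * w) ≤
      (univ.filter fun z : Fin t × Fin w → X => (M z ↔ ¬ Tribes A z)).card := by
    have h1 := Finset.card_filter_add_card_filter_not
      (s := (univ : Finset (Fin t × Fin w → X))) (fun z => (M z ↔ Tribes A z))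
    rw [Finset.card_univ, Fintype.card_fun, Fintype.card_prod, Fintype.card_fin,
      Fintype.card_fin] at h1
    have h2 : (univ.filter fun z : Fin t × Fin w → X => ¬ (M z ↔ Tribes A z)) =
        (univ.filter fun z : Fin t × Fin w → X => (M z ↔ ¬ Tribes A z)) := by
      apply Finset.filter_congr
      intro z _
      tauto
    rw [h2] at h1
    have h3 : ((univ.filter fun z : Fin t × Fin w → X => (M z ↔ Tribes A z)).card : ℝ) +
        ((univ.filter fun z : Fin t × Fin w → X => (M z ↔ ¬ Tribes A z)).card : ℝ) =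
        (Fintype.card X : ℝ) ^ (t * w) := by exact_mod_cast h1
    linarith
  have hadv := seq_count (Sd := X × (Fin t × Fin w → X)) (X := X)
    (fun p x => vt A (pv md M p.1 p.2) x) (by
      intro p x
      unfold vt
      split_ifs
      · exact Or.inl rfl
      · exact Or.inr rfl) (δ := δ) (γ := γ) (a := lam * γ) hγ0 (hγκ.trans hκ1)
    (by positivity) (by nlinarith) (fun μ h0 h1 hs =>
      adv_count ht hw hε hκ hγ0 hγκ hκ1 hγ2 hlam.le hK A hbal md
        (fun m hm => hmd m (by omega)) M hM' μ h0 h1 hs) τ hτ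
  have hmaj := majority_count hlam.le A md (fun m hm => hmd m (by omega)) M hadv
  refine le_trans (le_of_eq ?_) hmaj
  rw [Fintype.card_prod, Fintype.card_fun, Fintype.card_fun]
  have e1 : Fintype.card (Ix t w τ) = 1 + (τ + τ * (t * w)) := by
    simp [Ix]
    ring
  rw [e1]
  simp only [Fintype.card_prod, Fintype.card_fin]
  push_cast
  rw [pow_add, pow_add, pow_mul' _ τ (t * w), mul_pow, mul_pow, mul_pow]
  ring

end Pool.Agent.LibHF75
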