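import Pool.Agent.LibHF75.K1

/-!
Row K2: `Gam` is concentrated.
-/

namespace Pool.Agent.LibHF75

open Finset Function

private theorem K2_pow {b c : ℝ} (hc : 0 ≤ c) (hcb : c ≤ b) (hb : b ≤ 1) (t : ℕ) :
    b ^ t - c ^ t ≤ t * (b - c) := by
  induction t with
  | zero => simp
  | succ t ih =>
    have h1 : 0 ≤ b ^ t - c ^ t := sub_nonneg.2 (pow_le_pow_left₀ hc hcb t)
    have h2 : c ^ t ≤ 1 := pow_le_one₀ hc (hcb.trans hb)
    have h3 : b ^ (t + 1) - c ^ (t + 1) = b * (b ^ t - c ^ t) + c ^ t * (b - c) := by ring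
    have h4 : b * (b ^ t - c ^ t) ≤ 1 * (b ^ t - c ^ t) := mul_le_mul_of_nonneg_right hb h1
    have h5 : c ^ t * (b - c) ≤ 1 * (b - c) := mul_le_mul_of_nonneg_right h2 (sub_nonneg.2 hcb)
    rw [h3]
    push_cast
    linarith

/-- `Gam` is concentrated -/
theorem gam_dev {X : Type} [Fintype X] [Nonempty X] {t w : ℕ} (p : X → ℝ) (h0 : ∀ x, 0 ≤ p x)
    (h1 : ∀ x, p x ≤ 1) {th s2 : ℝ} (hth : ∑ x, p x = th * Fintype.card X)
    (hs : ∑ x, p x ^ 2 = s2 * Fintype.card X) :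
    ∑ z : Fin t × Fin w → X, (Gam (fun c => p (z c)) - 1 / 2) ^ 2 ≤
      (((1 - th ^ w) ^ t - 1 / 2) ^ 2 + t * s2 ^ w) * (Fintype.card X : ℝ) ^ (t * w) := by
  have hn : (0 : ℝ) < Fintype.card X := Nat.cast_pos.2 Fintype.card_pos
  set n : ℝ := (Fintype.card X : ℝ) with hnd
  have hcard : ((Fintype.card (Fin t × Fin w → X) : ℕ) : ℝ) = n ^ (t * w) := by
    simp [Fintype.card_pi, hnd]
  -- the sum
  have hsum : ∑ z : Fin t × Fin w → X, (Gam (fun c => p (z c)) - 1 / 2) ^ 2 =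
      ((1 - 2 * th ^ w + s2 ^ w) ^ t - (1 - th ^ w) ^ t + 1 / 4) * n ^ (t * w) := by
    have e1 : ∀ z : Fin t × Fin w → X, (Gam (fun c => p (z c)) - 1 / 2) ^ 2 =
        Gam (fun c => p (z c)) ^ 2 - Gam (fun c => p (z c)) + 1 / 4 := fun z => by ring
    simp only [e1]
    rw [sum_add_distrib, sum_sub_distrib, gam_sum, gam_sq_sum, sum_const, card_univ,
      nsmul_eq_mul, hcard, hth, hs, ← hnd]
    have e2 : n ^ w - 2 * (th * n) ^ w + (s2 * n) ^ w = (1 - 2 * th ^ w + s2 ^ w) * n ^ w := by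
      rw [mul_pow, mul_pow]; ring
    have e3 : n ^ w - (th * n) ^ w = (1 - th ^ w) * n ^ w := by
      rw [mul_pow]; ring
    rw [e2, e3, mul_pow, mul_pow, ← pow_mul, mul_comm w t]
    ring
  rw [hsum]
  refine mul_le_mul_of_nonneg_right ?_ (pow_nonneg hn.le _)
  -- the numbers `th` and `s2`
  have hth0 : 0 ≤ th := by
    have h : 0 ≤ th * n := by rw [← hth]; exact sum_nonneg fun x _ => h0 x
    exact nonneg_of_mul_nonneg_left h hn
  have hth1 : th ≤ 1 := by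
    have h : th * n ≤ 1 * n := by
      rw [← hth, one_mul, hnd]
      calc ∑ x, p x ≤ ∑ _x : X, (1 : ℝ) := sum_le_sum fun x _ => h1 x
        _ = _ := by simp
    exact le_of_mul_le_mul_right h hn
  have hs0 : 0 ≤ s2 := by
    have h : 0 ≤ s2 * n := by rw [← hs]; exact sum_nonneg fun x _ => sq_nonneg _
    exact nonneg_of_mul_nonneg_left h hn
  have hst : s2 ≤ th := by
    have h : s2 * n ≤ th * n := by
      rw [← hs, ← hth]
      refine sum_le_sum fun x _ => ?_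
      rw [sq]
      exact mul_le_of_le_one_left (h0 x) (h1 x)
    exact le_of_mul_le_mul_right h hn
  have hcs : th ^ 2 ≤ s2 := by
    have h := sum_mul_sq_le_sq_mul_sq univ (fun _ : X => (1 : ℝ)) p
    simp only [one_mul, one_pow, sum_const, card_univ, nsmul_eq_mul, mul_one] at h
    rw [hth, hs, ← hnd] at h
    have h' : th ^ 2 * n ^ 2 ≤ s2 * n ^ 2 := by nlinarith
    exact le_of_mul_le_mul_right h' (by positivity)
  have hthw : th ^ w ≤ 1 := pow_le_one₀ hth0 hth1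
  have hthw0 : 0 ≤ th ^ w := pow_nonneg hth0 w
  have hsw : s2 ^ w ≤ th ^ w := pow_le_pow_left₀ hs0 hst w
  have hsw0 : 0 ≤ s2 ^ w := pow_nonneg hs0 w
  have hcw : (th ^ w) ^ 2 ≤ s2 ^ w := by
    rw [← pow_mul, mul_comm w 2, pow_mul]
    exact pow_le_pow_left₀ (sq_nonneg _) hcs w
  have hab : (1 - th ^ w) ^ 2 ≤ 1 - 2 * th ^ w + s2 ^ w := by nlinarith
  have hb1 : 1 - 2 * th ^ w + s2 ^ w ≤ 1 := by linarith
  have hk := K2_pow (sq_nonneg (1 - th ^ w)) hab hb1 t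
  have hk2 : (t : ℝ) * (1 - 2 * th ^ w + s2 ^ w - (1 - th ^ w) ^ 2) ≤ t * s2 ^ w := by
    refine mul_le_mul_of_nonneg_left ?_ (Nat.cast_nonneg t)
    nlinarith
  have e : ((1 - th ^ w) ^ 2) ^ t = ((1 - th ^ w) ^ t) ^ 2 := by
    rw [← pow_mul, ← pow_mul, mul_comm]
  rw [e] at hk
  nlinarith

end Pool.Agent.LibHF75
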