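import Pool.Agent.LibHF75.K2

/-!
Row K4: a noisy `Tribes` is unpredictable.
-/

namespace Pool.Agent.LibHF75

open Finset Function

/-- PLAN. `p := pr A μ`; `0 ≤ p ≤ 1`; `p - p ^ 2 = (μ / 2) * (1 - μ / 2) ≥ μ / 4`, so
`s2 := (∑ p ^ 2) / card X ≤ th - δ / 4`, `th := (∑ p) / card X`. `gam_dev`, `hK` and Cauchy-Schwarz:
`(∑ |Gam - 1/2|) ^ 2 ≤ card (Fin t × Fin w → X) * ∑ (Gam - 1/2) ^ 2 ≤ (ε * card X ^ (t * w)) ^ 2`
(`sq_sum_le_card_mul_sum_sq`, `abs_le_of_sq_le_sq`). -/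
theorem fake {X : Type} [Fintype X] [Nonempty X] {t w : ℕ} {δ ε κ : ℝ} (hε : 0 ≤ ε)
    (hK : ∀ th s2 : ℝ, |th - 1 / 2| ≤ κ → 0 ≤ s2 → s2 ≤ th - δ / 4 →
      ((1 - th ^ w) ^ t - 1 / 2) ^ 2 + t * s2 ^ w ≤ ε ^ 2)
    (A : X → Prop) (μ : X → ℝ) (h0 : ∀ x, 0 ≤ μ x) (h1 : ∀ x, μ x ≤ 1)
    (hδ : δ * Fintype.card X ≤ ∑ x, μ x)
    (hbal : |∑ x, pr A μ x - (Fintype.card X : ℝ) / 2| ≤ κ * Fintype.card X) :
    ∑ z : Fin t × Fin w → X, |Gam (fun c => pr A μ (z c)) - 1 / 2| ≤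
      ε * (Fintype.card X : ℝ) ^ (t * w) := by
  classical
  have hn : (0 : ℝ) < Fintype.card X := by exact_mod_cast Fintype.card_pos
  have hp0 : ∀ x, 0 ≤ pr A μ x := by
    intro x
    unfold pr
    have := h0 x
    have := h1 x
    split_ifs <;> linarith
  have hp1 : ∀ x, pr A μ x ≤ 1 := by
    intro x
    unfold pr
    have := h0 x
    have := h1 x
    split_ifs <;> linarith
  have hpp : ∀ x, pr A μ x ^ 2 ≤ pr A μ x - μ x / 4 := by
    intro x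
    unfold pr
    have := h0 x
    have := h1 x
    split_ifs <;> nlinarith
  obtain ⟨th, hth⟩ : ∃ th : ℝ, ∑ x, pr A μ x = th * Fintype.card X :=
    ⟨(∑ x, pr A μ x) / Fintype.card X, (div_mul_cancel₀ _ hn.ne').symm⟩
  obtain ⟨s2, hs2⟩ : ∃ s2 : ℝ, ∑ x, pr A μ x ^ 2 = s2 * Fintype.card X :=
    ⟨(∑ x, pr A μ x ^ 2) / Fintype.card X, (div_mul_cancel₀ _ hn.ne').symm⟩
  have hth1 : |th - 1 / 2| ≤ κ := by
    rw [hth] at hbal
    have e1 : th * (Fintype.card X : ℝ) - (Fintype.card X : ℝ) / 2 =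
        (th - 1 / 2) * Fintype.card X := by ring
    rw [e1, abs_mul, abs_of_pos hn] at hbal
    exact le_of_mul_le_mul_right hbal hn
  have hs0 : 0 ≤ s2 := by
    have e1 : 0 ≤ ∑ x, pr A μ x ^ 2 := sum_nonneg fun x _ => sq_nonneg _
    rw [hs2] at e1
    exact nonneg_of_mul_nonneg_left e1 hn
  have hs1 : s2 ≤ th - δ / 4 := by
    have e1 : ∑ x, pr A μ x ^ 2 ≤ ∑ x, (pr A μ x - μ x / 4) := sum_le_sum fun x _ => hpp x
    rw [sum_sub_distrib, ← sum_div, hs2, hth] at e1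
    have e2 : s2 * Fintype.card X ≤ (th - δ / 4) * Fintype.card X := by linarith
    exact le_of_mul_le_mul_right e2 hn
  have hd := gam_dev (t := t) (w := w) (pr A μ) hp0 hp1 hth hs2
  have hN : (0 : ℝ) ≤ (Fintype.card X : ℝ) ^ (t * w) := by positivity
  have hd2 : ∑ z : Fin t × Fin w → X, (Gam (fun c => pr A μ (z c)) - 1 / 2) ^ 2 ≤
      ε ^ 2 * (Fintype.card X : ℝ) ^ (t * w) :=
    hd.trans (mul_le_mul_of_nonneg_right (hK th s2 hth1 hs0 hs1) hN)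
  have hcard : ((univ : Finset (Fin t × Fin w → X)).card : ℝ) = (Fintype.card X : ℝ) ^ (t * w) := by
    rw [card_univ, Fintype.card_fun, Fintype.card_prod, Fintype.card_fin, Fintype.card_fin]
    push_cast
    rfl
  have hcs := sq_sum_le_card_mul_sum_sq (s := (univ : Finset (Fin t × Fin w → X)))
    (f := fun z => |Gam (fun c => pr A μ (z c)) - 1 / 2|)
  simp only [sq_abs] at hcs
  rw [hcard] at hcs
  have hfin : (∑ z : Fin t × Fin w → X, |Gam (fun c => pr A μ (z c)) - 1 / 2|) ^ 2 ≤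
      (ε * (Fintype.card X : ℝ) ^ (t * w)) ^ 2 := by
    calc (∑ z : Fin t × Fin w → X, |Gam (fun c => pr A μ (z c)) - 1 / 2|) ^ 2
        ≤ (Fintype.card X : ℝ) ^ (t * w) *
          ∑ z : Fin t × Fin w → X, (Gam (fun c => pr A μ (z c)) - 1 / 2) ^ 2 := hcs
      _ ≤ (Fintype.card X : ℝ) ^ (t * w) * (ε ^ 2 * (Fintype.card X : ℝ) ^ (t * w)) :=
          mul_le_mul_of_nonneg_left hd2 hN
      _ = (ε * (Fintype.card X : ℝ) ^ (t * w)) ^ 2 := by ring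
  exact (le_abs_self _).trans (abs_le_of_sq_le_sq hfin (by positivity))

end Pool.Agent.LibHF75
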