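import Pool.Agent.LibHF75.HDefs

/-!
Row K5: `Gam` is affine in each variable.
-/

namespace Pool.Agent.LibHF75

open Finset Function

/-- The slope of `-Gam` in the variable `c`. -/
def slope {t w : ℕ} (y : Fin t × Fin w → ℝ) (c : Fin t × Fin w) : ℝ :=
  (∏ i ∈ univ.erase c.1, (1 - ∏ j, y (i, j))) * ∏ j ∈ univ.erase c.2, y (c.1, j)

theorem rows_update {t w : ℕ} (y : Fin t × Fin w → ℝ) (c : Fin t × Fin w) (a : ℝ) :
    (∏ i ∈ univ.erase c.1, (1 - ∏ j, (update y c a) (i, j))) =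
      ∏ i ∈ univ.erase c.1, (1 - ∏ j, y (i, j)) := by
  refine Finset.prod_congr rfl fun i hi => ?_
  have hi' : i ≠ c.1 := Finset.ne_of_mem_erase hi
  congr 1
  refine Finset.prod_congr rfl fun j _ => ?_
  rw [Function.update_of_ne]
  intro h
  exact hi' (by rw [← h])

theorem cols_update {t w : ℕ} (y : Fin t × Fin w → ℝ) (c : Fin t × Fin w) (a : ℝ) :
    (∏ j ∈ univ.erase c.2, (update y c a) (c.1, j)) = ∏ j ∈ univ.erase c.2, y (c.1, j) := by
  refine Finset.prod_congr rfl fun j hj => ?_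
  have hj' : j ≠ c.2 := Finset.ne_of_mem_erase hj
  rw [Function.update_of_ne]
  intro h
  exact hj' (by rw [← h])

theorem gam_update_eq {t w : ℕ} (y : Fin t × Fin w → ℝ) (c : Fin t × Fin w) (a : ℝ) :
    Gam (update y c a) = (∏ i ∈ univ.erase c.1, (1 - ∏ j, y (i, j))) *
      (1 - a * ∏ j ∈ univ.erase c.2, y (c.1, j)) := by
  unfold Gam
  rw [← Finset.mul_prod_erase univ _ (mem_univ c.1), rows_update,
    ← Finset.mul_prod_erase univ (fun j => (update y c a) (c.1, j)) (mem_univ c.2), cols_update]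
  have h : (update y c a) (c.1, c.2) = a := by
    rw [show (c.1, c.2) = c from rfl, Function.update_self]
  rw [h, mul_comm]

/-- PLAN. `Finset.mul_prod_erase` in both products. -/
theorem gam_update {t w : ℕ} (y : Fin t × Fin w → ℝ) (c : Fin t × Fin w) (a b : ℝ) :
    Gam (update y c a) - Gam (update y c b) = (b - a) * slope y c := by
  rw [gam_update_eq, gam_update_eq]
  unfold slope
  ring

theorem slope_update {t w : ℕ} (y : Fin t × Fin w → ℝ) (c : Fin t × Fin w) (a : ℝ) :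
    slope (update y c a) c = slope y c := by
  unfold slope
  rw [rows_update, cols_update]

theorem row_nonneg {t w : ℕ} {y : Fin t × Fin w → ℝ} (h0 : ∀ c, 0 ≤ y c) (h1 : ∀ c, y c ≤ 1)
    (i : Fin t) : 0 ≤ 1 - ∏ j, y (i, j) := by
  have := Finset.prod_le_one (s := (univ : Finset (Fin w))) (f := fun j => y (i, j))
    (fun j _ => h0 _) (fun j _ => h1 _)
  linarith

theorem row_le_one {t w : ℕ} {y : Fin t × Fin w → ℝ} (h0 : ∀ c, 0 ≤ y c)
    (i : Fin t) : 1 - ∏ j, y (i, j) ≤ 1 := by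
  have := Finset.prod_nonneg (s := (univ : Finset (Fin w))) (f := fun j => y (i, j))
    (fun j _ => h0 _)
  linarith

theorem slope_nonneg {t w : ℕ} {y : Fin t × Fin w → ℝ} (h0 : ∀ c, 0 ≤ y c) (h1 : ∀ c, y c ≤ 1)
    (c : Fin t × Fin w) : 0 ≤ slope y c :=
  mul_nonneg (Finset.prod_nonneg fun i _ => row_nonneg h0 h1 i)
    (Finset.prod_nonneg fun _ _ => h0 _)

theorem slope_le_one {t w : ℕ} {y : Fin t × Fin w → ℝ} (h0 : ∀ c, 0 ≤ y c) (h1 : ∀ c, y c ≤ 1)
    (c : Fin t × Fin w) : slope y c ≤ 1 := by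
  have ha : (∏ i ∈ univ.erase c.1, (1 - ∏ j, y (i, j))) ≤ 1 :=
    Finset.prod_le_one (fun i _ => row_nonneg h0 h1 i) (fun i _ => row_le_one h0 i)
  have hb : (∏ j ∈ univ.erase c.2, y (c.1, j)) ≤ 1 :=
    Finset.prod_le_one (fun j _ => h0 _) (fun j _ => h1 _)
  have hb0 : 0 ≤ ∏ j ∈ univ.erase c.2, y (c.1, j) := Finset.prod_nonneg fun j _ => h0 _
  exact mul_le_one₀ ha hb0 hb

theorem gam_nonneg {t w : ℕ} {y : Fin t × Fin w → ℝ} (h0 : ∀ c, 0 ≤ y c) (h1 : ∀ c, y c ≤ 1) :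
    0 ≤ Gam y :=
  Finset.prod_nonneg fun i _ => row_nonneg h0 h1 i

theorem gam_le_one {t w : ℕ} {y : Fin t × Fin w → ℝ} (h0 : ∀ c, 0 ≤ y c) (h1 : ∀ c, y c ≤ 1) :
    Gam y ≤ 1 :=
  Finset.prod_le_one (fun i _ => row_nonneg h0 h1 i) (fun i _ => row_le_one h0 i)

end Pool.Agent.LibHF75
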