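import Pool.Agent.LibHF75.K5

/-!
Row K6: one step of the hybrid argument.
-/

namespace Pool.Agent.LibHF75

open Finset Function

/-- The average over a variable on which the summand does not depend. -/
theorem sum_at {X K : Type} [Fintype X] [Nonempty X] [Fintype K] [DecidableEq K] (c : K)
    (f : (K → X) → X → ℝ) (hf : ∀ z x' x, f (update z c x') x = f z x) :
    ∑ z, f z (z c) = (∑ z, ∑ x, f z x) / Fintype.card X := by
  have hN : (Fintype.card X : ℝ) ≠ 0 := Nat.cast_ne_zero.2 Fintype.card_ne_zero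
  rw [eq_div_iff hN]
  let e : ((K → X) × X) ≃ ((K → X) × X) :=
    { toFun := fun p => (update p.1 c p.2, p.1 c)
      invFun := fun p => (update p.1 c p.2, p.1 c)
      left_inv := by
        rintro ⟨z, x⟩
        simp
      right_inv := by
        rintro ⟨z, x⟩
        simp }
  have h1 : ∑ p : (K → X) × X, f p.1 p.2 = ∑ p : (K → X) × X, f p.1 (p.1 c) := by
    refine (Equiv.sum_comp e fun p : (K → X) × X => f p.1 p.2).symm.trans ?_
    refine Finset.sum_congr rfl fun p _ => ?_
    exact hf p.1 p.2 (p.1 c)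
  rw [Fintype.sum_prod_type, Fintype.sum_prod_type] at h1
  rw [h1, Finset.sum_mul]
  refine Finset.sum_congr rfl fun z _ => ?_
  simp [mul_comm]

theorem pr_mem {X : Type} (A : X → Prop) (μ : X → ℝ) (h0 : ∀ x, 0 ≤ μ x) (h1 : ∀ x, μ x ≤ 1)
    (x : X) : 0 ≤ pr A μ x ∧ pr A μ x ≤ 1 := by
  have h2 := h0 x
  have h3 := h1 x
  unfold pr
  split_ifs
  · constructor <;> linarith
  · constructor <;> linarith

theorem ys_mem {X : Type} {t w : ℕ} (A : X → Prop) (μ : X → ℝ) (h0 : ∀ x, 0 ≤ μ x)
    (h1 : ∀ x, μ x ≤ 1) (s : Finset (Fin t × Fin w)) (z : Fin t × Fin w → X)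
    (c : Fin t × Fin w) : 0 ≤ ys A μ s z c ∧ ys A μ s z c ≤ 1 := by
  unfold ys
  split_ifs
  · exact pr_mem A μ h0 h1 _
  · norm_num
  · norm_num

theorem ys_update {X : Type} {t w : ℕ} (A : X → Prop) (μ : X → ℝ)
    (s : Finset (Fin t × Fin w)) (z : Fin t × Fin w → X) (c : Fin t × Fin w) (x : X) :
    ys A μ s (update z c x) = update (ys A μ s z) c (ys A μ s (update z c x) c) := by
  classical
  funext d
  by_cases hd : d = c
  · subst hd
    rw [update_self]
  · rw [update_of_ne hd]
    unfold ys
    rw [update_of_ne hd]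

theorem ys_insert {X : Type} {t w : ℕ} (A : X → Prop) (μ : X → ℝ)
    (s : Finset (Fin t × Fin w)) (z : Fin t × Fin w → X) (c : Fin t × Fin w) :
    ys A μ (insert c s) z = update (ys A μ s z) c (pr A μ (z c)) := by
  classical
  funext d
  by_cases hd : d = c
  · subst hd
    rw [update_self]
    unfold ys
    rw [if_pos (Finset.mem_insert_self _ _)]
  · rw [update_of_ne hd]
    unfold ys
    have h1 : d ∈ insert c s ↔ d ∈ s := by
      rw [Finset.mem_insert]
      exact ⟨fun h => h.resolve_left hd, Or.inr⟩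
    simp only [h1]

/-- PLAN. `ys A μ s z` and `ys A μ (insert c s) z` differ only at `c`, where they are `[A (z c)]` and
`pr A μ (z c)`; by `gam_update` the term at `z` of `Ag s - Ag (insert c s)` is
`1 / 2 * μ (z c) * vt A (fun x => M (update z c x)) (z c) * slope (ys A μ s z) c` (four cases: `M z` or not,
`A (z c)` or not; `update_eq_self`). Sum over `z`: for `f z x` not depending on `z c`,
`∑ z, f z (z c) = (∑ z, ∑ x, f z x) / card X` (`Fintype.sum_equiv`/`sum_comm` with the involution that exchanges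
`z c` and `x` on pairs `(z, x)`), and the slope does not depend on `z c` (`slope_update`); then
`slope * adv ≤ max 0 adv` as the slope is in `[0, 1]`. -/
theorem hybrid_step {X : Type} [Fintype X] [Nonempty X] {t w : ℕ} (A : X → Prop) (μ : X → ℝ)
    (h0 : ∀ x, 0 ≤ μ x) (h1 : ∀ x, μ x ≤ 1) (M : (Fin t × Fin w → X) → Prop)
    (s : Finset (Fin t × Fin w)) (c : Fin t × Fin w) (hc : c ∉ s) :
    Ag A μ M s ≤ Ag A μ M (insert c s) +
      (∑ z, max 0 (adv A μ M c z)) / (2 * Fintype.card X) := by
  classical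
  obtain ⟨f, hf⟩ : ∃ f : (Fin t × Fin w → X) → X → ℝ, ∀ z x, f z x =
      1 / 2 * μ x * vt A (fun x => M (update z c x)) x * slope (ys A μ s z) c :=
    ⟨_, fun _ _ => rfl⟩
  have hfu : ∀ z x' x, f (update z c x') x = f z x := by
    intro z x' x
    rw [hf, hf, ys_update, slope_update]
    simp only [update_idem]
  have hterm : ∀ z, (if M z then Gam (ys A μ s z) else 1 - Gam (ys A μ s z)) -
      (if M z then Gam (ys A μ (insert c s) z) else 1 - Gam (ys A μ (insert c s) z)) =
        f z (z c) := by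
    intro z
    have hy : ys A μ s z c = if A (z c) then 1 else 0 := by
      unfold ys
      rw [if_neg hc]
    have h2 := gam_update (ys A μ s z) c (ys A μ s z c) (pr A μ (z c))
    rw [update_eq_self] at h2
    rw [ys_insert, hf]
    unfold vt
    simp only [update_eq_self]
    unfold pr at h2 ⊢
    by_cases hM : M z <;> by_cases hA : A (z c)
    · rw [if_pos hM, if_pos hM]
      rw [hy, if_pos hA, if_pos hA] at h2
      rw [if_pos hA, h2, if_neg (by tauto)]
      ring
    · rw [if_pos hM, if_pos hM]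
      rw [hy, if_neg hA, if_neg hA] at h2
      rw [if_neg hA, h2, if_pos (by tauto)]
      ring
    · rw [if_neg hM, if_neg hM]
      rw [hy, if_pos hA, if_pos hA] at h2
      rw [if_pos hA, if_pos (by tauto)]
      linarith
    · rw [if_neg hM, if_neg hM]
      rw [hy, if_neg hA, if_neg hA] at h2
      rw [if_neg hA, if_neg (by tauto)]
      linarith
  have hsum : Ag A μ M s - Ag A μ M (insert c s) = ∑ z, f z (z c) := by
    unfold Ag
    rw [← Finset.sum_sub_distrib]
    exact Finset.sum_congr rfl fun z _ => hterm z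
  rw [sum_at c f hfu] at hsum
  have hle : ∀ z, ∑ x, f z x ≤ 1 / 2 * max 0 (adv A μ M c z) := by
    intro z
    have h2 : ∑ x, f z x = 1 / 2 * (slope (ys A μ s z) c * adv A μ M c z) := by
      unfold adv
      rw [Finset.mul_sum, Finset.mul_sum]
      refine Finset.sum_congr rfl fun x _ => ?_
      rw [hf]
      ring
    rw [h2]
    have h3 := slope_nonneg (fun d => (ys_mem A μ h0 h1 s z d).1)
      (fun d => (ys_mem A μ h0 h1 s z d).2) c
    have h4 := slope_le_one (fun d => (ys_mem A μ h0 h1 s z d).1)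
      (fun d => (ys_mem A μ h0 h1 s z d).2) c
    have h5 : slope (ys A μ s z) c * adv A μ M c z ≤ max 0 (adv A μ M c z) := by
      rcases le_total 0 (adv A μ M c z) with h | h
      · exact (mul_le_of_le_one_left h h4).trans (le_max_right _ _)
      · exact (mul_nonpos_of_nonneg_of_nonpos h3 h).trans (le_max_left _ _)
    linarith
  have hN : (0 : ℝ) < Fintype.card X := Nat.cast_pos.2 Fintype.card_pos
  have h6 : (∑ z, ∑ x, f z x) / (Fintype.card X : ℝ) ≤
      (∑ z, max 0 (adv A μ M c z)) / (2 * Fintype.card X) := by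
    rw [div_le_div_iff₀ hN (by positivity)]
    have h7 : ∑ z, ∑ x, f z x ≤ ∑ z, 1 / 2 * max 0 (adv A μ M c z) :=
      Finset.sum_le_sum fun z _ => hle z
    rw [← Finset.mul_sum] at h7
    nlinarith [mul_le_mul_of_nonneg_right h7 (le_of_lt hN)]
  linarith

end Pool.Agent.LibHF75
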