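import Pool.Agent.LibHF75.K4
import Pool.Agent.LibHF75.K6

/-!
Row K7: the hybrid argument.
-/

namespace Pool.Agent.LibHF75

open Finset Function

theorem hybrid_ind {X : Type} [Fintype X] [Nonempty X] {t w : ℕ} (A : X → Prop) (μ : X → ℝ)
    (h0 : ∀ x, 0 ≤ μ x) (h1 : ∀ x, μ x ≤ 1) (M : (Fin t × Fin w → X) → Prop)
    (s : Finset (Fin t × Fin w)) :
    Ag A μ M ∅ ≤ Ag A μ M s +
      ∑ c ∈ s, (∑ z, max 0 (adv A μ M c z)) / (2 * (Fintype.card X : ℝ)) := by
  classical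
  induction s using Finset.induction_on with
  | empty => simp
  | insert c s hc ih =>
    rw [Finset.sum_insert hc]
    have := hybrid_step A μ h0 h1 M s c hc
    linarith

theorem gam_empty {X : Type} {t w : ℕ} (A : X → Prop) (μ : X → ℝ) (z : Fin t × Fin w → X)
    [Decidable (Tribes A z)] :
    Gam (ys A μ ∅ z) = if Tribes A z then 0 else 1 := by
  classical
  unfold Gam
  have hy : ∀ c, ys A μ ∅ z c = if A (z c) then 1 else 0 := by
    intro c
    unfold ys
    rw [if_neg (Finset.notMem_empty c)]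
  by_cases hT : Tribes A z
  · rw [if_pos hT]
    obtain ⟨i, hi⟩ := hT
    refine Finset.prod_eq_zero (mem_univ i) ?_
    have : ∏ j, ys A μ ∅ z (i, j) = 1 := by
      refine Finset.prod_eq_one fun j _ => ?_
      rw [hy, if_pos (hi j)]
    rw [this, sub_self]
  · rw [if_neg hT]
    refine Finset.prod_eq_one fun i _ => ?_
    have : ∏ j, ys A μ ∅ z (i, j) = 0 := by
      by_contra hne
      refine hT ⟨i, fun j => ?_⟩
      by_contra hA
      exact hne (Finset.prod_eq_zero (mem_univ j) (by rw [hy, if_neg hA]))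
    rw [this, sub_zero]

theorem ys_univ {X : Type} {t w : ℕ} (A : X → Prop) (μ : X → ℝ) (z : Fin t × Fin w → X) :
    ys A μ univ z = fun c => pr A μ (z c) := by
  classical
  funext c
  unfold ys
  rw [if_pos (mem_univ c)]

open Classical in
/-- PLAN. Induction over `s` with `hybrid_step`: `Ag ∅ ≤ Ag s + (∑ c ∈ s, ...)`, `s = univ`.
`Ag ∅` is the left side (`Gam (ys ∅ z)` is `0` if `Tribes A z`, otherwise `1`), and
`Ag univ ≤ ∑ z, (1 / 2 + |Gam (pr ∘ z) - 1 / 2|)`. -/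
theorem hybrid {X : Type} [Fintype X] [Nonempty X] {t w : ℕ} (A : X → Prop) (μ : X → ℝ)
    (h0 : ∀ x, 0 ≤ μ x) (h1 : ∀ x, μ x ≤ 1) (M : (Fin t × Fin w → X) → Prop) :
    ((univ.filter fun z : Fin t × Fin w → X => (M z ↔ ¬ Tribes A z)).card : ℝ) ≤
      (Fintype.card X : ℝ) ^ (t * w) / 2 +
      ∑ z : Fin t × Fin w → X, |Gam (fun c => pr A μ (z c)) - 1 / 2| +
      (∑ c, ∑ z, max 0 (adv A μ M c z)) / (2 * Fintype.card X) := by
  have hind := hybrid_ind A μ h0 h1 M univ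
  have hleft : Ag A μ M ∅ =
      ((univ.filter fun z : Fin t × Fin w → X => (M z ↔ ¬ Tribes A z)).card : ℝ) := by
    unfold Ag
    rw [Finset.card_filter, Nat.cast_sum]
    refine Finset.sum_congr rfl fun z _ => ?_
    rw [gam_empty]
    by_cases hM : M z <;> by_cases hT : Tribes A z <;> simp [hM, hT]
  have hcard : (Fintype.card (Fin t × Fin w → X) : ℝ) = (Fintype.card X : ℝ) ^ (t * w) := by
    rw [Fintype.card_fun, Fintype.card_prod, Fintype.card_fin, Fintype.card_fin, Nat.cast_pow]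
  have hright : Ag A μ M univ ≤ (Fintype.card X : ℝ) ^ (t * w) / 2 +
      ∑ z : Fin t × Fin w → X, |Gam (fun c => pr A μ (z c)) - 1 / 2| := by
    unfold Ag
    have h3 : ∀ z : Fin t × Fin w → X,
        (if M z then Gam (ys A μ univ z) else 1 - Gam (ys A μ univ z)) ≤
          1 / 2 + |Gam (fun c => pr A μ (z c)) - 1 / 2| := by
      intro z
      rw [ys_univ]
      split_ifs
      · linarith [le_abs_self (Gam (fun c => pr A μ (z c)) - 1 / 2)]
      · linarith [neg_abs_le (Gam (fun c => pr A μ (z c)) - 1 / 2)]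
    refine (Finset.sum_le_sum fun z _ => h3 z).trans ?_
    rw [Finset.sum_add_distrib, Finset.sum_const, Finset.card_univ, nsmul_eq_mul, hcard]
    linarith
  rw [hleft] at hind
  rw [Finset.sum_div]
  linarith

open Classical in
/-- PLAN. `hybrid` and `fake` with `ε / 2`. -/
theorem positions {X : Type} [Fintype X] [Nonempty X] {t w : ℕ} {δ ε κ : ℝ} (hε : 0 ≤ ε)
    (hK : ∀ th s2 : ℝ, |th - 1 / 2| ≤ κ → 0 ≤ s2 → s2 ≤ th - δ / 4 →
      ((1 - th ^ w) ^ t - 1 / 2) ^ 2 + t * s2 ^ w ≤ (ε / 2) ^ 2)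
    (A : X → Prop) (μ : X → ℝ) (h0 : ∀ x, 0 ≤ μ x) (h1 : ∀ x, μ x ≤ 1)
    (hδ : δ * Fintype.card X ≤ ∑ x, μ x)
    (hbal : |∑ x, pr A μ x - (Fintype.card X : ℝ) / 2| ≤ κ * Fintype.card X)
    (M : (Fin t × Fin w → X) → Prop)
    (hM : (1 / 2 + ε) * (Fintype.card X : ℝ) ^ (t * w) ≤
      (univ.filter fun z : Fin t × Fin w → X => (M z ↔ ¬ Tribes A z)).card) :
    ε * Fintype.card X * (Fintype.card X : ℝ) ^ (t * w) ≤ ∑ c, ∑ z, max 0 (adv A μ M c z) := by
  have hN : (0 : ℝ) < Fintype.card X := Nat.cast_pos.2 Fintype.card_pos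
  have h2 := hybrid A μ h0 h1 M
  have h3 := fake (t := t) (w := w) (by linarith : (0 : ℝ) ≤ ε / 2) hK A μ h0 h1 hδ hbal
  have h4 : ε / 2 * (Fintype.card X : ℝ) ^ (t * w) ≤
      (∑ c, ∑ z, max 0 (adv A μ M c z)) / (2 * Fintype.card X) := by
    linarith
  rw [le_div_iff₀ (by positivity)] at h4
  linarith

end Pool.Agent.LibHF75
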