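import Mathlib

/-!
Row K9: the potential of smooth boosting.
-/

namespace Pool.Agent.LibHF75

open Finset Function

/-- The weight of a point whose sum of votes is `h`. -/
noncomputable def phi (R h : ℝ) : ℝ := max 0 (min 1 (1 - h / R))

/-- The potential times `2 * R`. -/
noncomputable def K9pot (R h : ℝ) : ℝ :=
  if h ≤ 0 then 2 * R * h else if h ≤ R then 2 * R * h - h ^ 2 else R ^ 2

theorem K9_phi_nonpos {R h : ℝ} (hR : 0 < R) (h0 : h ≤ 0) : phi R h = 1 := by
  have h1 : h / R ≤ 0 := div_nonpos_of_nonpos_of_nonneg h0 hR.le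
  unfold phi
  rw [min_eq_left (by linarith), max_eq_right (by norm_num)]

theorem K9_phi_mid {R h : ℝ} (hR : 0 < R) (h0 : 0 ≤ h) (h1 : h ≤ R) :
    2 * R * phi R h = 2 * R - 2 * h := by
  have h2 : 0 ≤ h / R := div_nonneg h0 hR.le
  have h3 : h / R ≤ 1 := (div_le_one hR).2 h1
  unfold phi
  rw [min_eq_right (by linarith), max_eq_right (by linarith)]
  field_simp

theorem K9_phi_big {R h : ℝ} (hR : 0 < R) (h1 : R ≤ h) : phi R h = 0 := by
  have h3 : 1 ≤ h / R := (one_le_div hR).2 h1
  unfold phi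
  rw [min_eq_right (by linarith), max_eq_left (by linarith)]

theorem K9_le {R h : ℝ} (hR : 0 < R) : K9pot R h ≤ R ^ 2 := by
  unfold K9pot
  split_ifs with h1 h2
  · nlinarith
  · nlinarith [sq_nonneg (R - h)]
  · exact le_refl _

theorem K9_zero (R : ℝ) : K9pot R 0 = 0 := by
  simp [K9pot]

theorem K9_step {R h v : ℝ} (hR : 1 ≤ R) (hv : v = 1 ∨ v = -1) :
    2 * R * phi R h * v - 1 ≤ K9pot R (h + v) - K9pot R h := by
  have hR0 : 0 < R := by linarith
  rcases le_or_gt h 0 with h0 | h0
  · rw [K9_phi_nonpos hR0 h0]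
    rcases hv with rfl | rfl
    · unfold K9pot
      rw [if_pos h0]
      split_ifs with h1 h2
      · nlinarith
      · nlinarith
      · nlinarith
    · unfold K9pot
      rw [if_pos h0, if_pos (by linarith)]
      nlinarith
  · rcases le_or_gt h R with h1 | h1
    · rw [K9_phi_mid hR0 h0.le h1]
      rcases hv with rfl | rfl
      · unfold K9pot
        rw [if_neg (not_le.2 h0), if_pos h1]
        split_ifs with h2 h3
        · linarith
        · nlinarith
        · nlinarith [sq_nonneg (R - h - 1)]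
      · unfold K9pot
        rw [if_neg (not_le.2 h0), if_pos h1]
        split_ifs with h2 h3
        · nlinarith [sq_nonneg (h - 1)]
        · nlinarith
        · linarith
    · rw [K9_phi_big hR0 h1.le]
      rcases hv with rfl | rfl
      · unfold K9pot
        rw [if_neg (not_le.2 h0), if_neg (not_le.2 h1), if_neg (by linarith), if_neg (by linarith)]
        linarith
      · unfold K9pot
        rw [if_neg (not_le.2 h0), if_neg (not_le.2 h1)]
        split_ifs with h2 h3
        · linarith
        · have h4 : 0 ≤ R - h + 1 := by linarith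
          have h5 : R - h + 1 < 1 := by linarith
          nlinarith
        · linarith

/-- PLAN. The potential `Ψ h := h` for `h ≤ 0`, `h - h ^ 2 / (2 * R)` for `0 ≤ h ≤ R`, `R / 2` for
`R ≤ h`; `Ψ ≤ R / 2`, `Ψ 0 = 0`, and `Ψ (h + v) - Ψ h ≥ v * phi R h - 1 / (2 * R)` for `v = 1` and `v = -1` (cases;
for `h` real and `1 ≤ R`). Telescope `∑ x, Ψ (h_l x)`. -/
theorem potential {X : Type} [Fintype X] [Nonempty X] {R γ : ℝ} (hR : 1 ≤ R) (v : ℕ → X → ℝ)
    (hv : ∀ s x, v s x = 1 ∨ v s x = -1) (τ : ℕ)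
    (hadv : ∀ l < τ, γ * Fintype.card X ≤ ∑ x, phi R (∑ s ∈ range l, v s x) * v l x) :
    τ * (γ - 1 / (2 * R)) ≤ R / 2 := by
  have hR0 : 0 < R := by linarith
  have hcard : (0 : ℝ) < Fintype.card X := by exact_mod_cast Fintype.card_pos
  have key : ∀ l ≤ τ, (l : ℝ) * (2 * R * γ - 1) * Fintype.card X ≤
      ∑ x, K9pot R (∑ s ∈ range l, v s x) := by
    intro l
    induction l with
    | zero =>
      intro _
      simp [K9_zero]
    | succ l ih =>
      intro hl
      have h1 := ih (by omega)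
      have h2 := hadv l (by omega)
      have h3 : ∑ x, (2 * R * phi R (∑ s ∈ range l, v s x) * v l x - 1) ≤
          ∑ x, (K9pot R (∑ s ∈ range (l + 1), v s x) - K9pot R (∑ s ∈ range l, v s x)) := by
        refine Finset.sum_le_sum fun x _ => ?_
        rw [Finset.sum_range_succ]
        exact K9_step hR (hv l x)
      rw [Finset.sum_sub_distrib, Finset.sum_sub_distrib] at h3
      have h4 : ∑ x, 2 * R * phi R (∑ s ∈ range l, v s x) * v l x =
          2 * R * ∑ x, phi R (∑ s ∈ range l, v s x) * v l x := by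
        rw [Finset.mul_sum]
        exact Finset.sum_congr rfl fun x _ => by ring
      have h5 : ∑ _x : X, (1 : ℝ) = Fintype.card X := by simp
      rw [h4, h5] at h3
      have h6 : 2 * R * (γ * Fintype.card X) ≤
          2 * R * ∑ x, phi R (∑ s ∈ range l, v s x) * v l x :=
        mul_le_mul_of_nonneg_left h2 (by linarith)
      push_cast
      have h7 : ((l : ℝ) + 1) * (2 * R * γ - 1) * Fintype.card X =
          (l : ℝ) * (2 * R * γ - 1) * Fintype.card X + (2 * R * (γ * Fintype.card X) - Fintype.card X) := by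
        ring
      rw [h7]
      linarith
  have h1 := key τ le_rfl
  have h2 : ∑ x, K9pot R (∑ s ∈ range τ, v s x) ≤ R ^ 2 * Fintype.card X := by
    calc ∑ x, K9pot R (∑ s ∈ range τ, v s x) ≤ ∑ _x : X, R ^ 2 :=
          Finset.sum_le_sum fun x _ => K9_le hR0
      _ = R ^ 2 * Fintype.card X := by
          rw [Finset.sum_const, nsmul_eq_mul, Finset.card_univ, mul_comm]
  have h3 : (τ : ℝ) * (2 * R * γ - 1) ≤ R ^ 2 := le_of_mul_le_mul_right (h1.trans h2) hcard
  have h4 : (τ : ℝ) * (γ - 1 / (2 * R)) = (τ : ℝ) * (2 * R * γ - 1) / (2 * R) := by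
    field_simp
  rw [h4, div_le_iff₀ (by linarith)]
  nlinarith

theorem phi_nonneg (R h : ℝ) : 0 ≤ phi R h := le_max_left _ _

theorem phi_le_one (R h : ℝ) : phi R h ≤ 1 := max_le (by norm_num) (min_le_left _ _)

theorem phi_of_nonpos {R h : ℝ} (hR : 0 < R) (h0 : h ≤ 0) : phi R h = 1 := K9_phi_nonpos hR h0

end Pool.Agent.LibHF75
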