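import Pool.Agent.LibHF75.SDefs

/-!
Row S1: concatenations and counting.
-/

namespace Pool.Agent.LibHF75

open Filter Function Pool.Agent.LibNexp Pool.Agent.LibBHN Pool.Agent.LibAV75

theorem length_cat {c n : ℕ} {f : Fin c → List Bool} (hf : ∀ i, (f i).length = n) :
    (cat f).length = c * n := by
  unfold cat
  rw [List.length_flatten, List.map_ofFn, List.sum_ofFn]
  simp [hf]

theorem cat_inj {c n : ℕ} {f g : Fin c → List Bool} (hf : ∀ i, (f i).length = n)
    (hg : ∀ i, (g i).length = n) (h : cat f = cat g) : f = g := by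
  unfold cat at h
  have h1 : (List.ofFn f).map List.length = (List.ofFn g).map List.length := by
    rw [List.map_ofFn, List.map_ofFn]
    congr 1
    funext i
    rw [Function.comp_apply, Function.comp_apply, hf, hg]
  exact List.ofFn_injective (List.eq_iff_flatten_eq.2 ⟨h, h1⟩)

private theorem S1_cons {c : ℕ} (a : List Bool) (f : Fin c → List Bool) :
    cat (Fin.cons a f : Fin (c + 1) → List Bool) = a ++ cat f := by
  unfold cat
  rw [List.ofFn_succ, List.flatten_cons, Fin.cons_zero]
  simp

theorem exists_cat {c n : ℕ} {z : List Bool} (hz : z.length = c * n) :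
    ∃ f : Fin c → List Bool, (∀ i, (f i).length = n) ∧ z = cat f := by
  induction c generalizing z with
  | zero =>
    refine ⟨fun i => i.elim0, fun i => i.elim0, ?_⟩
    rw [zero_mul, List.length_eq_zero_iff] at hz
    rw [hz]
    simp [cat]
  | succ c ih =>
    have h1 : (z.drop n).length = c * n := by
      rw [List.length_drop, hz, Nat.succ_mul, Nat.add_sub_cancel]
    obtain ⟨f, hf, hzf⟩ := ih h1
    refine ⟨Fin.cons (z.take n) f, ?_, ?_⟩
    · intro i
      refine Fin.cases ?_ (fun j => ?_) i
      · rw [Fin.cons_zero, List.length_take, hz, Nat.succ_mul]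
        omega
      · rw [Fin.cons_succ]
        exact hf j
    · rw [S1_cons, ← hzf, List.take_append_drop]

open Classical in
/-- PLAN. As `M3_cnt1` in LibAV75/M3.lean (private, may be copied). -/
theorem cnt_vec (n : ℕ) (P : List Bool → Prop) :
    cnt n P = (Finset.univ.filter fun x : List.Vector Bool n => P x.toList).card := by
  unfold cnt
  symm
  refine Finset.card_bij (fun x _ => val x.1) ?_ ?_ ?_
  · intro x hx
    rw [Finset.mem_filter] at hx ⊢
    have h1 := cnt_val_lt x.1
    have h2 := bits_val x.1
    have hl : x.1.length = n := x.2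
    rw [hl] at h1 h2
    refine ⟨Finset.mem_range.2 h1, ?_⟩
    rw [h2]
    exact hx.2
  · intro x _ y _ hxy
    have h2 := bits_val x.1
    have h3 := bits_val y.1
    have hl : x.1.length = n := x.2
    have hl' : y.1.length = n := y.2
    have hxy' : val x.1 = val y.1 := hxy
    rw [hl, hxy'] at h2
    rw [hl', h2] at h3
    exact Subtype.ext h3
  · intro m hm
    rw [Finset.mem_filter, Finset.mem_range] at hm
    refine ⟨⟨bits n m, length_bits n m⟩, ?_, val_bits hm.1⟩
    rw [Finset.mem_filter]
    exact ⟨Finset.mem_univ _, hm.2⟩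

open Classical in
/-- PLAN. `cnt_vec`, and `f ↦ ⟨cat f, _⟩` is a bijection (`cat_inj`, `exists_cat`). -/
theorem cnt_cat (c n : ℕ) (P : List Bool → Prop) :
    cnt (c * n) P = (Finset.univ.filter fun f : Fin c → List.Vector Bool n =>
      P (cat fun i => (f i).toList)).card := by
  rw [cnt_vec]
  symm
  refine Finset.card_bij (fun f _ => (⟨cat fun i => (f i).toList,
    length_cat fun i => (f i).2⟩ : List.Vector Bool (c * n))) ?_ ?_ ?_
  · intro f hf
    rw [Finset.mem_filter] at hf ⊢
    exact ⟨Finset.mem_univ _, hf.2⟩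
  · intro f _ g _ hfg
    have h1 : (cat fun i => (f i).toList) = cat fun i => (g i).toList :=
      congrArg Subtype.val hfg
    have h2 := cat_inj (n := n) (fun i => (f i).2) (fun i => (g i).2) h1
    funext i
    exact Subtype.ext (congrFun h2 i)
  · intro z hz
    rw [Finset.mem_filter] at hz
    obtain ⟨f, hf, hzf⟩ := exists_cat (c := c) (n := n) z.2
    refine ⟨fun i => ⟨f i, hf i⟩, ?_, ?_⟩
    · rw [Finset.mem_filter]
      refine ⟨Finset.mem_univ _, ?_⟩
      have h2 : P z.1 := hz.2
      rw [hzf] at h2
      exact h2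
    · exact Subtype.ext hzf.symm

end Pool.Agent.LibHF75
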