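import Pool.Agent.LibHF75.S1
import Pool.Agent.LibDual85.Ex

/-!
Row S2: concatenations and NEXP.
-/

namespace Pool.Agent.LibHF75

open Filter Function Pool.Agent.LibNexp Pool.Agent.LibBHN Pool.Agent.LibAV75

variable {O : List Bool → Bool}

private theorem S2_succ {c : ℕ} (f : Fin (c + 1) → List Bool) :
    cat f = f 0 ++ cat fun i => f i.succ := by
  unfold cat
  rw [List.ofFn_succ, List.flatten_cons]

private theorem S2_size {k : ℕ} (e : Fin k → List Bool) (i : Fin k) : (e i).length ≤ size e := by
  unfold size
  exact Finset.single_le_sum (f := fun i => (e i).length) (fun _ _ => Nat.zero_le _)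
    (Finset.mem_univ i)

private theorem S2_len {c k : ℕ} (g : Fin c → Fin k) (e : Fin k → List Bool) :
    (cat fun i => e (g i)).length ≤ c * size e := by
  unfold cat
  rw [List.length_flatten, List.map_ofFn, List.sum_ofFn]
  have h1 : ∑ i : Fin c, (List.length ∘ fun i => e (g i)) i ≤ ∑ _i : Fin c, size e :=
    Finset.sum_le_sum fun i _ => S2_size e (g i)
  refine h1.trans (le_of_eq ?_)
  simp

/-- PLAN. Induction on `c` (`List.ofFn_succ`): `cat f = f 0 ++ cat (f ∘ succ)`, `nexp_append`, `nexp_ex`. -/
theorem nexp_catRel {c k : ℕ} (g : Fin c → Fin k) (j : Fin k) :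
    NEXP O fun e : Fin k → List Bool => e j = cat fun i => e (g i) := by
  induction c generalizing k with
  | zero =>
    refine (nexp_lin (O := O) 0 0 j j).congr fun e => ?_
    have h1 : (cat fun i : Fin 0 => e (g i)) = [] := by simp [cat]
    rw [h1]
    simp
  | succ c ih =>
    have h1 : NEXP O fun e : Fin k → List Bool => ∃ z,
        (z = cat fun i : Fin c => e (g i.succ)) ∧ e j = e (g 0) ++ z := by
      refine nexp_ex (R := fun (e : Fin k → List Bool) z =>
        (z = cat fun i : Fin c => e (g i.succ)) ∧ e j = e (g 0) ++ z) ?_ PolyB.id ?_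
      · exact (ih (fun i => Fin.castLE (Nat.le_add_right k 1) (g i.succ)) (Fin.last k)).and
          (nexp_append (Fin.castLE (Nat.le_add_right k 1) (g 0)) (Fin.last k)
            (Fin.castLE (Nat.le_add_right k 1) j))
      · rintro e z ⟨-, h2⟩
        have h3 := S2_size e j
        rw [h2, List.length_append] at h3
        omega
    refine h1.congr fun e => ?_
    rw [S2_succ]
    constructor
    · rintro ⟨z, hz, h2⟩
      rw [h2, hz]
    · intro h2
      exact ⟨_, rfl, h2⟩

/-- PLAN. `nexp_catRel` and `nexp_ex` (the length of the concatenation is at most `c * size e`). -/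
theorem nexp_cat_mem {N : Lang} (hN : N ∈ NEXPLang O) {c k : ℕ} (g : Fin c → Fin k) :
    NEXP O fun e : Fin k → List Bool => (cat fun i => e (g i)) ∈ N := by
  have h1 : NEXP O fun e : Fin k → List Bool => ∃ z, (z = cat fun i => e (g i)) ∧ z ∈ N := by
    refine nexp_ex (R := fun (e : Fin k → List Bool) z => (z = cat fun i => e (g i)) ∧ z ∈ N) ?_
      ((PolyB.const c).mul PolyB.id) ?_
    · refine (nexp_catRel (fun i => Fin.castLE (Nat.le_add_right k 1) (g i)) (Fin.last k)).and ?_
      exact NEXP.reindex hN ![Fin.last k]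
    · rintro e z ⟨h2, -⟩
      rw [h2]
      exact S2_len g e
  refine h1.congr fun e => ?_
  simp

/-- From blocks to strings. PLAN. `Pool.Agent.LibDual85.nexp_exN`, `nexp_catRel`, `nexp_lin`,
`nexp_finite_forall`. -/
theorem nexp_split {c k : ℕ} {R : (Fin k → List Bool) → (Fin c → List Bool) → Prop}
    (h : NEXP O fun e : Fin (k + c) → List Bool =>
      R (low (Nat.le_add_right k c) e) (fun i => e (Fin.natAdd k i))) (i j : Fin k) :
    NEXP O fun e : Fin k → List Bool => ∃ f : Fin c → List Bool,
      (∀ s, (f s).length = (e i).length) ∧ e j = cat f ∧ R e f := by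
  refine Pool.Agent.LibDual85.nexp_exN (R := fun (e : Fin k → List Bool) (f : Fin c → List Bool) =>
    (∀ s, (f s).length = (e i).length) ∧ e j = cat f ∧ R e f) ?_ PolyB.id monotone_id ?_
  · have h1 : NEXP O fun e : Fin (k + c) → List Bool => ∀ s ∈ (Finset.univ : Finset (Fin c)),
        (e (Fin.natAdd k s)).length = 1 * (e (Fin.castLE (Nat.le_add_right k c) i)).length + 0 :=
      nexp_finite_forall _ fun s _ => nexp_lin 1 0 _ _
    have h2 := nexp_catRel (O := O) (fun s : Fin c => Fin.natAdd k s)
      (Fin.castLE (Nat.le_add_right k c) j)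
    refine (h1.and (h2.and h)).congr fun e => ?_
    simp [low]
  · rintro e z ⟨h1, -, -⟩ s
    rw [h1 s]
    exact S2_size e i

end Pool.Agent.LibHF75
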