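import Pool.Agent.LibHF75.SDefs

/-!
Row S3: certified fractions.
-/

namespace Pool.Agent.LibHF75

open Filter Function Pool.Agent.LibNexp Pool.Agent.LibBHN Pool.Agent.LibAV75

variable {O : List Bool → Bool}

private theorem s3_val_false (n : ℕ) (x : List Bool) :
    val (List.replicate n false ++ x) = 2 ^ n * val x := by
  induction n with
  | zero => simp
  | succ n ih =>
    rw [List.replicate_succ, List.cons_append]
    simp only [val]
    rw [ih, pow_succ]
    simp only [Bool.toNat_false]
    ring

private theorem s3_flat (x : List Bool) :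
    x.flatMap (fun _ => [false]) = List.replicate x.length false := by
  induction x with
  | nil => rfl
  | cons a x ih => simp [List.replicate_succ, ih]

private theorem s3_flat_nil (x : List Bool) : x.flatMap (fun _ => ([] : List Bool)) = [] := by
  induction x with
  | nil => rfl
  | cons a x ih => simp

private theorem s3_flat_id (x : List Bool) : x.flatMap (fun b => [b]) = x := by
  induction x with
  | nil => rfl
  | cons a x ih => simp

private theorem s3_cmp (i b : ℕ) : NEXP O fun e : Fin 2 → List Bool =>
    i * 2 ^ (e 0).length ≤ 2 ^ b * val (e 1) := by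
  have h1 : NEXP O fun e : Fin 4 → List Bool =>
      e 2 = List.replicate (e 0).length false ++ bits i i ∧
      e 3 = List.replicate b false ++ e 1 ∧ val (e 2) ≤ val (e 3) := by
    refine NEXP.and ?_ (NEXP.and ?_ (nexp_vLe 2 3))
    · refine ((nexp_subst (O := O) (fun _ => [false]) (fun _ => []) (bits i i)).reindex
        ![(0 : Fin 4), 0, 2]).congr fun e => ?_
      simp [s3_flat, s3_flat_nil]
    · refine ((nexp_subst (O := O) (fun _ => []) (fun b => [b]) (List.replicate b false)).reindex
        ![(1 : Fin 4), 1, 3]).congr fun e => ?_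
      simp [s3_flat_nil]
  have h2 : NEXP O fun e : Fin 3 → List Bool => ∃ r : List Bool,
      e 2 = List.replicate (e 0).length false ++ bits i i ∧
      r = List.replicate b false ++ e 1 ∧ val (e 2) ≤ val r := by
    refine nexp_ex (R := fun (e : Fin 3 → List Bool) r =>
      e 2 = List.replicate (e 0).length false ++ bits i i ∧
      r = List.replicate b false ++ e 1 ∧ val (e 2) ≤ val r)
      (h1.congr fun e => Iff.rfl) (g := fun n => n + b) (PolyB.id.add (PolyB.const b)) ?_
    rintro e z ⟨-, rfl, -⟩
    have := len_le_size e 1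
    simp only [List.length_append, List.length_replicate]
    omega
  have h3 : NEXP O fun e : Fin 2 → List Bool => ∃ p r : List Bool,
      p = List.replicate (e 0).length false ++ bits i i ∧
      r = List.replicate b false ++ e 1 ∧ val p ≤ val r := by
    refine nexp_ex (R := fun (e : Fin 2 → List Bool) p => ∃ r : List Bool,
      p = List.replicate (e 0).length false ++ bits i i ∧
      r = List.replicate b false ++ e 1 ∧ val p ≤ val r)
      (h2.congr fun e => Iff.rfl) (g := fun n => n + i) (PolyB.id.add (PolyB.const i)) ?_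
    rintro e z ⟨r, rfl, -, -⟩
    have := len_le_size e 0
    simp only [List.length_append, List.length_replicate, length_bits]
    omega
  refine h3.congr fun e => ?_
  have hc : val (bits i i) = i := val_bits Nat.lt_two_pow_self
  constructor
  · rintro ⟨p, r, rfl, rfl, h⟩
    rw [s3_val_false, s3_val_false, hc] at h
    rw [mul_comm]
    exact h
  · intro h
    refine ⟨_, _, rfl, rfl, ?_⟩
    rw [s3_val_false, s3_val_false, hc, mul_comm]
    exact h

/-- Lower bounds for fractions. PLAN. Some string `u` has length `c * |e j| + d` (`nexp_ex`, `nexp_lin`); `C1_thr`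
(LibAV75/C1.lean) for the variable `u` with `T e a := i * 2 ^ |u| ≤ 2 ^ b * a`, which is in NEXP by `nexp_vPow`,
`nexp_vMul` with constants (`nexp_const`), `nexp_vLe` and `nexp_ex`; monotone in `a`. -/
theorem nexp_frac {k : ℕ} {R : (Fin k → List Bool) → List Bool → Prop}
    (h : NEXP O fun e : Fin (k + 1) → List Bool =>
      R (low (Nat.le_add_right k 1) e) (e (Fin.last k))) (j : Fin k) (i b c d : ℕ) :
    NEXP O fun e : Fin k → List Bool =>
      i * 2 ^ (c * (e j).length + d) ≤ 2 ^ b * cnt (c * (e j).length + d) (R e) := by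
  have h1 : NEXP O fun e : Fin (k + 1 + 1) → List Bool =>
      R (low (Nat.le_add_right k 1) (low (Nat.le_add_right (k + 1) 1) e))
        (e (Fin.last (k + 1))) := by
    obtain ⟨f, hf1, hf2⟩ : ∃ f : Fin (k + 1) → Fin (k + 1 + 1), f (Fin.last k) = Fin.last (k + 1) ∧
        ∀ i : Fin k, f (Fin.castSucc i) = Fin.castSucc (Fin.castSucc i) :=
      ⟨fun i => Fin.lastCases (Fin.last (k + 1)) (fun i : Fin k => Fin.castSucc (Fin.castSucc i)) i,
        by simp, fun i => by simp⟩
    refine (h.reindex f).congr fun e => ?_
    have e1 : low (Nat.le_add_right k 1) (fun j' : Fin (k + 1) => e (f j')) =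
        low (Nat.le_add_right k 1) (low (Nat.le_add_right (k + 1) 1) e) := by
      funext i
      show e (f (Fin.castSucc i)) = e (Fin.castSucc (Fin.castSucc i))
      rw [hf2]
    rw [e1]
    show R _ (e (f (Fin.last k))) ↔ _
    rw [hf1]
  have h2 : NEXP O fun e : Fin (k + 1) → List Bool =>
      i * 2 ^ (e (Fin.last k)).length ≤
        2 ^ b * cnt (e (Fin.last k)).length (R (low (Nat.le_add_right k 1) e)) := by
    refine C1_thr (R := fun (e : Fin (k + 1) → List Bool) x => R (low (Nat.le_add_right k 1) e) x)
      h1 (Fin.last k) (T := fun e a => i * 2 ^ (e (Fin.last k)).length ≤ 2 ^ b * a) ?_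
      fun e a a' haa ha => ha.trans (Nat.mul_le_mul_left _ haa)
    refine ((s3_cmp (O := O) i b).reindex
      ![Fin.castLE (Nat.le_add_right (k + 1) 1) (Fin.last k), Fin.last (k + 1)]).congr fun e => ?_
    simp [low]
  have h3 : NEXP O fun e : Fin k → List Bool => ∃ u : List Bool,
      u.length = c * (e j).length + d ∧
      i * 2 ^ u.length ≤ 2 ^ b * cnt u.length (R e) := by
    refine nexp_ex (R := fun (e : Fin k → List Bool) u =>
      u.length = c * (e j).length + d ∧ i * 2 ^ u.length ≤ 2 ^ b * cnt u.length (R e))
      (NEXP.and ?_ h2) (g := fun n => c * n + d)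
      (((PolyB.const c).mul PolyB.id).add (PolyB.const d)) ?_
    · refine (nexp_lin (O := O) c d (Fin.castLE (Nat.le_add_right k 1) j)
        (Fin.last k)).congr fun e => ?_
      rfl
    · rintro e z ⟨hz, -⟩
      have := len_le_size e j
      rw [hz]
      exact Nat.add_le_add_right (Nat.mul_le_mul_left _ this) _
  refine h3.congr fun e => ?_
  constructor
  · rintro ⟨u, hu, h4⟩
    rw [hu] at h4
    exact h4
  · intro h4
    exact ⟨List.replicate (c * (e j).length + d) false, by simp, by simpa using h4⟩

/-- Upper bounds for fractions that depend on the length only. PLAN. `p0` (LibAV75/C7.lean) with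
`U _ n := ¬ (...)`, `nexp_frac` with `k = 2`, `j = 1`; reindex. -/
theorem nexp_frac_neg (hM : More O) {R : ℕ → List Bool → Prop}
    (h : NEXP O fun e : Fin 2 → List Bool => R (e 0).length (e 1)) {k : ℕ} (j : Fin k)
    (i b c d : ℕ) :
    NEXP O fun e : Fin k → List Bool =>
      ¬ i * 2 ^ (c * (e j).length + d) ≤ 2 ^ b * cnt (c * (e j).length + d) (R (e j).length) := by
  have h1 : NEXP O fun e : Fin 2 → List Bool =>
      i * 2 ^ (c * (e 1).length + d) ≤ 2 ^ b * cnt (c * (e 1).length + d) (R (e 1).length) := by
    refine nexp_frac (k := 2) (R := fun e x => R (e 1).length x) ?_ 1 i b c d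
    refine (h.reindex ![(1 : Fin 3), 2]).congr fun e => ?_
    rfl
  have h2 : NEXP O fun e : Fin 2 → List Bool =>
      ¬ i * 2 ^ (c * (e 1).length + d) ≤
        2 ^ b * cnt (c * (e 1).length + d) (R (e 1).length) := by
    refine p0 hM (U := fun _ n => ¬ i * 2 ^ (c * n + d) ≤ 2 ^ b * cnt (c * n + d) (R n)) ?_
    refine h1.congr fun e => ?_
    exact not_not.symm
  refine (h2.reindex ![j, j]).congr fun e => ?_
  rfl

end Pool.Agent.LibHF75
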