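import Pool.Agent.LibHF75.SDefs

/-!
Row S4: arithmetic of the values, and levels.
-/

namespace Pool.Agent.LibHF75

open Filter Function Pool.Agent.LibNexp Pool.Agent.LibBHN Pool.Agent.LibAV75

private theorem S4_pow : (2 : ℕ) ^ 20 = 1048576 := by norm_num

theorem om_le (c₀ g h : ℕ) : om c₀ g h ≤ 3 * (g + h) := by
  have h1 := S4_pow
  unfold om
  omega

/-- PLAN. `om` decreases by at most 1 if `g` increases by 1, and increases by at most 2 if `h`
increases by 1. `unfold vb om`, `omega` (the number `2 ^ 20` must be evaluated). -/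
theorem vb_mono {c₀ g h g' h' : ℕ} {b b' : Bool} (hg : g ≤ g') (hh : h ≤ h')
    (hb : b = true → b' = true) : vb c₀ b g h ≤ vb c₀ b' g' h' := by
  have h1 := S4_pow
  unfold vb om
  rcases b with _ | _ <;> rcases b' with _ | _
  · simp only [Bool.false_eq_true, if_false]
    omega
  · simp only [Bool.false_eq_true, if_false, if_true]
    omega
  · exact absurd (hb rfl) (by simp)
  · simp only [if_true]
    omega

theorem vb_le {c₀ g h : ℕ} (b : Bool) (hg : g ≤ 2 ^ 20) (hh : h ≤ 2 ^ 20) :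
    vb c₀ b g h ≤ 2 ^ 24 := by
  have h1 := S4_pow
  have h2 : (2 : ℕ) ^ 24 = 16777216 := by norm_num
  unfold vb om
  split_ifs <;> omega

theorem le_lv {n g : ℕ} {P : List Bool → Prop} : g ≤ lv n P ↔ g * 2 ^ n ≤ 2 ^ 20 * cnt n P := by
  unfold lv
  exact Nat.le_div_iff_mul_le (by positivity)

theorem lv_le (n : ℕ) (P : List Bool → Prop) : lv n P ≤ 2 ^ 20 := by
  unfold lv
  refine Nat.div_le_of_le_mul ?_
  rw [mul_comm (2 ^ n)]
  exact Nat.mul_le_mul_left _ (cnt_le n P)

open Classical in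
private theorem S4_incl (n : ℕ) (P Q : List Bool → Prop) :
    cnt n (fun x => (P x ↔ Q x)) + 2 * cnt n (fun x => P x ∨ Q x) =
      2 ^ n + cnt n P + cnt n Q := by
  have hc : (Finset.range (2 ^ n)).card = 2 ^ n := Finset.card_range _
  unfold cnt
  rw [Finset.card_filter, Finset.card_filter, Finset.card_filter, Finset.card_filter]
  rw [Finset.mul_sum, ← Finset.sum_add_distrib]
  dsimp only
  refine (Finset.sum_congr rfl (g := fun m => 1 + (if P (bits n m) then 1 else 0) +
    (if Q (bits n m) then 1 else 0)) ?_).trans ?_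
  · intro m _
    by_cases hP : P (bits n m) <;> by_cases hQ : Q (bits n m) <;> simp [hP, hQ]
  · rw [Finset.sum_add_distrib, Finset.sum_add_distrib, Finset.sum_const, hc, smul_eq_mul, mul_one]

private theorem S4_lo (n : ℕ) (P : List Bool → Prop) : lv n P * 2 ^ n ≤ 2 ^ 20 * cnt n P :=
  le_lv.1 le_rfl

private theorem S4_hi (n : ℕ) (P : List Bool → Prop) :
    2 ^ 20 * cnt n P < (lv n P + 1) * 2 ^ n := by
  by_contra hcon
  push Not at hcon
  have := le_lv.2 hcon
  omega

/-- With `α = 2 ^ 20 * cnt A / 2 ^ n` etc. as real numbers, `2 ^ 20 * err / 2 ^ n = 2 ^ 20 + α + γ - 2 * η` (inclusion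
and exclusion: `err = |G ∩ A| + |(G ∪ A)ᶜ|`, `|G ∩ A| = |G| + |A| - |G ∪ A|`), and the levels are
rounded down: the error of the formula with levels is less than 2. -/
theorem om_pos_err {n : ℕ} {P Q : List Bool → Prop}
    (h : om (lv n Q) (lv n P) (lv n fun x => P x ∨ Q x) ≠ 0) :
    2 ^ 20 * cnt n (fun x => (P x ↔ Q x)) ≤ 66 * 2 ^ n := by
  have h1 := S4_incl n P Q
  have h2 := S4_hi n Q
  have h3 := S4_hi n P
  have h4 := S4_lo n (fun x => P x ∨ Q x)
  unfold om at h
  rw [S4_pow] at *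
  have h5 : 1048576 + lv n Q + lv n P + 1 ≤ 64 + 2 * lv n (fun x => P x ∨ Q x) := by omega
  have h6 : (1048576 + lv n Q + lv n P + 1) * 2 ^ n ≤
      (64 + 2 * lv n (fun x => P x ∨ Q x)) * 2 ^ n := Nat.mul_le_mul_right _ h5
  nlinarith

theorem err_om {n : ℕ} {P Q : List Bool → Prop}
    (h : 2 ^ 15 * cnt n (fun x => (P x ↔ Q x)) ≤ 2 ^ n) :
    30 ≤ om (lv n Q) (lv n P) (lv n fun x => P x ∨ Q x) := by
  have h1 := S4_incl n P Q
  have h2 := S4_lo n Q
  have h3 := S4_lo n P
  have h4 := S4_hi n (fun x => P x ∨ Q x)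
  have h0 : (2 : ℕ) ^ 15 = 32768 := by norm_num
  rw [h0] at h
  unfold om
  rw [S4_pow] at *
  by_contra hcon
  have h5 : 64 + 2 * lv n (fun x => P x ∨ Q x) + 1 ≤ 1048576 + lv n Q + lv n P + 30 := by omega
  have h6 : (64 + 2 * lv n (fun x => P x ∨ Q x) + 1) * 2 ^ n ≤
      (1048576 + lv n Q + lv n P + 30) * 2 ^ n := Nat.mul_le_mul_right _ h5
  have h7 : 0 < 2 ^ n := by positivity
  nlinarith

end Pool.Agent.LibHF75
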