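import Pool.Agent.LibHF75.S3
import Pool.Agent.LibHF75.S4

/-!
Row S5: the values are in NEXP.
-/

namespace Pool.Agent.LibHF75

open Filter Function Pool.Agent.LibNexp Pool.Agent.LibBHN Pool.Agent.LibAV75

variable {O : List Bool → Bool}

private theorem S5_lvG {G : List Bool → List Bool → Prop}
    (hG : NEXP O fun e : Fin 2 → List Bool => G (e 0) (e 1)) (g : ℕ) :
    NEXP O fun e : Fin 2 → List Bool => g ≤ lv (e 0).length (fun x => G x (e 1)) := by
  have h1 := nexp_frac (O := O) (k := 2) (R := fun e a => G a (e 1)) ?_ 0 g 20 1 0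
  · refine h1.congr fun e => ?_
    rw [le_lv]
    simp only [one_mul, add_zero]
  · exact hG.reindex ![2, 1]

private theorem S5_lvH {A : Lang} (hA : A ∈ NEXPLang O) {G : List Bool → List Bool → Prop}
    (hG : NEXP O fun e : Fin 2 → List Bool => G (e 0) (e 1)) (g : ℕ) :
    NEXP O fun e : Fin 2 → List Bool =>
      g ≤ lv (e 0).length (fun x => G x (e 1) ∨ x ∈ A) := by
  have h1 := nexp_frac (O := O) (k := 2) (R := fun e a => G a (e 1) ∨ a ∈ A) ?_ 0 g 20 1 0
  · refine h1.congr fun e => ?_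
    rw [le_lv]
    simp only [one_mul, add_zero]
  · exact (hG.reindex ![2, 1]).or (nexp_mem hA 2)

/-- PLAN. By `vb_mono`, `lv_le` and `le_lv`: `j < vv ...` iff for some `b`, `g ≤ 2 ^ 20`, `h ≤ 2 ^ 20` with
`j < vb c₀ b g h` (finitely many, `NEXP.finite_exists`): `g ≤ lv n (G · Y)`, `h ≤ lv n (G · Y ∨ A)` (`nexp_frac` with
`b = 20`, `c = 1`, `d = 0`) and (`b = true → G x Y`). -/
theorem nexp_vv {A : Lang} (hA : A ∈ NEXPLang O) {G : List Bool → List Bool → Prop}
    (hG : NEXP O fun e : Fin 2 → List Bool => G (e 0) (e 1)) (c₀ j : ℕ) :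
    NEXP O fun e : Fin 2 → List Bool => j < vv A G c₀ (e 0).length (e 1) (e 0) := by
  classical
  obtain ⟨M, hM⟩ : ∃ M : ℕ, ∀ (n : ℕ) (P : List Bool → Prop), lv n P ≤ M := ⟨_, lv_le⟩
  have key : ∀ b : Bool, NEXP O fun e : Fin 2 → List Bool =>
      ∃ p ∈ (Finset.range (M + 1) ×ˢ Finset.range (M + 1)).filter
        (fun p : ℕ × ℕ => j < vb c₀ b p.1 p.2),
        p.1 ≤ lv (e 0).length (fun x => G x (e 1)) ∧
        p.2 ≤ lv (e 0).length (fun x => G x (e 1) ∨ x ∈ A) := fun b =>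
    NEXP.finite_exists _ fun p _ => (S5_lvG hG p.1).and (S5_lvH hA hG p.2)
  refine ((key false).or ((key true).and hG)).congr fun e => ?_
  unfold vv
  have hmem : ∀ b : Bool, j < vb c₀ b (lv (e 0).length (fun x => G x (e 1)))
      (lv (e 0).length (fun x => G x (e 1) ∨ x ∈ A)) →
      (lv (e 0).length (fun x => G x (e 1)), lv (e 0).length (fun x => G x (e 1) ∨ x ∈ A)) ∈
      (Finset.range (M + 1) ×ˢ Finset.range (M + 1)).filter
        (fun p : ℕ × ℕ => j < vb c₀ b p.1 p.2) := by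
    intro b hb
    rw [Finset.mem_filter, Finset.mem_product, Finset.mem_range, Finset.mem_range]
    exact ⟨⟨Nat.lt_succ_of_le (hM _ _), Nat.lt_succ_of_le (hM _ _)⟩, hb⟩
  constructor
  · rintro (⟨p, hp, h1, h2⟩ | ⟨⟨p, hp, h1, h2⟩, h3⟩)
    · rw [Finset.mem_filter] at hp
      exact lt_of_lt_of_le hp.2 (vb_mono h1 h2 (fun h => absurd h (by decide)))
    · rw [Finset.mem_filter] at hp
      exact lt_of_lt_of_le hp.2 (vb_mono h1 h2 (fun _ => decide_eq_true h3))
  · intro h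
    by_cases hb : G (e 0) (e 1)
    · right
      rw [decide_eq_true hb] at h
      exact ⟨⟨_, hmem true h, le_rfl, le_rfl⟩, hb⟩
    · left
      rw [decide_eq_false hb] at h
      exact ⟨_, hmem false h, le_rfl, le_rfl⟩

theorem nexp_uu {A : Lang} (hA : A ∈ NEXPLang O) {G : List Bool → List Bool → Prop}
    (hG : NEXP O fun e : Fin 2 → List Bool => G (e 0) (e 1)) (j : ℕ) :
    NEXP O fun e : Fin 2 → List Bool => j < uu A G (e 0).length (e 1) := by
  classical
  obtain ⟨M, hM⟩ : ∃ M : ℕ, ∀ (n : ℕ) (P : List Bool → Prop), lv n P ≤ M := ⟨_, lv_le⟩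
  have key : NEXP O fun e : Fin 2 → List Bool =>
      ∃ p ∈ (Finset.range (M + 1) ×ˢ Finset.range (M + 1)).filter
        (fun p : ℕ × ℕ => j < 3 * (p.1 + p.2)),
        p.1 ≤ lv (e 0).length (fun x => G x (e 1)) ∧
        p.2 ≤ lv (e 0).length (fun x => G x (e 1) ∨ x ∈ A) :=
    NEXP.finite_exists _ fun p _ => (S5_lvG hG p.1).and (S5_lvH hA hG p.2)
  refine key.congr fun e => ?_
  unfold uu
  constructor
  · rintro ⟨p, hp, h1, h2⟩
    rw [Finset.mem_filter] at hp
    exact lt_of_lt_of_le hp.2 (Nat.mul_le_mul_left 3 (Nat.add_le_add h1 h2))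
  · intro h
    refine ⟨(lv (e 0).length (fun x => G x (e 1)),
      lv (e 0).length (fun x => G x (e 1) ∨ x ∈ A)), ?_, le_rfl, le_rfl⟩
    rw [Finset.mem_filter, Finset.mem_product, Finset.mem_range, Finset.mem_range]
    exact ⟨⟨Nat.lt_succ_of_le (hM _ _), Nat.lt_succ_of_le (hM _ _)⟩, h⟩

end Pool.Agent.LibHF75
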