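import Pool.Agent.LibHF75.S1
import Pool.Agent.LibAV75.M5

/-!
Row S6: sums as numbers of strings.
-/

namespace Pool.Agent.LibHF75

open Filter Function Pool.Agent.LibNexp Pool.Agent.LibBHN Pool.Agent.LibAV75

variable {O : List Bool → Bool}

/-- PLAN. `cnt_vec`; a vector of length `m + d` is a pair; for each `Y` the number of `s` of length `d`
with `val s < f Y` is `f Y` (`M5_val` in LibAV75/M5.lean: `cnt a (fun y => val y < u) = u` for `u ≤ 2 ^ a`); see also
`M5_append`. -/
theorem cnt_sum {m d : ℕ} {f : List Bool → ℕ} (hf : ∀ Y, Y.length = m → f Y ≤ 2 ^ d) :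
    cnt (m + d) (WV f m) = ∑ Y : List.Vector Bool m, f Y.toList := by
  have h1 : ∀ x ∈ strs m, (cnt d fun y => WV f m (x ++ y)) = f x := by
    intro x hx
    have hxm := mem_strs.1 hx
    refine (M5_congr fun y _ => ?_).trans (M5_val d (f x) (hf x hxm))
    have h2 : (x ++ y).take m = x := by rw [← hxm]; exact List.take_left
    have h3 : (x ++ y).drop m = y := by rw [← hxm]; exact List.drop_left
    unfold WV
    rw [h2, h3]
  rw [M5_append, Finset.sum_congr rfl h1]
  exact Finset.sum_subtype (strs m) (fun x => mem_strs) f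

/-- PLAN. `W = Y ++ s` with `|Y| = c * |x|` and `s` one of the finitely many strings of length `d`
(`strs d`, `NEXP.finite_exists`), and `val s < f x Y`. -/
theorem nexp_WV {f : List Bool → List Bool → ℕ}
    (h : ∀ j, NEXP O fun e : Fin 2 → List Bool => j < f (e 0) (e 1)) (c d : ℕ) :
    NEXP O fun e : Fin 2 → List Bool =>
      (e 1).length = c * (e 0).length + d ∧ WV (f (e 0)) (c * (e 0).length) (e 1) := by
  have h1 : ∀ s : List Bool, NEXP O fun e : Fin 3 → List Bool =>
      (e 2).length = c * (e 0).length ∧ e 1 = e 2 ++ s ∧ val s < f (e 0) (e 2) := by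
    intro s
    refine NEXP.and ((nexp_lin c 0 0 2).congr fun e => by simp) (NEXP.and ?_ ?_)
    · refine ((nexp_subst (O := O) (fun b => [b]) (fun _ => []) s).reindex
        ![2, 2, 1]).congr fun e => ?_
      simp [misc_flatMap_nil]
    · refine ((h (val s)).reindex ![0, 2]).congr fun e => ?_
      simp
  have h2 : ∀ s : List Bool, NEXP O fun e : Fin 2 → List Bool => ∃ Y : List Bool,
      Y.length = c * (e 0).length ∧ e 1 = Y ++ s ∧ val s < f (e 0) Y := by
    intro s
    refine nexp_ex (R := fun (e : Fin 2 → List Bool) Y =>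
      Y.length = c * (e 0).length ∧ e 1 = Y ++ s ∧ val s < f (e 0) Y) (h1 s)
      (g := fun n => n) PolyB.id ?_
    rintro e Y ⟨-, h3, -⟩
    have := len_le_size e 1
    rw [h3, List.length_append] at this
    omega
  refine (NEXP.finite_exists (strs d) fun s _ => h2 s).congr fun e => ?_
  constructor
  · rintro ⟨s, hs, Y, h3, h4, h5⟩
    have hs' := mem_strs.1 hs
    refine ⟨by rw [h4, List.length_append, h3, hs'], ?_⟩
    unfold WV
    rw [h4, ← h3, List.drop_left, List.take_left]
    exact h5
  · rintro ⟨h3, h4⟩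
    refine ⟨(e 1).drop (c * (e 0).length), mem_strs.2 (by rw [List.length_drop, h3]; omega),
      (e 1).take (c * (e 0).length), ?_, (List.take_append_drop _ _).symm, h4⟩
    rw [List.length_take, h3]
    omega

end Pool.Agent.LibHF75
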