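import Mathlib

/-!
Row S7: averaging over weighted seeds.
-/

namespace Pool.Agent.LibHF75

open Finset

open Classical in
/-- PLAN. If `A x` and `θ ≤ V x` then `∑ ω y [G x y] > W / 2`, `W = ∑ ω`; if `¬ A x` and `V x < θ` then
`W - 2 * ∑ ω y [¬ G x y] < τ₀ ≤ W / 2`. Sum over the `x`: `∑ x ∑ y ω y [G x y ↔ A x] ≤ W * E`. So the number of wrong `x` is at
most `4 * E`. -/
theorem sel_count {X Y : Type} [Fintype X] [Fintype Y] (A : X → Prop) (G : X → Y → Prop)
    (ω : Y → ℕ) (E τ₀ : ℕ) (B θ : ℤ) (V : X → ℤ)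
    (hV : ∀ x, V x = B + ∑ y, (ω y : ℤ) * (if G x y then 1 else -1))
    (hθ : B < θ) (hθ2 : θ ≤ B + τ₀)
    (hE : ∀ y, ω y ≠ 0 → (univ.filter fun x => (G x y ↔ A x)).card ≤ E)
    (hW : 2 * τ₀ ≤ ∑ y, ω y) (hW0 : 0 < ∑ y, ω y) :
    (univ.filter fun x => (θ ≤ V x ↔ A x)).card ≤ 4 * E := by
  set W : ℕ := ∑ y, ω y with hWdef
  have key : ∀ x, (θ ≤ V x ↔ A x) → W ≤ 4 * ∑ y, ω y * (if (G x y ↔ A x) then 1 else 0) := by
    intro x hx
    have h1 : ∀ y, (ω y : ℤ) * (if G x y then (1 : ℤ) else -1) =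
        2 * ((ω y * (if G x y then 1 else 0) : ℕ) : ℤ) - ω y := by
      intro y
      by_cases h : G x y <;> simp [h]
      ring
    have h2 : ∑ y, (ω y : ℤ) * (if G x y then (1 : ℤ) else -1) =
        2 * ((∑ y, ω y * (if G x y then 1 else 0) : ℕ) : ℤ) - (W : ℤ) := by
      rw [Finset.sum_congr rfl (fun y _ => h1 y), Finset.sum_sub_distrib, ← Finset.mul_sum,
        hWdef]
      push_cast
      rfl
    have h3 : (∑ y, ω y * (if G x y then 1 else 0)) + (∑ y, ω y * (if G x y then 0 else 1)) = W := by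
      rw [← Finset.sum_add_distrib, hWdef]
      refine Finset.sum_congr rfl fun y _ => ?_
      by_cases h : G x y <;> simp [h]
    have h4 := hV x
    rw [h2] at h4
    by_cases hA : A x
    · have h5 : θ ≤ V x := hx.2 hA
      have h6 : ∑ y, ω y * (if (G x y ↔ A x) then 1 else 0) =
          ∑ y, ω y * (if G x y then 1 else 0) := by
        refine Finset.sum_congr rfl fun y _ => ?_
        simp [hA]
      rw [h6]
      omega
    · have h5 : ¬ θ ≤ V x := fun h => hA (hx.1 h)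
      have h6 : ∑ y, ω y * (if (G x y ↔ A x) then 1 else 0) =
          ∑ y, ω y * (if G x y then 0 else 1) := by
        refine Finset.sum_congr rfl fun y _ => ?_
        by_cases h : G x y <;> simp [hA, h]
      rw [h6]
      omega
  have h7 : (univ.filter fun x => (θ ≤ V x ↔ A x)).card * W ≤
      4 * ∑ x, ∑ y, ω y * (if (G x y ↔ A x) then 1 else 0) := by
    calc (univ.filter fun x => (θ ≤ V x ↔ A x)).card * W
        = ∑ _x ∈ univ.filter fun x => (θ ≤ V x ↔ A x), W := by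
          rw [Finset.sum_const, smul_eq_mul]
      _ ≤ ∑ x ∈ univ.filter fun x => (θ ≤ V x ↔ A x),
            4 * ∑ y, ω y * (if (G x y ↔ A x) then 1 else 0) :=
          Finset.sum_le_sum fun x hx => key x (Finset.mem_filter.1 hx).2
      _ ≤ ∑ x, 4 * ∑ y, ω y * (if (G x y ↔ A x) then 1 else 0) :=
          Finset.sum_le_sum_of_subset (Finset.filter_subset _ _)
      _ = 4 * ∑ x, ∑ y, ω y * (if (G x y ↔ A x) then 1 else 0) := by
          rw [Finset.mul_sum]
  have h8 : ∑ x, ∑ y, ω y * (if (G x y ↔ A x) then 1 else 0) ≤ W * E := by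
    rw [Finset.sum_comm, hWdef, Finset.sum_mul]
    refine Finset.sum_le_sum fun y _ => ?_
    rw [← Finset.mul_sum]
    by_cases h0 : ω y = 0
    · simp [h0]
    · refine Nat.mul_le_mul_left _ ?_
      have h9 := hE y h0
      rw [Finset.card_filter] at h9
      exact h9
  have h10 : (univ.filter fun x => (θ ≤ V x ↔ A x)).card * W ≤ 4 * E * W := by
    calc _ ≤ 4 * ∑ x, ∑ y, ω y * (if (G x y ↔ A x) then 1 else 0) := h7
      _ ≤ 4 * (W * E) := Nat.mul_le_mul_left _ h8
      _ = 4 * E * W := by ring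
  exact Nat.le_of_mul_le_mul_right h10 hW0

end Pool.Agent.LibHF75
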