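import Pool.Agent.LibHF75.S5
import Pool.Agent.LibHF75.S6
import Pool.Agent.LibHF75.S7

/-!
Row S8: selection.
-/

namespace Pool.Agent.LibHF75

open Filter Function Pool.Agent.LibNexp Pool.Agent.LibBHN Pool.Agent.LibAV75

variable {O : List Bool → Bool}

open Classical in
private theorem S8_core {X Y : Type} [Fintype X] [Fintype Y] (A : X → Prop) (G : X → Y → Prop)
    (ω : Y → ℕ) (E τ P i B : ℕ) (V : X → ℕ) (hP : 0 < P) (hτ : 0 < τ)
    (hV : ∀ x, ((V x : ℕ) : ℤ) = (B : ℤ) + ∑ y, ((ω y : ℕ) : ℤ) * (if G x y then 1 else -1))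
    (h1 : i * (τ * P) ≤ P * B) (h2 : P * B < (i + 1) * (τ * P))
    (hE : ∀ y, ω y ≠ 0 → (Finset.univ.filter fun x => (G x y ↔ A x)).card ≤ E)
    (hW : 30 * τ ≤ ∑ y, ω y) :
    (Finset.univ.filter fun x => ((i + 1) * (τ * P) ≤ P * V x ↔ A x)).card ≤ 4 * E := by
  have h1' : i * τ ≤ B := by
    have : (i * τ) * P ≤ B * P := by
      calc (i * τ) * P = i * (τ * P) := by ring
        _ ≤ P * B := h1
        _ = B * P := by ring
    exact Nat.le_of_mul_le_mul_right this hP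
  have h2' : B < (i + 1) * τ := by
    have : B * P < ((i + 1) * τ) * P := by
      calc B * P = P * B := by ring
        _ < (i + 1) * (τ * P) := h2
        _ = ((i + 1) * τ) * P := by ring
    exact Nat.lt_of_mul_lt_mul_right this
  have hsel := sel_count A G ω E τ (B : ℤ) (((i + 1) * τ : ℕ) : ℤ) (fun x => ((V x : ℕ) : ℤ))
    hV (by exact_mod_cast h2')
    (by
      have : (i + 1) * τ ≤ B + τ := by
        rw [add_mul, one_mul]
        omega
      exact_mod_cast this) hE (by omega) (by omega)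
  refine le_trans (le_of_eq ?_) hsel
  refine congrArg Finset.card ?_
  ext x
  simp only [Finset.mem_filter, Finset.mem_univ, true_and]
  have h3 : (i + 1) * (τ * P) ≤ P * V x ↔ (((i + 1) * τ : ℕ) : ℤ) ≤ ((V x : ℕ) : ℤ) := by
    rw [Nat.cast_le]
    constructor
    · intro h4
      have : ((i + 1) * τ) * P ≤ V x * P := by
        calc ((i + 1) * τ) * P = (i + 1) * (τ * P) := by ring
          _ ≤ P * V x := h4
          _ = V x * P := by ring
      exact Nat.le_of_mul_le_mul_right this hP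
    · intro h4
      calc (i + 1) * (τ * P) = P * ((i + 1) * τ) := by ring
        _ ≤ P * V x := Nat.mul_le_mul_left _ h4
  rw [h3]

private theorem S8_arith (E N : ℕ) (h : E * 2 ^ 20 ≤ 66 * N) : 2 ^ 10 * (4 * E) ≤ N := by
  omega

private theorem S8_congr {n : ℕ} {P Q : List Bool → Prop}
    (h : ∀ x : List Bool, x.length = n → (P x ↔ Q x)) : cnt n P = cnt n Q := by
  classical
  unfold cnt
  congr 1
  apply Finset.filter_congr
  intro m _
  exact h _ (length_bits n m)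

private theorem S8_vv (A : Lang) (G : List Bool → List Bool → Prop) (c₀ n : ℕ)
    (Y x : List Bool) [Decidable (G x Y)] :
    ((vv A G c₀ n Y x : ℕ) : ℤ) = ((uu A G n Y : ℕ) : ℤ) +
      ((om c₀ (lv n (fun x => G x Y)) (lv n (fun x => G x Y ∨ x ∈ A)) : ℕ) : ℤ) *
        (if G x Y then 1 else -1) := by
  have h1 := om_le c₀ (lv n (fun x => G x Y)) (lv n (fun x => G x Y ∨ x ∈ A))
  unfold vv vb uu
  by_cases h : G x Y
  · simp only [h, decide_true, if_true]
    push_cast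
    ring
  · simp only [h, decide_false, if_false, Bool.false_eq_true]
    rw [Nat.cast_sub h1]
    push_cast
    ring

/-- At one length. PLAN. `sel_count` with `X = List.Vector Bool n`, `Y = List.Vector Bool (c * n)`,
`ω Y = om (lv n A) (lv n (G · Y)) (lv n (G · Y ∨ A))`, `B = ∑ Y, uu`, `V x = ∑ Y, vv` (`cnt_sum` with `d = 24`, `vb_le`,
`lv_le`, `om_le` for the truncated subtraction), `θ = (i + 1) * 2 ^ (c * n + 24 - b)`,
`τ₀ = 2 ^ (c * n + 24 - b)`, `b = κ₀ + 24 ≤ c * n + 24`, `E = 66 * 2 ^ n / 2 ^ 20`; the weights have sum at least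
`30 * (number of good Y) ≥ 30 * 2 ^ (c * n - κ₀)` (`err_om`), `2 * τ₀ = 2 ^ (c * n - κ₀ + 1)`;
`om_pos_err`. Here `i` is the level of `B`: `i * 2 ^ M ≤ 2 ^ b * B < (i + 1) * 2 ^ M`, `M = c * n + 24`. -/
theorem select_count {A : Lang} {G : List Bool → List Bool → Prop} {c κ₀ n i : ℕ}
    (hn : κ₀ ≤ c * n)
    (hgood : 2 ^ (c * n) ≤ 2 ^ κ₀ * cnt (c * n) fun Y =>
      2 ^ 15 * cnt n (fun x => (G x Y ↔ x ∈ A)) ≤ 2 ^ n)
    (h1 : i * 2 ^ (c * n + 24) ≤ 2 ^ (κ₀ + 24) * cnt (c * n + 24) (WV (uu A G n) (c * n)))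
    (h2 : 2 ^ (κ₀ + 24) * cnt (c * n + 24) (WV (uu A G n) (c * n)) < (i + 1) * 2 ^ (c * n + 24)) :
    2 ^ 10 * cnt n (fun x => ((i + 1) * 2 ^ (c * n + 24) ≤ 2 ^ (κ₀ + 24) *
      cnt (c * n + 24) (WV (fun Y => vv A G (lv n fun x => x ∈ A) n Y x) (c * n)) ↔ x ∈ A)) ≤
      2 ^ n := by
  classical
  have hcs1 := cnt_sum (m := c * n) (d := 24) (f := uu A G n) (by
    intro Y _
    unfold uu
    have h1 := lv_le n (fun x => G x Y)
    have h2 := lv_le n (fun x => G x Y ∨ x ∈ A)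
    have h3 : (2 : ℕ) ^ 24 = 16 * 2 ^ 20 := by norm_num
    omega)
  have hcs2 : ∀ x : List Bool,
      cnt (c * n + 24) (WV (fun Y => vv A G (lv n fun x => x ∈ A) n Y x) (c * n)) =
        ∑ Y : List.Vector Bool (c * n), vv A G (lv n fun x => x ∈ A) n Y.toList x := by
    intro x
    refine cnt_sum (m := c * n) (d := 24)
      (f := fun Y => vv A G (lv n fun x => x ∈ A) n Y x) ?_
    intro Y _
    exact vb_le _ (lv_le _ _) (lv_le _ _)
  have hp : 2 ^ (c * n + 24) = 2 ^ (c * n - κ₀) * 2 ^ (κ₀ + 24) := by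
    have e0 : c * n + 24 = (c * n - κ₀) + (κ₀ + 24) := by omega
    rw [← pow_add, ← e0]
  have e1 : 2 ^ (c * n) = 2 ^ κ₀ * 2 ^ (c * n - κ₀) := by
    have e0 : c * n = κ₀ + (c * n - κ₀) := by omega
    rw [← pow_add, ← e0]
  have hpp : 0 < 2 ^ (κ₀ + 24) := by positivity
  have hτpos : 0 < 2 ^ (c * n - κ₀) := by positivity
  rw [hcs1, hp] at h1 h2
  rw [cnt_vec]
  simp only [hcs2]
  rw [hp]
  generalize 2 ^ (κ₀ + 24) = P at h1 h2 hpp ⊢
  rw [cnt_vec, e1] at hgood
  generalize 2 ^ (c * n - κ₀) = τ₀ at h1 h2 hτpos hgood ⊢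
  have hgood2 := Nat.le_of_mul_le_mul_left hgood (by positivity)
  have hdiv : 66 * 2 ^ n / 2 ^ 20 * 2 ^ 20 ≤ 66 * 2 ^ n := Nat.div_mul_le_self _ _
  refine le_trans (Nat.mul_le_mul_left _ ?_) (S8_arith (66 * 2 ^ n / 2 ^ 20) (2 ^ n) hdiv)
  have hcore := S8_core (X := List.Vector Bool n) (Y := List.Vector Bool (c * n))
    (fun x => x.toList ∈ A) (fun x Y => G x.toList Y.toList)
    (fun Y => om (lv n fun x => x ∈ A) (lv n (fun x => G x Y.toList))
      (lv n (fun x => G x Y.toList ∨ x ∈ A)))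
    (66 * 2 ^ n / 2 ^ 20) τ₀ P i (∑ Y : List.Vector Bool (c * n), uu A G n Y.toList)
    (fun x => ∑ Y : List.Vector Bool (c * n), vv A G (lv n fun x => x ∈ A) n Y.toList x.toList)
    hpp hτpos ?_ h1 h2 ?_ ?_
  · refine le_trans (le_of_eq ?_) hcore
    refine congrArg Finset.card ?_
    ext x
    simp only [Finset.mem_filter, Finset.mem_univ, true_and]
  · intro x
    push_cast
    rw [← Finset.sum_add_distrib]
    exact Finset.sum_congr rfl fun Y _ => S8_vv A G _ n Y.toList x.toList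
  · intro Y hY
    have h3 := om_pos_err hY
    rw [cnt_vec] at h3
    rw [Nat.le_div_iff_mul_le (by positivity), mul_comm]
    refine le_trans (le_of_eq ?_) h3
    refine congrArg (fun k : ℕ => 2 ^ 20 * k) ?_
    refine congrArg Finset.card ?_
    ext x
    simp only [Finset.mem_filter, Finset.mem_univ, true_and]
  · have hgood3 : τ₀ ≤ (Finset.univ.filter fun Y : List.Vector Bool (c * n) =>
        2 ^ 15 * cnt n (fun x => (G x Y.toList ↔ x ∈ A)) ≤ 2 ^ n).card := by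
      refine le_trans hgood2 (le_of_eq (congrArg Finset.card ?_))
      ext Y
      simp only [Finset.mem_filter, Finset.mem_univ, true_and]
    refine le_trans (Nat.mul_le_mul_left 30 hgood3) ?_
    rw [mul_comm, ← smul_eq_mul, ← Finset.sum_const]
    refine le_trans (Finset.sum_le_sum (g := fun Y : List.Vector Bool (c * n) =>
      om (lv n fun x => x ∈ A) (lv n (fun x => G x Y.toList))
      (lv n (fun x => G x Y.toList ∨ x ∈ A))) fun Y hY => ?_)
      (Finset.sum_le_sum_of_subset (Finset.filter_subset _ _))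
    rw [Finset.mem_filter] at hY
    exact err_om hY.2

/-- PLAN. `N` is the set of `x` such that for some `c₀ ≤ 2 ^ 20` and `i ≤ 2 ^ (κ₀ + 24)` (finite union, `n = |x|`):
`c₀` is the level of `A` and `i` the level of `B` (lower bounds `nexp_frac`, upper bounds `nexp_frac_neg`; `uu`
depends on `x` through `n` only: `nexp_uu`, `nexp_WV`), and the inequality of `select_count` with `vv A G c₀`
(`nexp_vv`, `nexp_WV`, `nexp_frac` with `k = 1`, `j = 0`, `d = 24`; counting strings `W` with the additional condition on the length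
is the same, `cnt_congr`). `select_count` gives the bound for `κ₀ ≤ c * n`; if `c = 0` then use
`κ₀ := 0`... or assume `1 ≤ c`. -/
theorem select (hM : More O) {A : Lang} (hA : A ∈ NEXPLang O)
    {G : List Bool → List Bool → Prop}
    (hG : NEXP O fun e : Fin 2 → List Bool => G (e 0) (e 1)) {c : ℕ} (hc : 1 ≤ c) (κ₀ : ℕ) :
    ∃ N ∈ NEXPLang O, ∀ᶠ n in atTop,
      (2 ^ (c * n) ≤ 2 ^ κ₀ * cnt (c * n) fun Y =>
        2 ^ 15 * cnt n (fun x => (G x Y ↔ x ∈ A)) ≤ 2 ^ n) →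
      2 ^ 10 * err Aᶜ N n ≤ 2 ^ n := by
  classical
  set b : ℕ := κ₀ + 24 with hb
  -- the four relations
  let LA : ℕ → ℕ → Prop := fun n c₀ =>
    c₀ * 2 ^ (1 * n + 0) ≤ 2 ^ 20 * cnt (1 * n + 0) (fun y => y ∈ A)
  let W1 : ℕ → List Bool → Prop := fun n W => W.length = c * n + 24 ∧ WV (uu A G n) (c * n) W
  let W2 : ℕ → List Bool → List Bool → Prop := fun c₀ x W =>
    W.length = c * x.length + 24 ∧ WV (fun Y => vv A G c₀ x.length Y x) (c * x.length) W
  let LB : ℕ → ℕ → Prop := fun n i =>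
    i * 2 ^ (c * n + 24) ≤ 2 ^ b * cnt (c * n + 24) (W1 n)
  let LV : ℕ → ℕ → List Bool → Prop := fun c₀ i x =>
    i * 2 ^ (c * x.length + 24) ≤ 2 ^ b * cnt (c * x.length + 24) (W2 c₀ x)
  have hA' : NEXP O fun e : Fin 1 → List Bool => e 0 ∈ A := hA
  have hA2 : NEXP O fun e : Fin 2 → List Bool => e 1 ∈ A := hA'.reindex (fun _ => (1 : Fin 2))
  have nW1 : NEXP O fun e : Fin 2 → List Bool => W1 (e 0).length (e 1) :=
    nexp_WV (f := fun x Y => uu A G x.length Y) (nexp_uu hA hG) c 24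
  have nW2 : ∀ c₀, NEXP O fun e : Fin 2 → List Bool => W2 c₀ (e 0) (e 1) := fun c₀ =>
    nexp_WV (f := fun x Y => vv A G c₀ x.length Y x) (nexp_vv hA hG c₀) c 24
  have nLA : ∀ c₀, NEXP O fun e : Fin 1 → List Bool => LA (e 0).length c₀ := fun c₀ =>
    nexp_frac (k := 1) (R := fun _ y => y ∈ A) hA2 0 c₀ 20 1 0
  have nLA' : ∀ c₀, NEXP O fun e : Fin 1 → List Bool => ¬ LA (e 0).length c₀ := fun c₀ =>
    nexp_frac_neg hM (k := 1) (R := fun _ y => y ∈ A) hA2 0 c₀ 20 1 0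
  have nLB : ∀ i, NEXP O fun e : Fin 1 → List Bool => LB (e 0).length i := fun i =>
    nexp_frac (k := 1) (R := fun e y => W1 (e 0).length y) nW1 0 i b c 24
  have nLB' : ∀ i, NEXP O fun e : Fin 1 → List Bool => ¬ LB (e 0).length i := fun i =>
    nexp_frac_neg hM (k := 1) (R := W1) nW1 0 i b c 24
  have nLV : ∀ c₀ i, NEXP O fun e : Fin 1 → List Bool => LV c₀ i (e 0) := fun c₀ i =>
    nexp_frac (k := 1) (R := fun e y => W2 c₀ (e 0) y) (nW2 c₀) 0 i b c 24
  refine ⟨{x | ∃ c₀ ∈ Finset.range (2 ^ 20 + 1), ∃ i ∈ Finset.range (2 ^ b + 1),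
    (LA x.length c₀ ∧ ¬ LA x.length (c₀ + 1)) ∧ (LB x.length i ∧ ¬ LB x.length (i + 1)) ∧
      LV c₀ (i + 1) x}, ?_, ?_⟩
  · change NEXP O fun e : Fin 1 → List Bool => ∃ c₀ ∈ Finset.range (2 ^ 20 + 1),
      ∃ i ∈ Finset.range (2 ^ b + 1), (LA (e 0).length c₀ ∧ ¬ LA (e 0).length (c₀ + 1)) ∧
        (LB (e 0).length i ∧ ¬ LB (e 0).length (i + 1)) ∧ LV c₀ (i + 1) (e 0)
    refine NEXP.finite_exists _ fun c₀ _ => NEXP.finite_exists _ fun i _ => ?_
    exact ((nLA c₀).and (nLA' (c₀ + 1))).and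
      (((nLB i).and (nLB' (i + 1))).and (nLV c₀ (i + 1)))
  · filter_upwards [eventually_ge_atTop κ₀] with n hn hgood
    have hcn : κ₀ ≤ c * n := by nlinarith
    have eW1 : cnt (c * n + 24) (W1 n) = cnt (c * n + 24) (WV (uu A G n) (c * n)) :=
      S8_congr fun W hW => by
        change (W.length = c * n + 24 ∧ WV (uu A G n) (c * n) W) ↔ _
        simp [hW]
    have eW2 : ∀ c₀ (x : List Bool), x.length = n → cnt (c * n + 24) (W2 c₀ x) =
        cnt (c * n + 24) (WV (fun Y => vv A G c₀ n Y x) (c * n)) := fun c₀ x hx =>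
      S8_congr fun W hW => by
        change (W.length = c * x.length + 24 ∧
          WV (fun Y => vv A G c₀ x.length Y x) (c * x.length) W) ↔ _
        rw [hx]
        simp [hW]
    have eLA : ∀ c₀, LA n c₀ ↔ c₀ ≤ lv n fun y => y ∈ A := by
      intro c₀
      change c₀ * 2 ^ (1 * n + 0) ≤ 2 ^ 20 * cnt (1 * n + 0) (fun y => y ∈ A) ↔ _
      rw [le_lv, one_mul, add_zero]
    have hMpos : 0 < 2 ^ (c * n + 24) := by positivity
    set i₀ : ℕ := 2 ^ b * cnt (c * n + 24) (WV (uu A G n) (c * n)) / 2 ^ (c * n + 24) with hi₀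
    have eLB : ∀ i, LB n i ↔ i ≤ i₀ := by
      intro i
      change i * 2 ^ (c * n + 24) ≤ 2 ^ b * cnt (c * n + 24) (W1 n) ↔ _
      rw [eW1, hi₀, Nat.le_div_iff_mul_le hMpos]
    have hi₀b : i₀ ≤ 2 ^ b := by
      rw [hi₀]
      apply Nat.div_le_of_le_mul
      rw [mul_comm]
      exact Nat.mul_le_mul_right _ (cnt_le _ _)
    have hsc := select_count (A := A) (G := G) (c := c) (κ₀ := κ₀) (n := n) (i := i₀) hcn hgood
      (Nat.div_mul_le_self _ _)
      ((Nat.div_lt_iff_lt_mul hMpos).mp (Nat.lt_succ_self _))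
    refine le_trans (le_of_eq ?_) hsc
    refine congrArg (fun k : ℕ => 2 ^ 10 * k) ?_
    unfold err
    refine S8_congr fun x hx => ?_
    have hmem : (∃ c₀ ∈ Finset.range (2 ^ 20 + 1), ∃ i ∈ Finset.range (2 ^ b + 1),
        (LA x.length c₀ ∧ ¬ LA x.length (c₀ + 1)) ∧ (LB x.length i ∧ ¬ LB x.length (i + 1)) ∧
          LV c₀ (i + 1) x) ↔ (i₀ + 1) * 2 ^ (c * n + 24) ≤ 2 ^ (κ₀ + 24) *
          cnt (c * n + 24) (WV (fun Y => vv A G (lv n fun x => x ∈ A) n Y x) (c * n)) := by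
      have eLV : ∀ c₀ i, LV c₀ i x ↔ i * 2 ^ (c * n + 24) ≤ 2 ^ (κ₀ + 24) *
          cnt (c * n + 24) (WV (fun Y => vv A G c₀ n Y x) (c * n)) := by
        intro c₀ i
        change i * 2 ^ (c * x.length + 24) ≤ 2 ^ b * cnt (c * x.length + 24) (W2 c₀ x) ↔ _
        rw [hx, eW2 c₀ x hx]
      rw [hx]
      constructor
      · rintro ⟨c₀, -, i, -, ⟨h1, h2⟩, ⟨h3, h4⟩, h5⟩
        rw [eLA] at h1 h2
        rw [eLB] at h3 h4
        rw [eLV] at h5
        have e1 : c₀ = lv n fun y => y ∈ A := by omega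
        have e2 : i = i₀ := by omega
        rw [e1, e2] at h5
        exact h5
      · intro h5
        refine ⟨lv n fun y => y ∈ A, Finset.mem_range.mpr (Nat.lt_succ_of_le (lv_le _ _)), i₀,
          Finset.mem_range.mpr (Nat.lt_succ_of_le hi₀b), ⟨?_, ?_⟩, ⟨?_, ?_⟩, ?_⟩
        · rw [eLA]
        · rw [eLA]
          omega
        · rw [eLB]
        · rw [eLB]
          omega
        · rw [eLV]
          exact h5
    rw [Set.mem_setOf_eq, hmem, Set.mem_compl_iff]
    by_cases hxA : x ∈ A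
    · simp [hxA]
    · simp [hxA]

end Pool.Agent.LibHF75
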