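import Pool.Agent.LibAV75.F2
import Pool.Agent.LibHF75.HDefs

/-!
Common definitions of the part of the project HF75 about NEXP. Strings of length `n` are the type
`List.Vector Bool n`.
-/

namespace Pool.Agent.LibHF75

open Filter Function Pool.Agent.LibNexp Pool.Agent.LibBHN Pool.Agent.LibAV75

/-- Concatenation. -/
def cat {c : ℕ} (f : Fin c → List Bool) : List Bool := (List.ofFn f).flatten

/-- Every complement of a language in NEXP is approximated by a language in NEXP with error at most
`1 / 2 - ε` (from inside if `b`). -/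
def ApE (O : List Bool → Bool) (b : Prop) (ε : ℝ) : Prop :=
  ∀ L ∈ NEXPLang O, ∃ N ∈ NEXPLang O, (b → N ⊆ Lᶜ) ∧
    ∀ᶠ m in atTop, (err Lᶜ N m : ℝ) ≤ (1 / 2 - ε) * 2 ^ m

/-- The weight of a pair of levels. -/
def om (c₀ g h : ℕ) : ℕ := (64 + 2 * h) - (2 ^ 20 + c₀ + g)

/-- The value of a pair of levels and a bit. -/
def vb (c₀ : ℕ) (b : Bool) (g h : ℕ) : ℕ :=
  if b then 3 * (g + h) + om c₀ g h else 3 * (g + h) - om c₀ g h

/-- The level of a property: `2 ^ 20` times the fraction, rounded down. -/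
noncomputable def lv (n : ℕ) (P : List Bool → Prop) : ℕ := 2 ^ 20 * cnt n P / 2 ^ n

/-- The base value of a seed `Y`. -/
noncomputable def uu (A : Lang) (G : List Bool → List Bool → Prop) (n : ℕ) (Y : List Bool) : ℕ :=
  3 * (lv n (fun x => G x Y) + lv n (fun x => G x Y ∨ x ∈ A))

open Classical in
/-- The value of a seed `Y` at `x`. -/
noncomputable def vv (A : Lang) (G : List Bool → List Bool → Prop) (c₀ n : ℕ) (Y x : List Bool) : ℕ :=
  vb c₀ (decide (G x Y)) (lv n (fun x => G x Y)) (lv n (fun x => G x Y ∨ x ∈ A))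

/-- The string `W` codes a pair of a string `Y` of length `m` and a number less than `f Y`. -/
def WV (f : List Bool → ℕ) (m : ℕ) (W : List Bool) : Prop := val (W.drop m) < f (W.take m)

/-- Balancing with the parameter `u`. -/
def Bal (a u : ℕ) (A : Lang) : Lang :=
  {z | (∃ x, z = false :: false :: x ∧ x ∈ A) ∨ (∃ x, z = false :: true :: x) ∨
    ∃ x, z = true :: false :: x ∧ 2 ^ a * val x < (2 ^ a - u) * 2 ^ x.length}

/-- The language `Tribes` over `B`. -/
def TL (t w : ℕ) (B : Lang) : Lang :=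
  {z | ∃ f : Fin (t * w) → List Bool, (∃ n, ∀ i, (f i).length = n) ∧ z = cat f ∧
    ∃ i : Fin t, ∀ j : Fin w, f (finProdFinEquiv (i, j)) ∈ B}

/-- The concatenation of blocks indexed by pairs. -/
def ct {t w : ℕ} (z : Fin t × Fin w → List Bool) : List Bool :=
  cat fun i => z (finProdFinEquiv.symm i)

/-- The mode of a string. -/
def mdS (m₀ : ℕ) (y : List Bool) : ℕ := val (y.take m₀)

/-- The predictions coded by strings `Y`. -/
def GS (t w τ m₀ : ℕ) (N : Lang) (x Y : List Bool) : Prop :=
  ∃ f : Ix t w τ → List Bool, (∀ i, (f i).length = x.length) ∧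
    Y = cat (fun i => f ((Fintype.equivFin (Ix t w τ)).symm i)) ∧
    GG (mdS m₀) (fun z => ct z ∈ N) f x

end Pool.Agent.LibHF75
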