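import Pool.Agent.LibHF75.SDefs
import Pool.Agent.LibDual85.Ex

/-!
Row T1: balancing.
-/

namespace Pool.Agent.LibHF75

open Filter Function Pool.Agent.LibNexp Pool.Agent.LibBHN Pool.Agent.LibAV75

variable {O : List Bool → Bool}

private theorem T1_pre (b b' : Bool) {k : ℕ} (i j : Fin k) :
    NEXP O fun e : Fin k → List Bool => e i = b :: b' :: e j := by
  refine ((nexp_subst (O := O) (fun _ => []) (fun b => [b]) [b, b']).reindex
    ![j, j, i]).congr fun e => ?_
  have h1 : ∀ x : List Bool, x.flatMap (fun _ => ([] : List Bool)) = [] := by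
    intro x
    induction x with
    | nil => rfl
    | cons b x ih => rw [List.flatMap_cons, ih]; rfl
  simp [h1]

private theorem T1_ineq (a u : ℕ) {k : ℕ} (i : Fin k) :
    NEXP O fun e : Fin k → List Bool => 2 ^ a * val (e i) < (2 ^ a - u) * 2 ^ (e i).length := by
  have hb1 : val (bits (a + 1) (2 ^ a)) = 2 ^ a := val_bits (Nat.pow_lt_pow_right (by norm_num)
    (Nat.lt_succ_self a))
  have hb2 : val (bits (a + 1) (2 ^ a - u)) = 2 ^ a - u := val_bits (lt_of_le_of_lt
    (Nat.sub_le _ _) (Nat.pow_lt_pow_right (by norm_num) (Nat.lt_succ_self a)))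
  have h1 : NEXP O fun e : Fin (1 + 5) → List Bool =>
      ((e 1).length = 1 * (e 0).length + 1 ∧ val (e 1) = 2 ^ (e 0).length) ∧
      (e 2 = bits (a + 1) (2 ^ a) ∧ e 3 = bits (a + 1) (2 ^ a - u)) ∧
      ((e 4).length = 1 * (e 0).length + (a + 1) ∧ val (e 4) = val (e 2) * val (e 0)) ∧
      ((e 5).length = 1 * (e 0).length + (a + 2) ∧ val (e 5) = val (e 3) * val (e 1)) ∧
      val (e 4) < val (e 5) :=
    ((nexp_lin 1 1 0 1).and (nexp_vPow 0 1)).and (((nexp_const _ 2).and (nexp_const _ 3)).and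
      (((nexp_lin 1 (a + 1) 0 4).and (nexp_vMul 2 0 4)).and
        (((nexp_lin 1 (a + 2) 0 5).and (nexp_vMul 3 1 5)).and (nexp_vLt 4 5))))
  have h2 : NEXP O fun e : Fin 1 → List Bool => ∃ f : Fin 5 → List Bool,
      ((f 0).length = 1 * (e 0).length + 1 ∧ val (f 0) = 2 ^ (e 0).length) ∧
      (f 1 = bits (a + 1) (2 ^ a) ∧ f 2 = bits (a + 1) (2 ^ a - u)) ∧
      ((f 3).length = 1 * (e 0).length + (a + 1) ∧ val (f 3) = val (f 1) * val (e 0)) ∧
      ((f 4).length = 1 * (e 0).length + (a + 2) ∧ val (f 4) = val (f 2) * val (f 0)) ∧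
      val (f 3) < val (f 4) := by
    refine Pool.Agent.LibDual85.nexp_exN (R := fun (e : Fin 1 → List Bool)
      (f : Fin 5 → List Bool) => ((f 0).length = 1 * (e 0).length + 1 ∧
        val (f 0) = 2 ^ (e 0).length) ∧
      (f 1 = bits (a + 1) (2 ^ a) ∧ f 2 = bits (a + 1) (2 ^ a - u)) ∧
      ((f 3).length = 1 * (e 0).length + (a + 1) ∧ val (f 3) = val (f 1) * val (e 0)) ∧
      ((f 4).length = 1 * (e 0).length + (a + 2) ∧ val (f 4) = val (f 2) * val (f 0)) ∧
      val (f 3) < val (f 4)) h1 (g := fun n => n + (a + 2)) (PolyB.id.add (PolyB.const (a + 2)))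
      ?_ ?_
    · intro x y hxy
      show x + (a + 2) ≤ y + (a + 2)
      omega
    · rintro e f ⟨⟨h1, -⟩, ⟨h2, h3⟩, ⟨h4, -⟩, ⟨h5, -⟩, -⟩ j
      have h6 := len_le_size e 0
      fin_cases j
      · show (f 0).length ≤ size e + (a + 2)
        omega
      · show (f 1).length ≤ size e + (a + 2)
        rw [h2, length_bits]
        omega
      · show (f 2).length ≤ size e + (a + 2)
        rw [h3, length_bits]
        omega
      · show (f 3).length ≤ size e + (a + 2)
        omega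
      · show (f 4).length ≤ size e + (a + 2)
        omega
  refine (h2.reindex ![i]).congr fun e => ?_
  simp only [Matrix.cons_val_zero]
  constructor
  · rintro ⟨f, ⟨-, h0⟩, ⟨h3, h4⟩, ⟨-, h5⟩, ⟨-, h6⟩, h7⟩
    rw [h5, h6, h3, h4, h0, hb1, hb2] at h7
    exact h7
  · intro h
    have hx := val_lt (e i)
    have hp : 0 < 2 ^ (e i).length := by positivity
    have e1 : val (bits ((e i).length + 1) (2 ^ (e i).length)) = 2 ^ (e i).length :=
      val_bits (Nat.pow_lt_pow_right (by norm_num) (Nat.lt_succ_self _))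
    have e2 : val (bits ((e i).length + (a + 1)) (2 ^ a * val (e i))) = 2 ^ a * val (e i) := by
      apply val_bits
      calc 2 ^ a * val (e i) ≤ 2 ^ a * 2 ^ (e i).length := Nat.mul_le_mul_left _ hx.le
        _ = 2 ^ ((e i).length + a) := by rw [← pow_add, add_comm]
        _ < 2 ^ ((e i).length + (a + 1)) := Nat.pow_lt_pow_right (by norm_num) (by omega)
    have e3 : val (bits ((e i).length + (a + 2)) ((2 ^ a - u) * 2 ^ (e i).length)) =
        (2 ^ a - u) * 2 ^ (e i).length := by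
      apply val_bits
      calc (2 ^ a - u) * 2 ^ (e i).length ≤ 2 ^ a * 2 ^ (e i).length :=
            Nat.mul_le_mul_right _ (Nat.sub_le _ _)
        _ = 2 ^ ((e i).length + a) := by rw [← pow_add, add_comm]
        _ < 2 ^ ((e i).length + (a + 2)) := Nat.pow_lt_pow_right (by norm_num) (by omega)
    refine ⟨![bits ((e i).length + 1) (2 ^ (e i).length), bits (a + 1) (2 ^ a),
      bits (a + 1) (2 ^ a - u), bits ((e i).length + (a + 1)) (2 ^ a * val (e i)),
      bits ((e i).length + (a + 2)) ((2 ^ a - u) * 2 ^ (e i).length)], ⟨?_, ?_⟩, ⟨rfl, rfl⟩,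
      ⟨?_, ?_⟩, ⟨?_, ?_⟩, ?_⟩
    · show (bits _ _).length = _
      rw [length_bits]
      omega
    · exact e1
    · show (bits _ _).length = _
      rw [length_bits]
      omega
    · show val (bits _ _) = val (bits _ _) * _
      rw [e2, hb1]
    · show (bits _ _).length = _
      rw [length_bits]
      omega
    · show val (bits _ _) = val (bits _ _) * val (bits _ _)
      rw [e3, hb2, e1]
    · show val (bits _ _) < val (bits _ _)
      rw [e2, e3]
      exact h

/-- PLAN. `z = [b, b'] ++ x` by `nexp_append`/`nexp_const` or `nexp_subst`; the inequality by `nexp_const`,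
`nexp_vPow`, `nexp_vMul`, `nexp_vLt`. -/
theorem bal_mem {A : Lang} (hA : A ∈ NEXPLang O) (a u : ℕ) : Bal a u A ∈ NEXPLang O := by
  have h1 : NEXP O fun e : Fin 2 → List Bool =>
      (e 0 = false :: false :: e 1 ∧ e 1 ∈ A) ∨ (e 0 = false :: true :: e 1) ∨
      (e 0 = true :: false :: e 1 ∧ 2 ^ a * val (e 1) < (2 ^ a - u) * 2 ^ (e 1).length) :=
    ((T1_pre false false 0 1).and (nexp_mem hA 1)).or ((T1_pre false true 0 1).or
      ((T1_pre true false 0 1).and (T1_ineq a u 1)))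
  have h2 : NEXP O fun e : Fin 1 → List Bool => ∃ x,
      (e 0 = false :: false :: x ∧ x ∈ A) ∨ (e 0 = false :: true :: x) ∨
      (e 0 = true :: false :: x ∧ 2 ^ a * val x < (2 ^ a - u) * 2 ^ x.length) := by
    refine nexp_ex (R := fun (e : Fin 1 → List Bool) x =>
      (e 0 = false :: false :: x ∧ x ∈ A) ∨ (e 0 = false :: true :: x) ∨
      (e 0 = true :: false :: x ∧ 2 ^ a * val x < (2 ^ a - u) * 2 ^ x.length)) h1
      (g := fun n => n) PolyB.id ?_
    rintro e x h
    have h3 := len_le_size e 0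
    have h4 : (e 0).length = x.length + 2 := by
      rcases h with h | h | h
      · rw [h.1]; rfl
      · rw [h]; rfl
      · rw [h.1]; rfl
    show x.length ≤ size e
    omega
  refine h2.congr fun e => ?_
  constructor
  · rintro ⟨x, h | h | h⟩
    · exact Or.inl ⟨x, h⟩
    · exact Or.inr (Or.inl ⟨x, h⟩)
    · exact Or.inr (Or.inr ⟨x, h⟩)
  · rintro (⟨x, h⟩ | ⟨x, h⟩ | ⟨x, h⟩)
    · exact ⟨x, Or.inl h⟩
    · exact ⟨x, Or.inr (Or.inl h)⟩
    · exact ⟨x, Or.inr (Or.inr h)⟩

private theorem T1_ff (a u : ℕ) (A : Lang) (x : List Bool) :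
    false :: false :: x ∈ Bal a u A ↔ x ∈ A := by
  constructor
  · rintro (⟨y, h, hy⟩ | ⟨y, h⟩ | ⟨y, h, hy⟩)
    · have h1 : x = y := by simpa using h
      rwa [h1]
    · simp at h
    · simp at h
  · intro h
    exact Or.inl ⟨x, rfl, h⟩

private theorem T1_ft (a u : ℕ) (A : Lang) (x : List Bool) :
    false :: true :: x ∈ Bal a u A ↔ True := by
  refine ⟨fun _ => trivial, fun _ => Or.inr (Or.inl ⟨x, rfl⟩)⟩

private theorem T1_tf (a u : ℕ) (A : Lang) (x : List Bool) :
    true :: false :: x ∈ Bal a u A ↔ 2 ^ a * val x < (2 ^ a - u) * 2 ^ x.length := by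
  constructor
  · rintro (⟨y, h, hy⟩ | ⟨y, h⟩ | ⟨y, h, hy⟩)
    · simp at h
    · simp at h
    · have h1 : x = y := by simpa using h
      rwa [h1]
  · intro h
    exact Or.inr (Or.inr ⟨x, rfl, h⟩)

private theorem T1_tt (a u : ℕ) (A : Lang) (x : List Bool) :
    true :: true :: x ∈ Bal a u A ↔ False := by
  constructor
  · rintro (⟨y, h, hy⟩ | ⟨y, h⟩ | ⟨y, h, hy⟩)
    · simp at h
    · simp at h
    · simp at h
  · exact False.elim

/-- PLAN. `M5_cons` twice (LibAV75/M5.lean) and `M5_val`. -/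
theorem bal_cnt {n a u : ℕ} (hn : a ≤ n) (hu : u ≤ 2 ^ a) (A : Lang) :
    cnt (n + 2) (fun z => z ∈ Bal a u A) =
      cnt n (fun x => x ∈ A) + 2 ^ n + (2 ^ a - u) * 2 ^ (n - a) := by
  have e0 : n + 2 = 1 + (1 + n) := by omega
  rw [e0, M5_cons, M5_cons, M5_cons, M5_congr (fun x _ => T1_ff a u A x),
    M5_congr (fun x _ => T1_ft a u A x), M5_congr (fun x _ => T1_tf a u A x),
    M5_congr (fun x _ => T1_tt a u A x), M5_const n True, M5_const n False, if_pos trivial,
    if_neg not_false, add_zero]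
  congr 1
  have h1 : cnt n (fun x => 2 ^ a * val x < (2 ^ a - u) * 2 ^ x.length) =
      cnt n (fun x => val x < (2 ^ a - u) * 2 ^ (n - a)) := by
    refine M5_congr fun x hx => ?_
    have h2 : (2 ^ a - u) * 2 ^ n = 2 ^ a * ((2 ^ a - u) * 2 ^ (n - a)) := by
      have h3 : 2 ^ n = 2 ^ a * 2 ^ (n - a) := by rw [← pow_add, Nat.add_sub_cancel' hn]
      rw [h3]
      ring
    rw [hx, h2]
    exact Nat.mul_lt_mul_left (by positivity)
  rw [h1]
  apply M5_val
  calc (2 ^ a - u) * 2 ^ (n - a) ≤ 2 ^ a * 2 ^ (n - a) := Nat.mul_le_mul_right _ (Nat.sub_le _ _)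
    _ = 2 ^ n := by rw [← pow_add, Nat.add_sub_cancel' hn]

theorem bal_err (n a u : ℕ) (A N : Lang) :
    err Aᶜ {x | false :: false :: x ∈ N} n ≤ err (Bal a u A)ᶜ N (n + 2) := by
  have e0 : n + 2 = 1 + (1 + n) := by omega
  rw [err, err, e0, M5_cons, M5_cons]
  refine le_trans (le_of_eq ?_) ((Nat.le_add_right _ _).trans (Nat.le_add_right _ _))
  refine M5_congr fun x _ => ?_
  have h1 : (x ∈ Aᶜ) ↔ (false :: false :: x ∈ (Bal a u A)ᶜ) := by
    rw [Set.mem_compl_iff, Set.mem_compl_iff, T1_ff]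
  rw [h1]
  rfl

end Pool.Agent.LibHF75
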