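import Pool.Agent.LibHF75.S2

/-!
Row T2: the language of blocks.
-/

namespace Pool.Agent.LibHF75

open Filter Function Pool.Agent.LibNexp Pool.Agent.LibBHN Pool.Agent.LibAV75

variable {O : List Bool → Bool}

/-- PLAN. As `nexp_split`, with one more string for the common length; finite union over `i`, finite
conjunction over `j`. -/
theorem tl_mem {B : Lang} (hB : B ∈ NEXPLang O) {t w : ℕ} (ht : 1 ≤ t) (hw : 1 ≤ w) :
    TL t w B ∈ NEXPLang O := by
  have h1 : NEXP O fun e : Fin (2 + t * w) → List Bool =>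
      ∃ i : Fin t, ∀ j : Fin w, (fun s => e (Fin.natAdd 2 s)) (finProdFinEquiv (i, j)) ∈ B := by
    have h2 : ∀ i : Fin t, NEXP O fun e : Fin (2 + t * w) → List Bool =>
        ∀ j : Fin w, e (Fin.natAdd 2 (finProdFinEquiv (i, j))) ∈ B := by
      intro i
      refine (nexp_finite_forall (O := O) (k := 2 + t * w) (Finset.univ : Finset (Fin w))
        (R := fun j e => e (Fin.natAdd 2 (finProdFinEquiv (i, j))) ∈ B)
        fun j _ => nexp_mem hB _).congr fun e => ?_
      simp
    refine (NEXP.finite_exists (O := O) (k := 2 + t * w) (Finset.univ : Finset (Fin t))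
      (R := fun i e => ∀ j : Fin w, e (Fin.natAdd 2 (finProdFinEquiv (i, j))) ∈ B)
      fun i _ => h2 i).congr fun e => ?_
    simp
  have h3 : NEXP O fun e : Fin 2 → List Bool => ∃ f : Fin (t * w) → List Bool,
      (∀ s, (f s).length = (e 1).length) ∧ e 0 = cat f ∧
        ∃ i : Fin t, ∀ j : Fin w, f (finProdFinEquiv (i, j)) ∈ B :=
    nexp_split (O := O) (c := t * w) (k := 2)
      (R := fun _ f => ∃ i : Fin t, ∀ j : Fin w, f (finProdFinEquiv (i, j)) ∈ B) h1 1 0
  have h4 : NEXP O fun e : Fin 1 → List Bool => ∃ y : List Bool, ∃ f : Fin (t * w) → List Bool,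
      (∀ s, (f s).length = y.length) ∧ e 0 = cat f ∧
        ∃ i : Fin t, ∀ j : Fin w, f (finProdFinEquiv (i, j)) ∈ B := by
    refine nexp_ex (R := fun (e : Fin 1 → List Bool) y => ∃ f : Fin (t * w) → List Bool,
      (∀ s, (f s).length = y.length) ∧ e 0 = cat f ∧
        ∃ i : Fin t, ∀ j : Fin w, f (finProdFinEquiv (i, j)) ∈ B) h3
      (g := fun n => n) PolyB.id ?_
    rintro e y ⟨f, hf, hc, -⟩
    have h5 := len_le_size e 0
    have h6 := length_cat hf
    rw [← hc] at h6
    have h7 : 1 * y.length ≤ t * w * y.length :=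
      Nat.mul_le_mul_right _ (Nat.mul_pos ht hw)
    show y.length ≤ size e
    omega
  refine h4.congr fun e => ?_
  constructor
  · rintro ⟨y, f, hf, hc, hi⟩
    exact ⟨f, ⟨y.length, hf⟩, hc, hi⟩
  · rintro ⟨f, ⟨n, hf⟩, hc, hi⟩
    exact ⟨List.replicate n false, f, fun s => by rw [hf, List.length_replicate], hc, hi⟩

/-- PLAN. The common length is determined by the length of the concatenation as `1 ≤ t * w`; `cat_inj`. -/
theorem tl_iff {B : Lang} {t w n : ℕ} (ht : 1 ≤ t) (hw : 1 ≤ w)
    (z : Fin t × Fin w → List.Vector Bool n) :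
    ct (fun c => (z c).toList) ∈ TL t w B ↔ Tribes (fun v : List.Vector Bool n => v.toList ∈ B) z := by
  have htw : 0 < t * w := Nat.mul_pos ht hw
  have hg : ∀ i : Fin (t * w), ((fun i => (z (finProdFinEquiv.symm i)).toList) i).length = n :=
    fun i => (z _).toList_length
  constructor
  · rintro ⟨f, ⟨n', hf⟩, hc, i, hi⟩
    have hc' : cat (fun i => (z (finProdFinEquiv.symm i)).toList) = cat f := hc
    have h1 := length_cat hf
    rw [← hc', length_cat hg] at h1
    have h2 : n = n' := Nat.eq_of_mul_eq_mul_left htw h1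
    subst h2
    have h3 := cat_inj hg hf hc'
    refine ⟨i, fun j => ?_⟩
    have h4 := hi j
    rw [← h3] at h4
    simpa using h4
  · rintro ⟨i, hi⟩
    refine ⟨fun i => (z (finProdFinEquiv.symm i)).toList, ⟨n, hg⟩, rfl, i, fun j => ?_⟩
    simpa using hi j

private theorem T2_of {α : Type} [Fintype α] {p : α → Prop} (inst : DecidablePred p) {a : α}
    (h : a ∈ @Finset.filter α p inst Finset.univ) : p a := (Finset.mem_filter.1 h).2

private theorem T2_mk {α : Type} [Fintype α] {p : α → Prop} (inst : DecidablePred p) {a : α}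
    (h : p a) : a ∈ @Finset.filter α p inst Finset.univ :=
  Finset.mem_filter.2 ⟨Finset.mem_univ _, h⟩

open Classical in
/-- PLAN. `cnt_cat`, the bijection `finProdFinEquiv` of the indices, `tl_iff`. -/
theorem tl_err {B N : Lang} {t w n : ℕ} (ht : 1 ≤ t) (hw : 1 ≤ w) :
    err (TL t w B)ᶜ N (t * w * n) = (Finset.univ.filter
      fun z : Fin t × Fin w → List.Vector Bool n => (ct (fun c => (z c).toList) ∈ N ↔
        Tribes (fun v : List.Vector Bool n => v.toList ∈ B) z)).card := by
  rw [err, cnt_cat]
  refine Finset.card_bij (fun f _ => fun c => f (finProdFinEquiv c)) ?_ ?_ ?_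
  · intro f hf
    have h2 := T2_of _ hf
    refine T2_mk _ ?_
    have h1 : ct (fun c => (f (finProdFinEquiv c)).toList) = cat fun i => (f i).toList := by
      unfold ct
      simp only [Equiv.apply_symm_apply]
    rw [← tl_iff ht hw, h1]
    rw [Set.mem_compl_iff] at h2
    tauto
  · intro f _ f' _ h
    funext i
    have h1 := congrFun h (finProdFinEquiv.symm i)
    simp only [Equiv.apply_symm_apply] at h1
    exact h1
  · intro z hz
    have h2 := T2_of _ hz
    refine ⟨fun i => z (finProdFinEquiv.symm i), ?_, ?_⟩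
    · refine T2_mk _ ?_
      rw [← tl_iff ht hw] at h2
      have h3 : (cat fun i => ((fun i => z (finProdFinEquiv.symm i)) i).toList) =
          ct (fun c => (z c).toList) := rfl
      rw [h3, Set.mem_compl_iff]
      tauto
    · funext c
      simp only [Equiv.symm_apply_apply]

end Pool.Agent.LibHF75
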