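import Pool.Agent.LibHF75.S2

/-!
Row T3: the predictions coded by strings.
-/

namespace Pool.Agent.LibHF75

open Filter Function Pool.Agent.LibNexp Pool.Agent.LibBHN Pool.Agent.LibAV75

variable {O : List Bool → Bool}

private theorem T3_md {m₀ l : ℕ} (hl : l < 2 ^ m₀) (y : List Bool) :
    mdS m₀ y = l ↔ (bits m₀ l <+: y) ∨
      ∃ a ∈ (Finset.range m₀).filter (fun a => l < 2 ^ a), y = bits a l := by
  unfold mdS
  constructor
  · intro h
    rcases le_or_gt m₀ y.length with h1 | h1
    · left
      have hl2 : (y.take m₀).length = m₀ := by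
        rw [List.length_take]
        omega
      have h3 := bits_val (y.take m₀)
      rw [hl2, h] at h3
      rw [h3]
      exact List.take_prefix _ _
    · right
      rw [List.take_of_length_le h1.le] at h
      refine ⟨y.length, ?_, ?_⟩
      · rw [Finset.mem_filter, Finset.mem_range, ← h]
        exact ⟨h1, cnt_val_lt y⟩
      · have h3 := bits_val y
        rw [h] at h3
        exact h3.symm
  · rintro (⟨r, rfl⟩ | ⟨a, ha, rfl⟩)
    · rw [List.take_left' (length_bits m₀ l), val_bits hl]
    · rw [Finset.mem_filter, Finset.mem_range] at ha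
      rw [List.take_of_length_le (by rw [length_bits]; exact ha.1.le), val_bits ha.2]

private theorem T3_nmd {k : ℕ} (m₀ l : ℕ) (i : Fin k) :
    NEXP O fun e : Fin k → List Bool => mdS m₀ (e i) = l := by
  by_cases hl : l < 2 ^ m₀
  · refine NEXP.congr ((nexp_prefix (bits m₀ l) i).or (NEXP.finite_exists
      ((Finset.range m₀).filter (fun a => l < 2 ^ a))
      (R := fun a e => e i = bits a l) fun a _ => nexp_const (bits a l) i)) fun e => ?_
    exact (T3_md hl (e i)).symm
  · refine NEXP.congr nexp_false fun e => ?_
    constructor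
    · intro h
      exact h.elim
    · intro h
      apply hl
      rw [← h]
      unfold mdS
      refine (cnt_val_lt _).trans_le (Nat.pow_le_pow_right (by norm_num) ?_)
      rw [List.length_take]
      exact min_le_left _ _

private theorem T3_npv {N : Lang} (hN : N ∈ NEXPLang O) {k t w : ℕ} (m₀ : ℕ) (y x : Fin k)
    (z : Fin t × Fin w → Fin k) :
    NEXP O fun e : Fin k → List Bool =>
      pv (mdS m₀) (fun z => ct z ∈ N) (e y) (fun c => e (z c)) (e x) := by
  have h1 : ∀ c : Fin t × Fin w, NEXP O fun e : Fin k → List Bool =>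
      ct (update (fun c => e (z c)) c (e x)) ∈ N := by
    intro c
    refine NEXP.congr (nexp_cat_mem hN
      (fun i => update z c x (finProdFinEquiv.symm i))) fun e => ?_
    unfold ct
    have h2 : ∀ i, e (update z c x i) = update (fun c => e (z c)) c (e x) i := by
      intro i
      by_cases hi : i = c
      · subst hi
        simp
      · simp [hi]
    simp only [h2]
  refine NEXP.congr ((NEXP.finite_exists (Finset.univ : Finset (Fin t × Fin w))
    (R := fun c e => mdS m₀ (e y) = (finProdFinEquiv c : ℕ) ∧
      ct (update (fun c => e (z c)) c (e x)) ∈ N)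
    fun c _ => (T3_nmd m₀ _ y).and (h1 c)).or (T3_nmd m₀ (t * w) y)) fun e => ?_
  unfold pv
  simp

private theorem T3_nGG {N : Lang} (hN : N ∈ NEXPLang O) {k t w τ : ℕ} (m₀ : ℕ) (x : Fin k)
    (v : Ix t w τ → Fin k) :
    NEXP O fun e : Fin k → List Bool =>
      GG (mdS m₀) (fun z => ct z ∈ N) (fun i => e (v i)) (e x) := by
  classical
  refine NEXP.congr (NEXP.finite_exists (Finset.range (2 ^ m₀))
    (R := fun l e => mdS m₀ (e (v none)) = l ∧
      ∃ T ∈ (Finset.univ : Finset (Finset (Fin τ))).filter
        (fun T : Finset (Fin τ) => l < 2 * T.card ∧ ∀ s : Fin τ, s ∈ T → (s : ℕ) < l), ∀ s ∈ T,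
        pv (mdS m₀) (fun z => ct z ∈ N) (e (v (some (s, none))))
          (fun c => e (v (some (s, some c)))) (e x))
    fun l _ => (T3_nmd m₀ l (v none)).and (NEXP.finite_exists _ fun T _ =>
      nexp_finite_forall T fun s _ => T3_npv hN m₀ (v (some (s, none))) x
        (fun c => v (some (s, some c))))) fun e => ?_
  unfold GG
  constructor
  · rintro ⟨l, -, hl, T, hT, h⟩
    rw [Finset.mem_filter] at hT
    rw [hl]
    refine hT.2.1.trans_le (Nat.mul_le_mul_left 2 (Finset.card_le_card ?_))
    intro s hs
    rw [Finset.mem_filter]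
    exact ⟨Finset.mem_univ _, hT.2.2 s hs, h s hs⟩
  · intro h
    refine ⟨mdS m₀ (e (v none)), ?_, rfl, Finset.univ.filter fun s : Fin τ =>
        (s : ℕ) < mdS m₀ (e (v none)) ∧
        pv (mdS m₀) (fun z => ct z ∈ N) (e (v (some (s, none))))
          (fun c => e (v (some (s, some c)))) (e x), ?_, ?_⟩
    · rw [Finset.mem_range]
      unfold mdS
      refine (cnt_val_lt _).trans_le (Nat.pow_le_pow_right (by norm_num) ?_)
      rw [List.length_take]
      exact min_le_left _ _
    · rw [Finset.mem_filter]
      refine ⟨Finset.mem_univ _, ?_, fun s hs => ?_⟩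
      · refine h.trans_le (le_of_eq ?_)
        refine congrArg (fun k : ℕ => 2 * k) (congrArg Finset.card ?_)
        ext s
        simp only [Finset.mem_filter, Finset.mem_univ, true_and]
      · rw [Finset.mem_filter] at hs
        exact hs.2.1
    · intro s hs
      rw [Finset.mem_filter] at hs
      exact hs.2.2

open Classical in
private theorem T3_GG {N : Lang} {t w τ m₀ n : ℕ} (Y : Ix t w τ → List.Vector Bool n)
    (x : List.Vector Bool n) :
    GG (mdS m₀) (fun z : Fin t × Fin w → List Bool => ct z ∈ N) (fun i => (Y i).toList)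
      x.toList ↔
      GG (fun v : List.Vector Bool n => mdS m₀ v.toList)
        (fun z => ct (fun c => (z c).toList) ∈ N) Y x := by
  unfold GG
  have h : ∀ s : Fin τ, pv (mdS m₀) (fun z : Fin t × Fin w → List Bool => ct z ∈ N)
      (Y (some (s, none))).toList (fun c => (Y (some (s, some c))).toList) x.toList ↔
      pv (fun v : List.Vector Bool n => mdS m₀ v.toList)
        (fun z => ct (fun c => (z c).toList) ∈ N) (Y (some (s, none)))
        (fun c => Y (some (s, some c))) x := by
    intro s
    unfold pv
    have h2 : ∀ c : Fin t × Fin w, update (fun c => (Y (some (s, some c))).toList) c x.toList =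
        fun c' => (update (fun c => Y (some (s, some c))) c x c').toList := by
      intro c
      funext c'
      by_cases hc : c' = c
      · subst hc
        simp
      · simp [hc]
    simp only [h2]
  have hcard : (Finset.univ.filter fun s : Fin τ => (s : ℕ) < mdS m₀ (Y none).toList ∧
      pv (mdS m₀) (fun z : Fin t × Fin w → List Bool => ct z ∈ N)
      (Y (some (s, none))).toList (fun c => (Y (some (s, some c))).toList) x.toList) =
      (Finset.univ.filter fun s : Fin τ => (s : ℕ) < mdS m₀ (Y none).toList ∧
      pv (fun v : List.Vector Bool n => mdS m₀ v.toList)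
        (fun z => ct (fun c => (z c).toList) ∈ N) (Y (some (s, none)))
        (fun c => Y (some (s, some c))) x) := by
    ext s
    simp only [Finset.mem_filter, Finset.mem_univ, true_and, h]
  rw [hcard]

open Classical in
/-- PLAN. The number of vectors of length `n` with a given prefix of length `m₀`. -/
theorem md_cnt {n m₀ m : ℕ} (hn : m₀ ≤ n) (hm : m < 2 ^ m₀) :
    2 ^ m₀ * (Finset.univ.filter fun y : List.Vector Bool n => mdS m₀ y.toList = m).card =
      2 ^ n := by
  classical
  have hlen : (bits m₀ m).length = m₀ := length_bits m₀ m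
  have hcard : (Finset.univ.filter fun y : List.Vector Bool n => mdS m₀ y.toList = m).card =
      2 ^ (n - m₀) := by
    have h0 : Fintype.card (List.Vector Bool (n - m₀)) = 2 ^ (n - m₀) := by
      rw [card_vector, Fintype.card_bool]
    rw [← h0, ← Finset.card_univ]
    symm
    refine Finset.card_bij (fun s _ => (⟨bits m₀ m ++ s.toList, by
      rw [List.length_append, hlen, List.Vector.toList_length]; omega⟩ : List.Vector Bool n))
      ?_ ?_ ?_
    · intro s _
      rw [Finset.mem_filter]
      refine ⟨Finset.mem_univ _, ?_⟩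
      change val ((bits m₀ m ++ s.toList).take m₀) = m
      rw [List.take_left' hlen, val_bits hm]
    · intro s _ s' _ h
      have h2 := congrArg List.Vector.toList h
      change bits m₀ m ++ s.toList = bits m₀ m ++ s'.toList at h2
      exact List.Vector.toList_injective (List.append_cancel_left h2)
    · intro y hy
      rw [Finset.mem_filter] at hy
      have hy2 : val (y.toList.take m₀) = m := hy.2
      have hl : (y.toList.take m₀).length = m₀ := by
        rw [List.length_take, List.Vector.toList_length]
        omega
      have h3 : y.toList.take m₀ = bits m₀ m := by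
        have := bits_val (y.toList.take m₀)
        rw [hl, hy2] at this
        exact this.symm
      refine ⟨⟨y.toList.drop m₀, by rw [List.length_drop, List.Vector.toList_length]⟩,
        Finset.mem_univ _, ?_⟩
      apply List.Vector.toList_injective
      change bits m₀ m ++ y.toList.drop m₀ = y.toList
      rw [← h3, List.take_append_drop]
  rw [hcard, ← pow_add]
  have e0 : m₀ + (n - m₀) = n := by omega
  rw [e0]

/-- PLAN. `nexp_split` (through `Fintype.equivFin`). `GG` with `M z := ct z ∈ N` is a finite union over
`l < 2 ^ m₀` and over the sets `T` of `s : Fin τ` with `s < l` and `l < 2 * T.card` of: `mdS m₀ (f none) = l`, and `pv` for all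
`s ∈ T`. `mdS m₀ y = l` is a finite union of conditions `y.take m₀ = v` (`v` of length `m₀` a prefix of `y`:
`nexp_prefix`; or `y = v` shorter: `nexp_const`). `pv` is a finite union over the positions `c`; `update` of a family of variables is a
family of variables: `nexp_cat_mem`. -/
theorem gs_mem {N : Lang} (hN : N ∈ NEXPLang O) (t w τ m₀ : ℕ) :
    NEXP O fun e : Fin 2 → List Bool => GS t w τ m₀ N (e 0) (e 1) := by
  have h := nexp_split (O := O) (c := Fintype.card (Ix t w τ)) (k := 2)
    (R := fun e f => GG (mdS m₀) (fun z => ct z ∈ N)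
      (fun i => f (Fintype.equivFin (Ix t w τ) i)) (e 0))
    (T3_nGG hN m₀ (Fin.castLE (Nat.le_add_right 2 _) 0)
      (fun i => Fin.natAdd 2 (Fintype.equivFin (Ix t w τ) i))) 0 1
  refine NEXP.congr h fun e => ?_
  unfold GS
  constructor
  · rintro ⟨f, h1, h2, h3⟩
    refine ⟨fun i => f (Fintype.equivFin (Ix t w τ) i), fun i => h1 _, ?_, h3⟩
    rw [h2]
    simp only [Equiv.apply_symm_apply]
  · rintro ⟨f, h1, h2, h3⟩
    refine ⟨fun i => f ((Fintype.equivFin (Ix t w τ)).symm i), fun i => h1 _, h2, ?_⟩
    simp only [Equiv.symm_apply_apply]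
    exact h3

/-- PLAN. `cat_inj` for the family `f` of `GS`. -/
theorem gs_iff {N : Lang} {t w τ m₀ n : ℕ} (Y : Ix t w τ → List.Vector Bool n)
    (x : List.Vector Bool n) :
    GS t w τ m₀ N x.toList
      (cat fun i => (Y ((Fintype.equivFin (Ix t w τ)).symm i)).toList) ↔
      GG (fun v : List.Vector Bool n => mdS m₀ v.toList)
        (fun z => ct (fun c => (z c).toList) ∈ N) Y x := by
  rw [← T3_GG]
  unfold GS
  constructor
  · rintro ⟨f, h1, h2, h3⟩
    rw [List.Vector.toList_length] at h1
    have h4 := cat_inj (n := n) (fun i => List.Vector.toList_length _) (fun i => h1 _) h2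
    have h5 : f = fun i => (Y i).toList := by
      funext i
      have := congrFun h4 (Fintype.equivFin (Ix t w τ) i)
      simp only [Equiv.symm_apply_apply] at this
      exact this.symm
    rw [h5] at h3
    exact h3
  · intro h
    exact ⟨fun i => (Y i).toList, fun i => by simp, rfl, h⟩

open Classical in
/-- PLAN. `cnt_cat`, `cnt_vec`, `gs_iff`, and the bijection of the indices. -/
theorem gs_cnt {A N : Lang} {t w τ m₀ n : ℕ} :
    cnt (Fintype.card (Ix t w τ) * n) (fun Y =>
      2 ^ 15 * cnt n (fun x => (GS t w τ m₀ N x Y ↔ x ∈ A)) ≤ 2 ^ n) =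
    (Finset.univ.filter fun Y : Ix t w τ → List.Vector Bool n =>
      2 ^ 15 * (Finset.univ.filter fun x : List.Vector Bool n =>
        (GG (fun v : List.Vector Bool n => mdS m₀ v.toList)
          (fun z => ct (fun c => (z c).toList) ∈ N) Y x ↔ x.toList ∈ A)).card ≤ 2 ^ n).card := by
  rw [cnt_cat]
  refine Finset.card_bij (fun f _ => fun i => f (Fintype.equivFin (Ix t w τ) i)) ?_ ?_ ?_
  · intro f hf
    simp only [Finset.mem_filter, Finset.mem_univ, true_and] at hf ⊢
    have h1 := hf
    rw [cnt_vec] at h1
    refine le_trans (le_of_eq ?_) h1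
    refine congrArg (fun k : ℕ => 2 ^ 15 * k) (congrArg Finset.card ?_)
    ext x
    simp only [Finset.mem_filter, Finset.mem_univ, true_and]
    rw [← gs_iff]
    simp only [Equiv.apply_symm_apply]
  · intro f _ f' _ h
    funext i
    have := congrFun h ((Fintype.equivFin (Ix t w τ)).symm i)
    simp only [Equiv.apply_symm_apply] at this
    exact this
  · intro Y hY
    simp only [Finset.mem_filter, Finset.mem_univ, true_and] at hY
    refine ⟨fun i => Y ((Fintype.equivFin (Ix t w τ)).symm i), ?_, ?_⟩
    · simp only [Finset.mem_filter, Finset.mem_univ, true_and]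
      rw [cnt_vec]
      refine le_trans (le_of_eq ?_) hY
      refine congrArg (fun k : ℕ => 2 ^ 15 * k) (congrArg Finset.card ?_)
      ext x
      simp only [Finset.mem_filter, Finset.mem_univ, true_and]
      rw [← gs_iff]
    · funext i
      simp only [Equiv.symm_apply_apply]

end Pool.Agent.LibHF75
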