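import Pool.Agent.LibHF75.K11
import Pool.Agent.LibHF75.S8
import Pool.Agent.LibHF75.T1
import Pool.Agent.LibHF75.T2
import Pool.Agent.LibHF75.T3

/-!
Row T4: the two-sided theorem.
-/

namespace Pool.Agent.LibHF75

open Filter Function Pool.Agent.LibNexp Pool.Agent.LibBHN Pool.Agent.LibAV75

variable {O : List Bool → Bool}

theorem more_of_apE {ε : ℝ} (hε : 0 < ε) (h : ApE O False ε) : More O := by
  intro L hL
  obtain ⟨N, hN, -, hev⟩ := h L hL
  refine ⟨N, hN, ?_⟩
  filter_upwards [hev] with m hm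
  have h1 : (0 : ℝ) < 2 ^ m := by positivity
  have h2 : (2 * err Lᶜ N m : ℝ) < 2 ^ m := by nlinarith
  exact_mod_cast h2

private theorem T4_cons (w : List Bool) {k : ℕ} (i j : Fin k) :
    NEXP O fun e : Fin k → List Bool => e j = w ++ e i := by
  refine ((nexp_subst (O := O) (fun _ => []) (fun b => [b]) w).reindex ![i, i, j]).congr
    fun e => ?_
  simp [misc_flatMap_nil]

private theorem T4_cnt_congr {m : ℕ} {P Q : List Bool → Prop}
    (h : ∀ x : List Bool, x.length = m → (P x ↔ Q x)) : cnt m P = cnt m Q := by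
  classical
  unfold cnt
  congr 1
  ext y
  simp only [Finset.mem_filter, Finset.mem_range]
  exact and_congr_right fun _ => h _ (length_bits m y)

private theorem T4_pre {N : Lang} (hN : N ∈ NEXPLang O) (w : List Bool) :
    NEXP O fun e : Fin 1 → List Bool => (w ++ e 0) ∈ N := by
  have h1 : NEXP O fun e : Fin 1 → List Bool => ∃ z, z = w ++ e 0 ∧ z ∈ N := by
    refine nexp_ex (R := fun (e : Fin 1 → List Bool) z => z = w ++ e 0 ∧ z ∈ N)
      ((T4_cons w (0 : Fin 2) 1).and (nexp_mem hN 1)) (g := fun n => n + w.length)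
      (PolyB.id.add (PolyB.const _)) ?_
    rintro e z ⟨rfl, -⟩
    have := len_le_size e 0
    rw [List.length_append]
    show w.length + (e 0).length ≤ size e + w.length
    omega
  refine h1.congr fun e => ?_
  constructor
  · rintro ⟨z, rfl, h⟩
    exact h
  · intro h
    exact ⟨_, rfl, h⟩

/-- For one language with density close to `1 / 2` at some lengths. -/
theorem approx_of_density {ε : ℝ} (hε : 0 < ε) (h : ApE O False ε) :
    ∃ κ : ℝ, 0 < κ ∧ ∀ A ∈ NEXPLang O, ∃ N ∈ NEXPLang O, ∀ᶠ n in atTop,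
      |(cnt n (fun x => x ∈ A) : ℝ) - 2 ^ n / 2| ≤ κ * 2 ^ n →
      2 ^ 10 * err Aᶜ N n ≤ 2 ^ n := by
  classical
  obtain ⟨t, w, τ, B, ht, hw, κ, hκ, hcore⟩ := core hε (δ := 1 / 2 ^ 15) (by norm_num) (by norm_num)
  refine ⟨κ, hκ, fun A hA => ?_⟩
  obtain ⟨N₀, hN₀, -, hev⟩ := h (TL t w A) (tl_mem hA ht hw)
  obtain ⟨α, hα, hX⟩ := hcore (1 / 2 ^ B) (by positivity)
  obtain ⟨κ₀, hκ₀⟩ : ∃ κ₀ : ℕ, 1 / α ≤ 2 ^ κ₀ := by
    obtain ⟨m, hm⟩ := pow_unbounded_of_one_lt (1 / α) (one_lt_two)
    exact ⟨m, hm.le⟩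
  have hc : 1 ≤ Fintype.card (Ix t w τ) := Fintype.card_pos
  obtain ⟨N, hN, hsel⟩ := select (more_of_apE hε h) hA (gs_mem hN₀ t w τ B) hc κ₀
  refine ⟨N, hN, ?_⟩
  have htw : Tendsto (fun n => t * w * n) atTop atTop := by
    refine tendsto_atTop_mono (fun n => ?_) tendsto_id
    have : 1 ≤ t * w := Nat.mul_pos ht hw
    exact Nat.le_mul_of_pos_left n this
  filter_upwards [hsel, htw.eventually hev, eventually_ge_atTop B] with n hn herr hB hdens
  refine hn ?_
  have : Nonempty (List.Vector Bool n) := ⟨List.Vector.replicate n false⟩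
  have hcard : (Fintype.card (List.Vector Bool n) : ℝ) = 2 ^ n := by
    rw [card_vector, Fintype.card_bool]
    push_cast
    rfl
  have key := hX (List.Vector Bool n) (fun v => v.toList ∈ A)
    (fun v => mdS B v.toList) (fun z => ct (fun c => (z c).toList) ∈ N₀) ?_ ?_ ?_
  · rw [Fintype.card_fun] at key
    rw [gs_cnt]
    have h1 : (Finset.univ.filter fun Y : Ix t w τ → List.Vector Bool n =>
        ((Finset.univ.filter fun x : List.Vector Bool n =>
          (GG (fun v : List.Vector Bool n => mdS B v.toList)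
            (fun z => ct (fun c => (z c).toList) ∈ N₀) Y x ↔ x.toList ∈ A)).card : ℝ) ≤
          1 / 2 ^ 15 * Fintype.card (List.Vector Bool n)).card =
        (Finset.univ.filter fun Y : Ix t w τ → List.Vector Bool n =>
          2 ^ 15 * (Finset.univ.filter fun x : List.Vector Bool n =>
            (GG (fun v : List.Vector Bool n => mdS B v.toList)
              (fun z => ct (fun c => (z c).toList) ∈ N₀) Y x ↔ x.toList ∈ A)).card ≤ 2 ^ n).card := by
      congr 1
      apply Finset.filter_congr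
      intro Y _
      rw [hcard]
      constructor
      · intro h2
        have h3 : (2 ^ 15 * ((Finset.univ.filter fun x : List.Vector Bool n =>
          (GG (fun v : List.Vector Bool n => mdS B v.toList)
            (fun z => ct (fun c => (z c).toList) ∈ N₀) Y x ↔ x.toList ∈ A)).card : ℝ)) ≤
            2 ^ n := by
          linarith
        exact_mod_cast h3
      · intro h2
        have h3 : (2 ^ 15 * ((Finset.univ.filter fun x : List.Vector Bool n =>
          (GG (fun v : List.Vector Bool n => mdS B v.toList)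
            (fun z => ct (fun c => (z c).toList) ∈ N₀) Y x ↔ x.toList ∈ A)).card : ℝ)) ≤
            2 ^ n := by
          exact_mod_cast h2
        linarith
    rw [h1] at key
    set Cn := (Finset.univ.filter fun Y : Ix t w τ → List.Vector Bool n =>
          2 ^ 15 * (Finset.univ.filter fun x : List.Vector Bool n =>
            (GG (fun v : List.Vector Bool n => mdS B v.toList)
              (fun z => ct (fun c => (z c).toList) ∈ N₀) Y x ↔ x.toList ∈ A)).card ≤ 2 ^ n).card
    push_cast at key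
    rw [hcard, ← pow_mul] at key
    have h4 : (2 : ℝ) ^ (Fintype.card (Ix t w τ) * n) ≤ 2 ^ κ₀ * Cn := by
      have h5 : (1 : ℝ) ≤ 2 ^ κ₀ * α := by
        have := mul_le_mul_of_nonneg_right hκ₀ hα.le
        rwa [one_div, inv_mul_cancel₀ hα.ne'] at this
      have h6 : (0 : ℝ) ≤ 2 ^ (Fintype.card (Ix t w τ) * n) := by positivity
      calc (2 : ℝ) ^ (Fintype.card (Ix t w τ) * n)
          ≤ 2 ^ κ₀ * α * 2 ^ (Fintype.card (Ix t w τ) * n) := le_mul_of_one_le_left h6 h5
        _ = 2 ^ κ₀ * (α * 2 ^ (n * Fintype.card (Ix t w τ))) := by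
            rw [mul_comm n, mul_assoc]
        _ ≤ 2 ^ κ₀ * Cn := mul_le_mul_of_nonneg_left key (by positivity)
    exact_mod_cast h4
  · rw [hcard, ← cnt_vec]
    exact hdens
  · intro m hm
    have h2 := md_cnt hB (hm.trans Nat.lt_two_pow_self)
    rw [hcard]
    have h3 : (2 : ℝ) ^ B * ((Finset.univ.filter fun y : List.Vector Bool n =>
        mdS B y.toList = m).card : ℝ) = 2 ^ n := by exact_mod_cast h2
    rw [← h3, ← mul_assoc, one_div, inv_mul_cancel₀ (by positivity), one_mul]
  · rw [hcard, ← pow_mul]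
    rw [tl_err ht hw] at herr
    rw [mul_comm n]
    exact herr

/-- The two-sided theorem. -/
theorem ap_two {ε : ℝ} (hε : 0 < ε) (h : ApE O False ε) : Ap O False fun _ => 8 := by
  classical
  obtain ⟨κ, hκ, happ⟩ := approx_of_density hε h
  have hM : More O := more_of_apE hε h
  intro A hA
  obtain ⟨a, ha⟩ : ∃ a : ℕ, (1 / 2 : ℝ) ^ (a + 2) ≤ κ := by
    obtain ⟨a, ha⟩ := exists_pow_lt_of_lt_one hκ (by norm_num : (1 / 2 : ℝ) < 1)
    refine ⟨a, le_trans ?_ ha.le⟩
    exact pow_le_pow_of_le_one (by norm_num) (by norm_num) (by omega)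
  choose Nf hNf hev using fun u => happ (Bal a u A) (bal_mem hA a u)
  refine ⟨{x | ∃ u ∈ Finset.range (2 ^ a + 1), u * 2 ^ x.length ≤ 2 ^ a * cnt x.length (fun y => y ∈ A) ∧
    ¬ (u + 1) * 2 ^ x.length ≤ 2 ^ a * cnt x.length (fun y => y ∈ A) ∧
      false :: false :: x ∈ Nf u}, ?_, fun hf => hf.elim, ?_⟩
  · have h1 : ∀ u ∈ Finset.range (2 ^ a + 1), NEXP O fun e : Fin 1 → List Bool =>
        u * 2 ^ (e 0).length ≤ 2 ^ a * cnt (e 0).length (fun y => y ∈ A) ∧
        ¬ (u + 1) * 2 ^ (e 0).length ≤ 2 ^ a * cnt (e 0).length (fun y => y ∈ A) ∧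
        false :: false :: e 0 ∈ Nf u := by
      intro u _
      have h2 := nexp_frac (O := O) (k := 1) (R := fun _ y => y ∈ A) (nexp_mem hA _) 0 u a 1 0
      have h3 := nexp_frac_neg hM (R := fun _ y => y ∈ A) (nexp_mem hA 1) (0 : Fin 1) (u + 1) a 1 0
      have h4 := T4_pre (hNf u) [false, false]
      refine (h2.and (h3.and h4)).congr fun e => ?_
      simp only [one_mul, add_zero, List.cons_append, List.nil_append]
    exact NEXP.finite_exists _ h1
  · have hev2 : ∀ᶠ n in atTop, ∀ u ∈ Finset.range (2 ^ a + 1),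
        |(cnt (n + 2) (fun x => x ∈ Bal a u A) : ℝ) - 2 ^ (n + 2) / 2| ≤ κ * 2 ^ (n + 2) →
        2 ^ 10 * err (Bal a u A)ᶜ (Nf u) (n + 2) ≤ 2 ^ (n + 2) := by
      rw [Filter.eventually_all_finset]
      intro u _
      exact (tendsto_add_atTop_nat 2).eventually (hev u)
    filter_upwards [hev2, eventually_ge_atTop a] with n hn hna
    set C := cnt n (fun y => y ∈ A) with hC
    have hCle : C ≤ 2 ^ n := cnt_le _ _
    have hpos : 0 < 2 ^ n := Nat.two_pow_pos n
    set u := 2 ^ a * C / 2 ^ n with hu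
    have hu1 : u * 2 ^ n ≤ 2 ^ a * C := Nat.div_mul_le_self _ _
    have hu2 : 2 ^ a * C < (u + 1) * 2 ^ n := by
      have := Nat.lt_succ_self u
      rw [hu, Nat.div_lt_iff_lt_mul hpos] at this
      exact this
    have hua : u ≤ 2 ^ a := by
      rw [hu]
      exact Nat.div_le_of_le_mul (by rw [mul_comm]; exact Nat.mul_le_mul_right _ hCle)
    have hmem : u ∈ Finset.range (2 ^ a + 1) := Finset.mem_range.2 (Nat.lt_succ_of_le hua)
    have hcnt := bal_cnt hna hua A
    rw [← hC] at hcnt
    have hpa : (2 : ℝ) ^ n = 2 ^ a * 2 ^ (n - a) := by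
      rw [← pow_add]
      congr 1
      omega
    have hkey := hn u hmem ?_
    · have h5 : err Aᶜ {x | ∃ u ∈ Finset.range (2 ^ a + 1),
          u * 2 ^ x.length ≤ 2 ^ a * cnt x.length (fun y => y ∈ A) ∧
          ¬ (u + 1) * 2 ^ x.length ≤ 2 ^ a * cnt x.length (fun y => y ∈ A) ∧
            false :: false :: x ∈ Nf u} n = err Aᶜ {x | false :: false :: x ∈ Nf u} n := by
        refine T4_cnt_congr fun x h6 => ?_
        have h7 : (x ∈ {x : List Bool | ∃ u ∈ Finset.range (2 ^ a + 1),
            u * 2 ^ x.length ≤ 2 ^ a * cnt x.length (fun y => y ∈ A) ∧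
            ¬ (u + 1) * 2 ^ x.length ≤ 2 ^ a * cnt x.length (fun y => y ∈ A) ∧
              false :: false :: x ∈ Nf u}) ↔ x ∈ {x | false :: false :: x ∈ Nf u} := by
          show (∃ u ∈ Finset.range (2 ^ a + 1),
            u * 2 ^ x.length ≤ 2 ^ a * cnt x.length (fun y => y ∈ A) ∧
            ¬ (u + 1) * 2 ^ x.length ≤ 2 ^ a * cnt x.length (fun y => y ∈ A) ∧
              false :: false :: x ∈ Nf u) ↔ false :: false :: x ∈ Nf u
          simp only [h6, ← hC]
          constructor
          · rintro ⟨v, -, hv1, hv2, hv3⟩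
            have h8 : v = u := by
              have h9 : v * 2 ^ n < (u + 1) * 2 ^ n := lt_of_le_of_lt hv1 hu2
              have h10 : u * 2 ^ n < (v + 1) * 2 ^ n := lt_of_le_of_lt hu1 (not_le.1 hv2)
              have h11 := lt_of_mul_lt_mul_right h9 (Nat.zero_le _)
              have h12 := lt_of_mul_lt_mul_right h10 (Nat.zero_le _)
              omega
            rw [← h8]
            exact hv3
          · intro hv
            exact ⟨u, hmem, hu1, not_le.2 hu2, hv⟩
        rw [h7]
      rw [h5]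
      have h6 := bal_err n a u A (Nf u)
      have h7 : (2 : ℕ) ^ (n + 2) = 4 * 2 ^ n := by ring
      rw [h7] at hkey
      show 2 ^ 8 * err Aᶜ {x | false :: false :: x ∈ Nf u} n ≤ 2 ^ n
      omega
    · have h8 : (cnt (n + 2) (fun x => x ∈ Bal a u A) : ℝ) =
          C + 2 ^ n + (2 ^ a - u) * 2 ^ (n - a) := by
        rw [hcnt]
        push_cast [Nat.cast_sub hua]
        ring
      have hu1' : (u : ℝ) * 2 ^ n ≤ 2 ^ a * C := by exact_mod_cast hu1
      have hu2' : (2 : ℝ) ^ a * C < (u + 1) * 2 ^ n := by exact_mod_cast hu2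
      have hpa0 : (0 : ℝ) < 2 ^ a := by positivity
      have h9 : (u : ℝ) * 2 ^ (n - a) ≤ C := by
        rw [hpa] at hu1'
        have : (2 : ℝ) ^ a * (u * 2 ^ (n - a)) ≤ 2 ^ a * C := by linarith
        exact le_of_mul_le_mul_left this hpa0
      have h10 : (C : ℝ) < (u + 1) * 2 ^ (n - a) := by
        rw [hpa] at hu2'
        have : (2 : ℝ) ^ a * C < 2 ^ a * ((u + 1) * 2 ^ (n - a)) := by linarith
        exact lt_of_mul_lt_mul_left this hpa0.le
      have h11 : (2 : ℝ) ^ (n - a) ≤ κ * 2 ^ (n + 2) := by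
        have h12 : (2 : ℝ) ^ (n - a) = (1 / 2) ^ (a + 2) * 2 ^ (n + 2) := by
          rw [one_div, inv_pow, pow_add, pow_add, hpa]
          field_simp
        rw [h12]
        exact mul_le_mul_of_nonneg_right ha (by positivity)
      have h13 : (2 : ℝ) ^ (n + 2) / 2 = 2 * 2 ^ n := by ring
      rw [h8, h13, abs_le]
      constructor
      · nlinarith
      · nlinarith

end Pool.Agent.LibHF75
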