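import Pool.Agent.LibHF75.I1
import Pool.Agent.LibHF75.T1
import Pool.Agent.LibHF75.T2
import Pool.Agent.LibDual85.Ex
import Pool.Agent.LibAV75.M5

/-!
Row T5: the one-sided theorem.
-/

namespace Pool.Agent.LibHF75

open Filter Function Pool.Agent.LibNexp Pool.Agent.LibBHN Pool.Agent.LibAV75

variable {O : List Bool → Bool}

/-- The language predicted by `M` at the strings `x`, from blocks. -/
def T5_N (t w : ℕ) (A M : Lang) : Lang :=
  {x | ∃ c : Fin t × Fin w, ∃ z : Fin t × Fin w → List Bool, (∀ i, (z i).length = x.length) ∧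
    ct (update z c x) ∈ M ∧ ∀ j, j ≠ c.2 → z (c.1, j) ∈ A}

theorem T5_mem {t w : ℕ} {A M : Lang} (hA : A ∈ NEXPLang O) (hM : M ∈ NEXPLang O) :
    T5_N t w A M ∈ NEXPLang O := by
  have h1 : ∀ c : Fin t × Fin w, NEXP O fun e : Fin (1 + t * w) → List Bool =>
      (∀ i ∈ (Finset.univ : Finset (Fin (t * w))),
        (e (Fin.natAdd 1 i)).length = (low (Nat.le_add_right 1 (t * w)) e 0).length) ∧
      cat (update (fun i : Fin (t * w) => e (Fin.natAdd 1 i)) (finProdFinEquiv c)
        (low (Nat.le_add_right 1 (t * w)) e 0)) ∈ M ∧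
      ∀ j ∈ (Finset.univ : Finset (Fin w)), j ≠ c.2 →
        e (Fin.natAdd 1 (finProdFinEquiv (c.1, j))) ∈ A := by
    intro c
    refine NEXP.and ?_ (NEXP.and ?_ ?_)
    · refine nexp_finite_forall _ fun i _ => ?_
      refine (nexp_lin 1 0 (Fin.castLE (Nat.le_add_right 1 (t * w)) 0)
        (Fin.natAdd 1 i)).congr fun e => ?_
      unfold low
      simp
    · classical
      refine (nexp_cat_mem hM (fun i : Fin (t * w) => if i = finProdFinEquiv c then
        Fin.castLE (Nat.le_add_right 1 (t * w)) 0 else Fin.natAdd 1 i)).congr fun e => ?_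
      have h2 : (fun i : Fin (t * w) => e (if i = finProdFinEquiv c then
          Fin.castLE (Nat.le_add_right 1 (t * w)) 0 else Fin.natAdd 1 i)) =
          update (fun i : Fin (t * w) => e (Fin.natAdd 1 i)) (finProdFinEquiv c)
            (low (Nat.le_add_right 1 (t * w)) e 0) := by
        funext i
        by_cases hi : i = finProdFinEquiv c
        · rw [if_pos hi, hi, update_self]
          rfl
        · rw [if_neg hi, update_of_ne hi]
      rw [h2]
    · refine nexp_finite_forall _ fun j _ => ?_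
      by_cases hj : j ≠ c.2
      · exact (nexp_mem hA (Fin.natAdd 1 (finProdFinEquiv (c.1, j)))).congr fun e => by
          simp [hj]
      · exact nexp_true.congr fun e => by simp [hj]
  have h3 : ∀ c : Fin t × Fin w, NEXP O fun e : Fin 1 → List Bool =>
      ∃ f : Fin (t * w) → List Bool,
        (∀ i ∈ (Finset.univ : Finset (Fin (t * w))), (f i).length = (e 0).length) ∧
        cat (update f (finProdFinEquiv c) (e 0)) ∈ M ∧
        ∀ j ∈ (Finset.univ : Finset (Fin w)), j ≠ c.2 →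
          f (finProdFinEquiv (c.1, j)) ∈ A := by
    intro c
    refine Pool.Agent.LibDual85.nexp_exN
      (R := fun (e : Fin 1 → List Bool) (f : Fin (t * w) → List Bool) =>
        (∀ i ∈ (Finset.univ : Finset (Fin (t * w))), (f i).length = (e 0).length) ∧
        cat (update f (finProdFinEquiv c) (e 0)) ∈ M ∧
        ∀ j ∈ (Finset.univ : Finset (Fin w)), j ≠ c.2 →
          f (finProdFinEquiv (c.1, j)) ∈ A) (h1 c) (g := fun n => n) PolyB.id
      monotone_id ?_
    rintro e f ⟨h4, -⟩ j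
    rw [h4 j (Finset.mem_univ _)]
    exact len_le_size e 0
  refine (NEXP.finite_exists (Finset.univ : Finset (Fin t × Fin w))
    fun c _ => h3 c).congr fun e => ?_
  constructor
  · rintro ⟨c, -, f, h4, h5, h6⟩
    refine ⟨c, fun i => f (finProdFinEquiv i), fun i => h4 _ (Finset.mem_univ _), ?_,
      fun j hj => h6 j (Finset.mem_univ _) hj⟩
    have h7 : ct (update (fun i => f (finProdFinEquiv i)) c (e 0)) =
        cat (update f (finProdFinEquiv c) (e 0)) := by
      unfold ct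
      congr 1
      funext i
      by_cases hi : i = finProdFinEquiv c
      · rw [hi, Equiv.symm_apply_apply, update_self, update_self]
      · rw [update_of_ne hi, update_of_ne, Equiv.apply_symm_apply]
        intro h
        exact hi (by rw [← h, Equiv.apply_symm_apply])
    rw [h7]
    exact h5
  · rintro ⟨c, z, h4, h5, h6⟩
    refine ⟨c, Finset.mem_univ _, fun i => z (finProdFinEquiv.symm i), fun i _ => h4 _, ?_,
      fun j _ hj => ?_⟩
    · have h7 : cat (update (fun i => z (finProdFinEquiv.symm i)) (finProdFinEquiv c) (e 0)) =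
          ct (update z c (e 0)) := by
        unfold ct
        congr 1
        funext i
        by_cases hi : i = finProdFinEquiv c
        · rw [hi, Equiv.symm_apply_apply, update_self, update_self]
        · rw [update_of_ne hi, update_of_ne]
          intro h
          exact hi (by rw [← h, Equiv.apply_symm_apply])
      rw [h7]
      exact h5
    · show z (finProdFinEquiv.symm (finProdFinEquiv (c.1, j))) ∈ A
      rw [Equiv.symm_apply_apply]
      exact h6 j hj

theorem T5_sub {t w : ℕ} {A M : Lang} (hM : M ⊆ (TL t w A)ᶜ) : T5_N t w A M ⊆ Aᶜ := by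
  rintro x ⟨c, z, h1, h2, h3⟩ hx
  refine hM h2 ⟨fun i => update z c x (finProdFinEquiv.symm i), ⟨x.length, fun i => ?_⟩, rfl, c.1,
    fun j => ?_⟩
  · show (update z c x (finProdFinEquiv.symm i)).length = x.length
    by_cases hi : finProdFinEquiv.symm i = c
    · rw [hi, update_self]
    · rw [update_of_ne hi]
      exact h1 _
  · show update z c x (finProdFinEquiv.symm (finProdFinEquiv (c.1, j))) ∈ A
    rw [Equiv.symm_apply_apply]
    by_cases hj : j = c.2
    · rw [hj, update_self]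
      exact hx
    · rw [update_of_ne]
      · exact h3 j hj
      · intro h
        exact hj (by rw [← h])

/-- PLAN. `M` from `h` for `TL t w A` (`M ⊆ (TL t w A)ᶜ`). `N` is the set of `x` such that for some family
`z : Fin t × Fin w → List Bool` of strings of length `|x|` and some position `c`: `ct (update z c x) ∈ M` and
`z (c.1, j) ∈ A` for `j ≠ c.2` (`nexp_split`-like, `nexp_cat_mem`, finite union over `c`). `N ⊆ Aᶜ`: otherwise
`ct (update z c x) ∈ TL t w A`. The number of errors: `inner_core` with `δ = 2 ^ (-10)`, `tl_err`. -/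
theorem inner_of_density {ε : ℝ} (hε : 0 < ε) (h : ApE O True ε) :
    ∃ κ : ℝ, 0 < κ ∧ ∀ A ∈ NEXPLang O, ∃ N ∈ NEXPLang O, N ⊆ Aᶜ ∧ ∀ᶠ n in atTop,
      (2 : ℝ) ^ n / 2 ≤ cnt n (fun x => x ∈ A) → (cnt n (fun x => x ∈ A) : ℝ) ≤ (1 / 2 + κ) * 2 ^ n →
      2 ^ 10 * err Aᶜ N n ≤ 2 ^ n := by
  classical
  obtain ⟨t, w, ht, hw, κ, hκ, hcore⟩ := inner_core hε
    (show (0 : ℝ) < 1 / 2 ^ 10 by positivity)
  refine ⟨κ, hκ, fun A hA => ?_⟩
  obtain ⟨M, hM, hMin, hMerr⟩ := h (TL t w A) (tl_mem hA ht hw)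
  have hMin' := hMin trivial
  refine ⟨T5_N t w A M, T5_mem hA hM, T5_sub hMin', ?_⟩
  have htw : 1 ≤ t * w := Nat.mul_pos ht hw
  have htend : Tendsto (fun n : ℕ => t * w * n) atTop atTop :=
    tendsto_atTop_mono (fun n => Nat.le_mul_of_pos_left n htw) tendsto_id
  filter_upwards [htend.eventually hMerr] with n hn h1 h2
  rw [tl_err ht hw] at hn
  have hcard : Fintype.card (List.Vector Bool n) = 2 ^ n := by
    rw [card_vector, Fintype.card_bool]
  have hcA := cnt_vec n (fun x => x ∈ A)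
  have h3 := hcore (List.Vector Bool n) (fun v => v.toList ∈ A)
    (fun z => ct (fun c => (z c).toList) ∈ M)
    (by rw [hcard, ← hcA]; push_cast; exact h1) (by rw [hcard, ← hcA]; push_cast; exact h2)
    (fun z hz hT => hMin' hz ((tl_iff ht hw z).2 hT))
    (by
      rw [hcard]
      push_cast
      rw [← pow_mul, mul_comm n (t * w)]
      exact hn)
  have h4 : err Aᶜ (T5_N t w A M) n ≤ (Finset.univ.filter fun x : List.Vector Bool n =>
      ¬ x.toList ∈ A ∧ ¬ ∃ (z : Fin t × Fin w → List.Vector Bool n) (c : Fin t × Fin w),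
        ct (fun c' => (update z c x c').toList) ∈ M ∧
          ∀ j, j ≠ c.2 → (z (c.1, j)).toList ∈ A).card := by
    unfold err
    rw [cnt_vec]
    refine Finset.card_le_card fun x hx => ?_
    have hx2 : ¬ (x.toList ∈ Aᶜ ↔ x.toList ∈ T5_N t w A M) :=
      ((@Finset.mem_filter _ _ (fun a => Classical.propDecidable _) _ _).1 hx).2
    refine Finset.mem_filter.2 ⟨Finset.mem_univ _, ?_⟩
    have h5 : ¬ x.toList ∈ T5_N t w A M := by
      intro h6
      exact hx2 ⟨fun _ => h6, fun _ => T5_sub hMin' h6⟩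
    refine ⟨fun h6 => hx2 ⟨fun h7 => absurd h6 h7, fun h7 => absurd h7 h5⟩, ?_⟩
    rintro ⟨z, c, h6, h7⟩
    refine h5 ⟨c, fun i => (z i).toList, fun i => ?_, ?_, h7⟩
    · rw [List.Vector.toList_length, List.Vector.toList_length]
    · have h8 : update (fun i => (z i).toList) c x.toList = fun c' => (update z c x c').toList := by
        funext c'
        by_cases hc : c' = c
        · rw [hc, update_self, update_self]
        · rw [update_of_ne hc, update_of_ne hc]
      rw [h8]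
      exact h6
  have h5 : ((2 ^ 10 * err Aᶜ (T5_N t w A M) n : ℕ) : ℝ) ≤ ((2 ^ n : ℕ) : ℝ) := by
    have h6 : (err Aᶜ (T5_N t w A M) n : ℝ) ≤ 1 / 2 ^ 10 * (2 : ℝ) ^ n := by
      refine (Nat.cast_le.2 h4).trans (h3.trans_eq ?_)
      rw [hcard]
      push_cast
      rfl
    rw [Nat.cast_mul, Nat.cast_pow, Nat.cast_pow, Nat.cast_ofNat]
    calc (2 : ℝ) ^ 10 * (err Aᶜ (T5_N t w A M) n : ℝ)
        ≤ 2 ^ 10 * (1 / 2 ^ 10 * (2 : ℝ) ^ n) := mul_le_mul_of_nonneg_left h6 (by positivity)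
      _ = 2 ^ n := by ring
  exact_mod_cast h5

/-- The strings `x` with `false :: false :: x` in a language. -/
theorem T5_ff {N : Lang} (hN : N ∈ NEXPLang O) :
    NEXP O fun e : Fin 1 → List Bool => false :: false :: e 0 ∈ N := by
  have h1 : NEXP O fun e : Fin 2 → List Bool => e 1 = false :: false :: e 0 ∧ e 1 ∈ N := by
    refine NEXP.and ?_ (nexp_mem hN 1)
    refine ((nexp_subst (O := O) (fun _ => []) (fun b => [b]) [false, false]).reindex
      ![0, 0, 1]).congr fun e => ?_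
    simp [misc_flatMap_nil]
  have h2 : NEXP O fun e : Fin 1 → List Bool => ∃ z : List Bool,
      z = false :: false :: e 0 ∧ z ∈ N := by
    refine nexp_ex (R := fun (e : Fin 1 → List Bool) z => z = false :: false :: e 0 ∧ z ∈ N) h1
      (g := fun n => n + 2) (PolyB.id.add (PolyB.const 2)) ?_
    rintro e z ⟨rfl, -⟩
    have := len_le_size e 0
    simp only [List.length_cons]
    omega
  refine h2.congr fun e => ?_
  constructor
  · rintro ⟨z, rfl, h3⟩
    exact h3
  · intro h3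
    exact ⟨_, rfl, h3⟩

/-- PLAN. As `ap_two`, with the union over all `u ≤ 2 ^ a` (no condition on `u` is needed as all the
`N u` are inside). -/
theorem ap_one {ε : ℝ} (hε : 0 < ε) (h : ApE O True ε) : Ap O True fun _ => 8 := by
  classical
  obtain ⟨κ, hκ, hden⟩ := inner_of_density hε h
  obtain ⟨a, ha⟩ := exists_pow_lt_of_lt_one hκ (show (1 / 2 : ℝ) < 1 by norm_num)
  intro L hL
  choose Nf hNf hsub hev using fun u : ℕ => hden (Bal a u L) (bal_mem hL a u)
  set N : Lang := {x | ∃ u ∈ Finset.range (2 ^ a + 1), false :: false :: x ∈ Nf u} with hN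
  have hNL : N ⊆ Lᶜ := by
    rintro x ⟨u, -, hu⟩ hx
    exact hsub u hu (Or.inl ⟨x, rfl, hx⟩)
  refine ⟨N, NEXP.finite_exists (Finset.range (2 ^ a + 1)) fun u _ => T5_ff (hNf u),
    fun _ => hNL, ?_⟩
  have hev2 : ∀ᶠ n : ℕ in atTop, ∀ u ∈ Finset.range (2 ^ a + 1),
      (2 : ℝ) ^ (n + 2) / 2 ≤ cnt (n + 2) (fun x => x ∈ Bal a u L) →
      (cnt (n + 2) (fun x => x ∈ Bal a u L) : ℝ) ≤ (1 / 2 + κ) * 2 ^ (n + 2) →
      2 ^ 10 * err (Bal a u L)ᶜ (Nf u) (n + 2) ≤ 2 ^ (n + 2) := by
    rw [eventually_all_finset]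
    intro u _
    exact (tendsto_add_atTop_nat 2).eventually (hev u)
  filter_upwards [hev2, eventually_ge_atTop a] with n hn han
  have hc : cnt n (fun x => x ∈ L) ≤ 2 ^ n := by
    rw [M5_cnt]
    exact (Finset.card_filter_le _ _).trans_eq (card_strs n)
  set c := cnt n (fun x => x ∈ L) with hcdef
  set u := 2 ^ a * c / 2 ^ n with hudef
  have hu : u ≤ 2 ^ a := by
    rw [hudef]
    exact Nat.div_le_of_le_mul (by rw [mul_comm (2 ^ n)]; exact Nat.mul_le_mul_left _ hc)
  have hpow : 2 ^ n = 2 ^ a * 2 ^ (n - a) := by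
    rw [← pow_add]
    congr 1
    omega
  have hu1 : u * 2 ^ (n - a) ≤ c := by
    have h1 : u * 2 ^ n ≤ 2 ^ a * c := Nat.div_mul_le_self _ _
    rw [hpow] at h1
    have h2 : 2 ^ a * (u * 2 ^ (n - a)) ≤ 2 ^ a * c := by
      calc 2 ^ a * (u * 2 ^ (n - a)) = u * (2 ^ a * 2 ^ (n - a)) := by ring
        _ ≤ _ := h1
    exact Nat.le_of_mul_le_mul_left h2 (by positivity)
  have hu2 : c ≤ (u + 1) * 2 ^ (n - a) := by
    have h1 : 2 ^ a * c < (u + 1) * 2 ^ n := by
      rw [mul_comm (u + 1)]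
      exact Nat.lt_mul_div_succ _ (by positivity)
    rw [hpow] at h1
    have h2 : 2 ^ a * c ≤ 2 ^ a * ((u + 1) * 2 ^ (n - a)) := by
      calc 2 ^ a * c ≤ (u + 1) * (2 ^ a * 2 ^ (n - a)) := h1.le
        _ = _ := by ring
    exact Nat.le_of_mul_le_mul_left h2 (by positivity)
  have hcnt := bal_cnt han hu L
  rw [← hcdef] at hcnt
  have hsub2 : (2 ^ a - u) * 2 ^ (n - a) + u * 2 ^ (n - a) = 2 ^ n := by
    rw [← add_mul, Nat.sub_add_cancel hu, ← hpow]
  have h22 : (2 : ℕ) ^ (n + 2) = 4 * 2 ^ n := by ring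
  have hlo : 2 * 2 ^ n ≤ cnt (n + 2) (fun z => z ∈ Bal a u L) := by
    rw [hcnt]
    omega
  have hhi : cnt (n + 2) (fun z => z ∈ Bal a u L) ≤ 2 * 2 ^ n + 2 ^ (n - a) := by
    rw [hcnt]
    have : (u + 1) * 2 ^ (n - a) = u * 2 ^ (n - a) + 2 ^ (n - a) := by ring
    omega
  have h1 := hn u (Finset.mem_range.2 (by omega))
    (by
      have h2 : ((2 * 2 ^ n : ℕ) : ℝ) ≤ (cnt (n + 2) (fun z => z ∈ Bal a u L) : ℝ) :=
        Nat.cast_le.2 hlo
      push_cast at h2
      calc (2 : ℝ) ^ (n + 2) / 2 = 2 * 2 ^ n := by ring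
        _ ≤ _ := h2)
    (by
      have h2 : (cnt (n + 2) (fun z => z ∈ Bal a u L) : ℝ) ≤ ((2 * 2 ^ n + 2 ^ (n - a) : ℕ) : ℝ) :=
        Nat.cast_le.2 hhi
      push_cast at h2
      have h3 : (2 : ℝ) ^ (n - a) ≤ κ * 2 ^ n := by
        have h4 : (2 : ℝ) ^ n = 2 ^ a * 2 ^ (n - a) := by exact_mod_cast hpow
        have h5 : (1 : ℝ) ≤ κ * 2 ^ a := by
          have h6 : (1 / 2 : ℝ) ^ a * 2 ^ a = 1 := by
            rw [← mul_pow]; norm_num
          nlinarith [pow_pos (show (0 : ℝ) < 2 by norm_num) a]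
        rw [h4]
        nlinarith [pow_pos (show (0 : ℝ) < 2 by norm_num) (n - a)]
      have h7 : (0 : ℝ) ≤ κ * 2 ^ n := by positivity
      calc (cnt (n + 2) (fun z => z ∈ Bal a u L) : ℝ) ≤ 2 * 2 ^ n + 2 ^ (n - a) := h2
        _ ≤ 2 * 2 ^ n + κ * 2 ^ n := by linarith
        _ ≤ 2 * 2 ^ n + 4 * (κ * 2 ^ n) := by linarith
        _ = (1 / 2 + κ) * 2 ^ (n + 2) := by ring)
  have h2 : err Lᶜ N n ≤ err Lᶜ {x | false :: false :: x ∈ Nf u} n := by
    unfold err
    refine M5_mono fun x _ hx => ?_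
    intro h3
    refine hx ⟨fun h4 => ⟨u, Finset.mem_range.2 (by omega), h3.1 h4⟩, fun h4 => hNL h4⟩
  have h3 := bal_err n a u L (Nf u)
  have h4 := h2.trans h3
  rw [h22] at h1
  show 2 ^ 8 * err Lᶜ N n ≤ 2 ^ n
  omega

end Pool.Agent.LibHF75
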