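import Pool.Agent.LibHF75.T4
import Pool.Agent.LibHF75.T5

/-!
Row T6: real exponents.
-/

namespace Pool.Agent.LibHF75

open Filter Function Pool.Agent.LibNexp Pool.Agent.LibBHN Pool.Agent.LibAV75

variable {O : List Bool → Bool}

/-- `Ap` with real exponents. -/
def ApR (O : List Bool → Bool) (b : Prop) (r : ℕ → ℝ) : Prop :=
  ∀ L ∈ NEXPLang O, ∃ N ∈ NEXPLang O, (b → N ⊆ Lᶜ) ∧
    ∀ᶠ m in atTop, (2 : ℝ) ^ r m * err Lᶜ N m ≤ 2 ^ m

theorem apR_cast {b : Prop} {s : ℕ → ℕ} : ApR O b (fun n => (s n : ℝ)) ↔ Ap O b s := by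
  have key : ∀ (L N : Lang) (m : ℕ), (2 : ℝ) ^ ((s m : ℕ) : ℝ) * err L N m ≤ 2 ^ m ↔
      2 ^ s m * err L N m ≤ 2 ^ m := by
    intro L N m
    rw [Real.rpow_natCast]
    constructor
    · intro h
      exact_mod_cast h
    · intro h
      exact_mod_cast h
  unfold ApR Ap
  constructor
  · intro h L hL
    obtain ⟨N, hN, hb, h1⟩ := h L hL
    exact ⟨N, hN, hb, h1.mono fun m hm => (key _ _ _).1 hm⟩
  · intro h L hL
    obtain ⟨N, hN, hb, h1⟩ := h L hL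
    exact ⟨N, hN, hb, h1.mono fun m hm => (key _ _ _).2 hm⟩

theorem apR_mono {b : Prop} {r r' : ℕ → ℝ} (h : ApR O b r) (hr : ∀ᶠ n in atTop, r' n ≤ r n) :
    ApR O b r' := by
  intro L hL
  obtain ⟨N, hN, hb, h1⟩ := h L hL
  refine ⟨N, hN, hb, ?_⟩
  filter_upwards [h1, hr] with m hm hm'
  refine le_trans (mul_le_mul_of_nonneg_right ?_ (Nat.cast_nonneg _)) hm
  exact Real.rpow_le_rpow_of_exponent_le one_le_two hm'

private theorem T6_apE {b : Prop} {r : ℕ → ℝ} (hr : Monotone r) (h : ApR O b r) :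
    ApE O b (1 / 2 - (2 : ℝ) ^ (-r 0)) := by
  intro L hL
  obtain ⟨N, hN, hb, h1⟩ := h L hL
  refine ⟨N, hN, hb, ?_⟩
  filter_upwards [h1] with m hm
  have h2 : (0 : ℝ) < (2 : ℝ) ^ r 0 := Real.rpow_pos_of_pos two_pos _
  have h3 : (2 : ℝ) ^ r 0 * err Lᶜ N m ≤ 2 ^ m :=
    le_trans (mul_le_mul_of_nonneg_right
      (Real.rpow_le_rpow_of_exponent_le one_le_two (hr (Nat.zero_le m))) (Nat.cast_nonneg _)) hm
  have h4 : (1 : ℝ) / 2 - (1 / 2 - (2 : ℝ) ^ (-r 0)) = (2 : ℝ) ^ (-r 0) := by ring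
  rw [h4, Real.rpow_neg two_pos.le]
  rw [inv_mul_eq_div, le_div_iff₀ h2]
  linarith

/-- PLAN. With `ε := 1 / 2 - 2 ^ (-r 0)` (real power; `2 ^ (-r 0) < 1 / 2`), `ApE O b ε`. If `r n < 9` for all `n`, then
`max 8 ⌊r n⌋₊ = 8` and `ap_two` or `ap_one` (cases `b`: `by_cases`, `propext`). Otherwise `r n ≥ 9` for large
`n`, there `max 8 ⌊r n⌋₊ = ⌊r n⌋₊ ≤ r n`. -/
theorem ap_of_apR {b : Prop} {r : ℕ → ℝ} (hr : Monotone r) (h1 : 1 < r 0) (h : ApR O b r) :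
    Ap O b fun n => max 8 ⌊r n⌋₊ := by
  by_cases h9 : ∃ n₀, 9 ≤ r n₀
  · obtain ⟨n₀, hn₀⟩ := h9
    refine apR_cast.1 (apR_mono h ?_)
    filter_upwards [eventually_ge_atTop n₀] with n hn
    have h2 : 9 ≤ r n := hn₀.trans (hr hn)
    have h3 : 8 ≤ ⌊r n⌋₊ := Nat.le_floor (by norm_num; linarith)
    rw [max_eq_right h3]
    exact Nat.floor_le (by linarith)
  · push Not at h9
    have h2 : (fun n => max 8 ⌊r n⌋₊) = fun _ => 8 := by
      funext n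
      have h3 : ⌊r n⌋₊ < 9 := by
        rw [Nat.floor_lt (by linarith [hr (Nat.zero_le n)])]
        exact_mod_cast h9 n
      omega
    rw [h2]
    have h3 : (0 : ℝ) < 1 / 2 - (2 : ℝ) ^ (-r 0) := by
      have h4 : (2 : ℝ) ^ (-r 0) < (2 : ℝ) ^ (-1 : ℝ) :=
        Real.rpow_lt_rpow_of_exponent_lt one_lt_two (by linarith)
      rw [Real.rpow_neg_one] at h4
      linarith
    have h5 := T6_apE hr h
    by_cases hb : b
    · have h6 : b = True := propext ⟨fun _ => trivial, fun _ => hb⟩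
      subst h6
      exact ap_one h3 h5
    · have h6 : b = False := propext ⟨fun hh => hb hh, fun hh => hh.elim⟩
      subst h6
      exact ap_two h3 h5

end Pool.Agent.LibHF75
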